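import Pool.Agent.U436.AS.Main

/-!
# The polynomial automorphism
-/

set_option autoImplicit false

namespace Pool.Agent.U436.AS

open PowerSeries Finset

variable {k : Type*} [Field k] {r ε : ℕ}

/-- A bijection given by polynomials, with inverse given by polynomials. -/
def IsPolyEquiv {σ τ : Type*} (Φ : (σ → k) → τ → k) : Prop :=
  (∀ i, IsPol fun x => Φ x i) ∧
    ∃ Ψ : (τ → k) → σ → k, (∀ i, IsPol fun y => Ψ y i) ∧ (∀ x, Ψ (Φ x) = x) ∧ ∀ y, Φ (Ψ y) = y

/-- The quadratic form `∑ u j v j + ∑ e i ^ 2`. -/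
def quad (x : Fin r ⊕ Fin r ⊕ Fin ε → k) : k :=
  ∑ j, x (Sum.inl j) * x (Sum.inr (Sum.inl j)) + ∑ i, x (Sum.inr (Sum.inr i)) ^ 2

/-- The new coordinates `u`. -/
noncomputable def U (f : Polynomial k) (m : ℕ) (τ : Fin r → k) (j : Fin r) : k := -G f m τ ((j : ℕ) + 1)

/-- The power series with the coefficients `-υ n`. -/
noncomputable def PP (f : Polynomial k) (m : ℕ) (υ : Fin r → k) : k⟦X⟧ :=
  C (coeff 0 (phi f m)) - ∑ n : Fin r, C (υ n) * X ^ ((n : ℕ) + 1)

/-- The inverse of `U`. -/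
noncomputable def W (f : Polynomial k) (m : ℕ) (υ : Fin r → k) (j : Fin r) : k :=
  coeff (r - (j : ℕ)) (phi f m * (PP f m υ)⁻¹)

lemma inv_congr {φ A B : k⟦X⟧} (hA : constantCoeff A ≠ 0) (hB : constantCoeff B ≠ 0) {N : ℕ}
    (h : ∀ n ≤ N, coeff n A = coeff n B) : ∀ n ≤ N, coeff n (φ * A⁻¹) = coeff n (φ * B⁻¹) := by
  intro n hn
  have hA1 : A * A⁻¹ = 1 := PowerSeries.mul_inv_cancel A hA
  have hB1 : B * B⁻¹ = 1 := PowerSeries.mul_inv_cancel B hB
  have h1 : X ^ (N + 1) ∣ B - A := by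
    rw [X_pow_dvd_iff]
    intro i hi
    rw [map_sub, h i (by omega), sub_self]
  have h2 : φ * A⁻¹ - φ * B⁻¹ = (B - A) * (φ * A⁻¹ * B⁻¹) := by
    linear_combination φ * B⁻¹ * hA1 - φ * A⁻¹ * hB1
  have h3 : X ^ (N + 1) ∣ φ * A⁻¹ - φ * B⁻¹ := by
    rw [h2]; exact Dvd.dvd.mul_right h1 _
  rw [← sub_eq_zero, ← map_sub]
  exact X_pow_dvd_iff.mp h3 n (by omega)

lemma coeff_zero_phi (f : Polynomial k) (m : ℕ) : coeff 0 (phi f m) = (m : k) * f.coeff m := by
  unfold phi
  rw [coeff_mk, Nat.sub_zero]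

lemma constantCoeff_phi (f : Polynomial k) (m : ℕ) : constantCoeff (phi f m) = coeff 0 (phi f m) := by
  rw [coeff_zero_eq_constantCoeff_apply]

lemma coeff_zero_PP (f : Polynomial k) (m : ℕ) (υ : Fin r → k) :
    coeff 0 (PP f m υ) = coeff 0 (phi f m) := by
  unfold PP
  rw [map_sub, coeff_zero_C, map_sum, Finset.sum_eq_zero, sub_zero]
  intro j _
  rw [coeff_C_mul, coeff_X_pow, if_neg (by omega), mul_zero]

lemma coeff_PP (f : Polynomial k) (m : ℕ) (υ : Fin r → k) (j : Fin r) :
    coeff ((j : ℕ) + 1) (PP f m υ) = -υ j := by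
  unfold PP
  rw [map_sub, coeff_C, if_neg (by omega), map_sum, Finset.sum_eq_single j]
  · rw [coeff_C_mul, coeff_X_pow, if_pos rfl]
    ring
  · intro i _ hij
    rw [coeff_C_mul, coeff_X_pow, if_neg, mul_zero]
    intro h
    exact hij (Fin.ext (by omega))
  · intro h
    exact absurd (mem_univ j) h

lemma cancel_inv {φ P : k⟦X⟧} (hφ : constantCoeff φ ≠ 0) (hP : constantCoeff P ≠ 0) :
    φ * (φ * P⁻¹)⁻¹ = P := by
  have h1 : P * P⁻¹ = 1 := PowerSeries.mul_inv_cancel P hP
  have h2 : constantCoeff (φ * P⁻¹) ≠ 0 := by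
    rw [map_mul, constantCoeff_inv]
    exact mul_ne_zero hφ (inv_ne_zero hP)
  have h3 : φ * P⁻¹ * (φ * P⁻¹)⁻¹ = 1 := PowerSeries.mul_inv_cancel _ h2
  linear_combination P * h3 - φ * (φ * P⁻¹)⁻¹ * h1

section

variable {f : Polynomial k} {m : ℕ}

lemma constantCoeff_PP_ne (h0 : coeff 0 (phi f m) ≠ 0) (υ : Fin r → k) : constantCoeff (PP f m υ) ≠ 0 := by
  rw [← coeff_zero_eq_constantCoeff_apply, coeff_zero_PP]
  exact h0

lemma U_W (h0 : coeff 0 (phi f m) ≠ 0) (υ : Fin r → k) : U f m (W f m υ) = υ := by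
  have hφ : constantCoeff (phi f m) ≠ 0 := by rw [constantCoeff_phi]; exact h0
  have hP := constantCoeff_PP_ne h0 υ
  have h1 : ∀ n ≤ r, coeff n (top (W f m υ)) = coeff n (phi f m * (PP f m υ)⁻¹) := by
    intro n hn
    rcases Nat.eq_zero_or_pos n with rfl | hn0
    · rw [coeff_zero_eq_constantCoeff_apply, coeff_zero_eq_constantCoeff_apply, constantCoeff_top, map_mul,
        constantCoeff_inv, ← coeff_zero_eq_constantCoeff_apply (PP f m υ), coeff_zero_PP, constantCoeff_phi,
        mul_inv_cancel₀ h0]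
    · have h2 := coeff_top (W f m υ) ⟨r - n, by omega⟩
      have h3 : r - ((⟨r - n, by omega⟩ : Fin r) : ℕ) = n := by
        show r - (r - n) = n
        omega
      rw [h3] at h2
      rw [h2]
      unfold W
      rw [h3]
  have hT : constantCoeff (top (W f m υ)) ≠ 0 := by rw [constantCoeff_top]; exact one_ne_zero
  have hQ : constantCoeff (phi f m * (PP f m υ)⁻¹) ≠ 0 := by
    rw [map_mul, constantCoeff_inv]
    exact mul_ne_zero hφ (inv_ne_zero hP)
  funext j
  unfold U G
  rw [inv_congr (φ := phi f m) hT hQ h1 _ (by have := j.2; omega), cancel_inv hφ hP, coeff_PP, neg_neg]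

lemma W_U (h0 : coeff 0 (phi f m) ≠ 0) (τ : Fin r → k) : W f m (U f m τ) = τ := by
  have hφ : constantCoeff (phi f m) ≠ 0 := by rw [constantCoeff_phi]; exact h0
  have hT : constantCoeff (top τ) ≠ 0 := by rw [constantCoeff_top]; exact one_ne_zero
  have h1 : ∀ n ≤ r, coeff n (PP f m (U f m τ)) = coeff n (phi f m * (top τ)⁻¹) := by
    intro n hn
    rcases Nat.eq_zero_or_pos n with rfl | hn0
    · rw [coeff_zero_PP, coeff_zero_eq_constantCoeff_apply (phi f m * _), map_mul, constantCoeff_inv,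
        constantCoeff_top, inv_one, mul_one, constantCoeff_phi]
    · have h2 := coeff_PP f m (U f m τ) ⟨n - 1, by omega⟩
      have h3 : ((⟨n - 1, by omega⟩ : Fin r) : ℕ) + 1 = n := by
        show n - 1 + 1 = n
        omega
      rw [h3] at h2
      rw [h2]
      unfold U G
      rw [h3, neg_neg]
  have hQ : constantCoeff (phi f m * (top τ)⁻¹) ≠ 0 := by
    rw [map_mul, constantCoeff_inv]
    exact mul_ne_zero hφ (inv_ne_zero hT)
  funext j
  unfold W
  rw [inv_congr (φ := phi f m) (constantCoeff_PP_ne h0 _) hQ h1 _ (by omega), cancel_inv hφ hT, coeff_top]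

lemma isPolS_top : IsPolS fun τ : Fin r → k => top τ :=
  (IsPolS.const 1).add (IsPolS.sum _ fun j _ => IsPolS.C_mul (IsPol.coord j) (IsPolS.const _))

lemma isPolS_PP : IsPolS fun υ : Fin r → k => PP f m υ :=
  (IsPolS.const _).sub (IsPolS.sum _ fun j _ => IsPolS.C_mul (IsPol.coord j) (IsPolS.const _))

lemma isPol_G (n : ℕ) : IsPol fun τ : Fin r → k => G f m τ n :=
  (IsPolS.const _).mul (isPolS_top.inv fun τ => constantCoeff_top τ) n

lemma isPol_U (j : Fin r) : IsPol fun τ : Fin r → k => U f m τ j := (isPol_G _).neg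

lemma isPol_W (j : Fin r) : IsPol fun υ : Fin r → k => W f m υ j :=
  (IsPolS.const _).mul (isPolS_PP.inv fun υ => by
    rw [← coeff_zero_eq_constantCoeff_apply, coeff_zero_PP]) _

lemma isPol_Sf (d : ℕ) : IsPol fun τ : Fin r → k => Sf f d m (top τ) :=
  (IsPol.const _).sub (IsPol.sum _ fun i _ => (IsPol.const _).mul
    ((isPolS_top.deriv.mul (isPolS_top.inv fun τ => constantCoeff_top τ)) i))

lemma exists_decomp (B : (Fin r → k) → k) (hB : IsPol B) :
    ∃ (κ : k) (β : Fin r → (Fin r → k) → k), (∀ j, IsPol (β j)) ∧ ∀ υ, B υ = κ + ∑ j, υ j * β j υ := by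
  obtain ⟨P, hP⟩ := hB
  simp only [hP]
  clear hP
  induction P using MvPolynomial.induction_on with
  | C a => exact ⟨a, fun _ _ => 0, fun _ => IsPol.const 0, fun υ => by simp⟩
  | add p q hp hq =>
    obtain ⟨κ, β, h1, h2⟩ := hp
    obtain ⟨κ', β', h1', h2'⟩ := hq
    refine ⟨κ + κ', fun j υ => β j υ + β' j υ, fun j => (h1 j).add (h1' j), fun υ => ?_⟩
    rw [map_add, h2, h2']
    simp only [mul_add, Finset.sum_add_distrib]
    ring
  | mul_X p i hp =>
    refine ⟨0, fun j υ => if j = i then MvPolynomial.eval υ p else 0, fun j => ?_, fun υ => ?_⟩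
    · by_cases h : j = i
      · simp only [h, if_true]
        exact ⟨p, fun _ => rfl⟩
      · simp only [h, if_false]
        exact IsPol.const 0
    · rw [map_mul, MvPolynomial.eval_X]
      simp
      ring

lemma U_eq_zero_iff (h0 : coeff 0 (phi f m) ≠ 0) (τ : Fin r → k) :
    (∀ j, U f m τ j = 0) ↔ ∀ j : Fin r, coeff 0 (phi f m) * τ j = coeff (r - (j : ℕ)) (phi f m) := by
  have hφ : constantCoeff (phi f m) ≠ 0 := by rw [constantCoeff_phi]; exact h0
  have hPz : PP f m (fun _ : Fin r => (0 : k)) = C (coeff 0 (phi f m)) := by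
    unfold PP
    simp
  have hW : ∀ j : Fin r, W f m (fun _ : Fin r => (0 : k)) j =
      (coeff 0 (phi f m))⁻¹ * coeff (r - (j : ℕ)) (phi f m) := by
    intro j
    unfold W
    rw [hPz]
    have e1 : (C (coeff 0 (phi f m)) : k⟦X⟧)⁻¹ = C (coeff 0 (phi f m))⁻¹ := by
      symm
      rw [PowerSeries.eq_inv_iff_mul_eq_one (by simpa using h0), ← map_mul, inv_mul_cancel₀ h0, map_one]
    rw [e1, mul_comm, coeff_C_mul]
  constructor
  · intro h j
    have h1 : τ = W f m (fun _ => 0) := by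
      rw [← W_U h0 τ]
      congr 1
      funext j
      exact h j
    rw [h1, hW, mul_inv_cancel_left₀ h0]
  · intro h j
    have h1 : τ = W f m (fun _ => 0) := by
      funext j
      rw [hW, ← h j, inv_mul_cancel_left₀ h0]
    rw [h1, U_W h0]

end

/-- The automorphism. -/
theorem exists_equiv [IsAlgClosed k] (hε : ε ≤ 1) {f : Polynomial k} (hf : f.natDegree = r + ε + r + 1)
    (hm : ((r + ε + r + 1 : ℕ) : k) ≠ 0) :
    ∃ (κ : k) (Φ : (Fin (r + ε + r) → k) → Fin r ⊕ Fin r ⊕ Fin ε → k), IsPolyEquiv Φ ∧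
      (∀ t : Fin (r + ε + r) → k, ∑ j, f.eval (t j) = κ + quad (Φ (NT.cf t))) ∧
      ∀ a, (∀ j, Φ a (Sum.inl j) = 0) ↔
        ∀ i : Fin (r + ε + r), r + ε ≤ (i : ℕ) →
          ((r + ε + r + 1 : ℕ) : k) * f.leadingCoeff * a i = f.derivative.coeff i := by
  classical
  set m := r + ε + r + 1 with hmdef
  have hlc : f.coeff m ≠ 0 := by
    rw [← hf]
    intro h0
    have : f = 0 := Polynomial.leadingCoeff_eq_zero.mp h0
    rw [this, Polynomial.natDegree_zero] at hf
    omega
  have h0 : coeff 0 (phi f m) ≠ 0 := by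
    rw [coeff_zero_phi]
    exact mul_ne_zero hm hlc
  set lam : k := f.coeff m * ((r : k) + 1) with hlam
  obtain ⟨s, hs⟩ := IsAlgClosed.exists_pow_nat_eq lam (n := 2) (by norm_num)
  have hne : ∀ _ : Fin ε, (2 : k) ≠ 0 ∧ lam ≠ 0 ∧ s ≠ 0 := by
    intro i
    have hε1 : ε = 1 := by have := i.2; omega
    have h2 : ((r + ε + r + 1 : ℕ) : k) = 2 * ((r : k) + 1) := by
      rw [hε1]; push_cast; ring
    rw [hmdef] at hm
    rw [h2] at hm
    have h3 := left_ne_zero_of_mul hm
    have h4 := right_ne_zero_of_mul hm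
    have h5 : lam ≠ 0 := mul_ne_zero hlc h4
    refine ⟨h3, h5, ?_⟩
    rintro rfl
    exact h5 (by rw [← hs]; ring)
  -- the function of the highest coefficients
  have hB : IsPol fun υ : Fin r → k => Sf f (r + ε + r) m (top (W f m υ)) -
      ∑ _i : Fin ε, G f m (W f m υ) (r + 1) ^ 2 * (4 * lam)⁻¹ :=
    ((isPol_Sf (r + ε + r)).comp isPol_W).sub (IsPol.sum _ fun _ _ =>
      (((isPol_G (r + 1)).comp isPol_W).pow 2).mul (IsPol.const _))
  obtain ⟨κ, β, hβ, hBβ⟩ := exists_decomp _ hB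
  set Φ : (Fin (r + ε + r) → k) → Fin r ⊕ Fin r ⊕ Fin ε → k := fun a x =>
    match x with
    | Sum.inl j => U f m (hi a) j
    | Sum.inr (Sum.inl j) => lo a j + β j (U f m (hi a))
    | Sum.inr (Sum.inr i) => s * (mi a i - G f m (hi a) (r + 1) * (2 * lam)⁻¹) with hΦ
  set Ψ : (Fin r ⊕ Fin r ⊕ Fin ε → k) → Fin (r + ε + r) → k := fun y =>
    Fin.append (Fin.append (fun j => y (Sum.inr (Sum.inl j)) - β j fun j => y (Sum.inl j))
      (fun i => y (Sum.inr (Sum.inr i)) * s⁻¹ + G f m (W f m fun j => y (Sum.inl j)) (r + 1) * (2 * lam)⁻¹))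
      (W f m fun j => y (Sum.inl j)) with hΨ
  have hhi : ∀ a : Fin (r + ε + r) → k, ∀ j : Fin r, hi (r := r) (ε := ε) a j = a (Fin.natAdd (r + ε) j) :=
    fun _ _ => rfl
  have pol_hi : ∀ j : Fin r, IsPol fun a : Fin (r + ε + r) → k => hi (r := r) (ε := ε) a j := fun j =>
    IsPol.coord _
  have pol_lo : ∀ j : Fin r, IsPol fun a : Fin (r + ε + r) → k => lo (r := r) (ε := ε) a j := fun j =>
    IsPol.coord _
  have pol_mi : ∀ i : Fin ε, IsPol fun a : Fin (r + ε + r) → k => mi (r := r) (ε := ε) a i := fun i =>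
    IsPol.coord _
  refine ⟨κ, Φ, ⟨?_, Ψ, ?_, ?_, ?_⟩, ?_, ?_⟩
  · -- Φ is polynomial
    rintro (j | j | i)
    · exact (isPol_U j).comp pol_hi
    · exact (pol_lo j).add ((hβ j).comp fun j' => (isPol_U j').comp pol_hi)
    · exact (IsPol.const s).mul ((pol_mi i).sub (((isPol_G (r + 1)).comp pol_hi).mul (IsPol.const _)))
  · -- Ψ is polynomial
    intro x
    have pu : ∀ j : Fin r, IsPol fun y : (Fin r ⊕ Fin r ⊕ Fin ε → k) => y (Sum.inl j) := fun j =>
      IsPol.coord _
    have pW : ∀ j : Fin r, IsPol fun y : (Fin r ⊕ Fin r ⊕ Fin ε → k) =>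
        W f m (fun j => y (Sum.inl j)) j := fun j => (isPol_W j).comp pu
    induction x using Fin.addCases with
    | left x =>
      induction x using Fin.addCases with
      | left j =>
        simp only [hΨ, Fin.append_left]
        exact (IsPol.coord _).sub ((hβ j).comp pu)
      | right i =>
        simp only [hΨ, Fin.append_left, Fin.append_right]
        exact ((IsPol.coord _).mul (IsPol.const _)).add
          (((isPol_G (r + 1)).comp pW).mul (IsPol.const _))
    | right j =>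
      simp only [hΨ, Fin.append_right]
      exact pW j
  · -- Ψ (Φ a) = a
    intro a
    have hU : (fun j => Φ a (Sum.inl j)) = U f m (hi a) := rfl
    funext x
    induction x using Fin.addCases with
    | left x =>
      induction x using Fin.addCases with
      | left j =>
        simp only [hΨ, Fin.append_left]
        rw [hU]
        show lo a j + β j (U f m (hi a)) - β j (U f m (hi a)) = _
        rw [add_sub_cancel_right]
        rfl
      | right i =>
        simp only [hΨ, Fin.append_left, Fin.append_right]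
        rw [hU, W_U h0]
        show s * (mi a i - G f m (hi a) (r + 1) * (2 * lam)⁻¹) * s⁻¹ + G f m (hi a) (r + 1) * (2 * lam)⁻¹ = _
        have hsne := (hne i).2.2
        have e1 : s * (mi a i - G f m (hi a) (r + 1) * (2 * lam)⁻¹) * s⁻¹ =
            mi a i - G f m (hi a) (r + 1) * (2 * lam)⁻¹ := by
          field_simp
        rw [e1, sub_add_cancel]
        rfl
    | right j =>
      simp only [hΨ, Fin.append_right]
      rw [hU, W_U h0]
      rfl
  · -- Φ (Ψ y) = y
    intro y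
    have h1 : hi (r := r) (ε := ε) (Ψ y) = W f m fun j => y (Sum.inl j) := by
      funext j
      simp only [hi, hΨ, Fin.append_right]
    have h2 : U f m (hi (r := r) (ε := ε) (Ψ y)) = fun j => y (Sum.inl j) := by rw [h1, U_W h0]
    funext x
    rcases x with j | j | i
    · show U f m (hi (Ψ y)) j = _
      rw [h2]
    · show lo (Ψ y) j + β j (U f m (hi (Ψ y))) = _
      rw [h2]
      simp only [lo, hΨ, Fin.append_left]
      ring
    · show s * (mi (Ψ y) i - G f m (hi (Ψ y)) (r + 1) * (2 * lam)⁻¹) = _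
      rw [h1]
      simp only [mi, hΨ, Fin.append_left, Fin.append_right]
      have hsne := (hne i).2.2
      field_simp
      ring
  · -- the formula
    intro t
    rw [← Sf_prod f hf.le, ← rev_cf, Sf_split hε]
    set a := NT.cf t with ha
    have h1 := hBβ (U f m (hi a))
    rw [W_U h0] at h1
    have h2 : Sf f (r + ε + r) m (top (hi a)) = κ + ∑ j, U f m (hi a) j * β j (U f m (hi a)) +
        ∑ _i : Fin ε, G f m (hi a) (r + 1) ^ 2 * (4 * lam)⁻¹ := by
      rw [← h1]; ring
    rw [h2]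
    unfold quad
    have h3 : ∑ j, Φ a (Sum.inl j) * Φ a (Sum.inr (Sum.inl j)) =
        -∑ j : Fin r, lo a j * G f m (hi a) ((j : ℕ) + 1) + ∑ j, U f m (hi a) j * β j (U f m (hi a)) := by
      rw [← Finset.sum_neg_distrib, ← Finset.sum_add_distrib]
      refine Finset.sum_congr rfl fun j _ => ?_
      show U f m (hi a) j * (lo a j + β j (U f m (hi a))) = _
      have : U f m (hi a) j = -G f m (hi a) ((j : ℕ) + 1) := rfl
      rw [mul_add]
      congr 1
      rw [this]
      ring
    have h4 : ∑ i, Φ a (Sum.inr (Sum.inr i)) ^ 2 = lam * ∑ i : Fin ε, mi a i ^ 2 -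
        ∑ i : Fin ε, mi a i * G f m (hi a) (r + 1) + ∑ _i : Fin ε, G f m (hi a) (r + 1) ^ 2 * (4 * lam)⁻¹ := by
      rw [Finset.mul_sum, ← Finset.sum_sub_distrib, ← Finset.sum_add_distrib]
      refine Finset.sum_congr rfl fun i _ => ?_
      show (s * (mi a i - G f m (hi a) (r + 1) * (2 * lam)⁻¹)) ^ 2 = _
      obtain ⟨hn2, hnl, -⟩ := hne i
      have h44 : (4 : k) ≠ 0 := by
        have : (4 : k) = 2 * 2 := by norm_num
        rw [this]; exact mul_ne_zero hn2 hn2
      rw [mul_pow, hs]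
      field_simp
      ring
    rw [h3, h4, hlam]
    ring
  · -- the zero set of the u
    intro a
    have h1 := U_eq_zero_iff h0 (hi (r := r) (ε := ε) a)
    have h2 : (∀ j, Φ a (Sum.inl j) = 0) ↔ ∀ j, U f m (hi (r := r) (ε := ε) a) j = 0 := Iff.rfl
    rw [h2, h1]
    have hcoef : ∀ j : Fin r, coeff (r - (j : ℕ)) (phi f m) = f.derivative.coeff (r + ε + j) := by
      intro j
      unfold phi
      rw [coeff_mk, Polynomial.coeff_derivative, show m - (r - (j : ℕ)) = r + ε + j + 1 by omega]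
      push_cast
      ring
    have hlead : f.leadingCoeff = f.coeff m := by
      unfold Polynomial.leadingCoeff
      rw [hf]
    constructor
    · intro h i hi'
      have h3 := h ⟨(i : ℕ) - (r + ε), by omega⟩
      rw [hcoef, coeff_zero_phi] at h3
      have h4 : Fin.natAdd (r + ε) (⟨(i : ℕ) - (r + ε), by omega⟩ : Fin r) = i := by
        apply Fin.ext
        simp only [Fin.val_natAdd]
        omega
      have h5 : r + ε + ((⟨(i : ℕ) - (r + ε), by omega⟩ : Fin r) : ℕ) = i := by
        show r + ε + ((i : ℕ) - (r + ε)) = i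
        omega
      rw [h5] at h3
      unfold hi at h3
      rw [h4] at h3
      rw [hlead]
      exact h3
    · intro h j
      have h3 := h (Fin.natAdd (r + ε) j) (by simp)
      rw [hcoef, coeff_zero_phi]
      rw [hlead] at h3
      simpa only [hi, Fin.val_natAdd] using h3

end Pool.Agent.U436.AS
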