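import Pool.Agent.U436.AS.Auto

/-!
# Artin-Schreier curves `A (y) = f (x)` and quadrics `A (z) = Q`
-/

set_option autoImplicit false

namespace Pool.Agent.U436.AS

open Finset

variable {k : Type*} [Field k] {r ε : ℕ}

/-- The curve `A (y) = f (x)`. -/
def curve (A f : Polynomial k) : Set (k × k) := {u | A.eval u.2 = f.eval u.1}

/-- The variety `A (z) = ∑ u j v j + ∑ e i ^ 2`. -/
def quadric (A : Polynomial k) (r ε : ℕ) : Set ((Fin r ⊕ Fin r ⊕ Fin ε → k) × k) :=
  {w | A.eval w.2 = quad w.1}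

/-- The map `(x j, y j) ↦ (Φ (coefficients of ∏ (X - x j)), ∑ y j - c)`. -/
noncomputable def sumMap (Φ : (Fin (r + ε + r) → k) → Fin r ⊕ Fin r ⊕ Fin ε → k) (c : k)
    (u : Fin (r + ε + r) → k × k) : (Fin r ⊕ Fin r ⊕ Fin ε → k) × k :=
  (Φ (NT.cf fun j => (u j).1), ∑ j, (u j).2 - c)

/-- The polynomial `A` defines an additive function. -/
def IsAdditive (A : Polynomial k) : Prop := ∀ x y : k, A.eval (x + y) = A.eval x + A.eval y

lemma IsAdditive.map_zero {A : Polynomial k} (hA : IsAdditive A) : A.eval 0 = 0 := by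
  have h := hA 0 0
  rw [add_zero] at h
  exact left_eq_add.mp h

lemma IsAdditive.map_neg {A : Polynomial k} (hA : IsAdditive A) (x : k) : A.eval (-x) = -A.eval x := by
  have h := hA x (-x)
  rw [add_neg_cancel, hA.map_zero] at h
  exact (neg_eq_of_add_eq_zero_right h.symm).symm

lemma IsAdditive.map_sub {A : Polynomial k} (hA : IsAdditive A) (x y : k) :
    A.eval (x - y) = A.eval x - A.eval y := by
  rw [sub_eq_add_neg, hA, hA.map_neg, sub_eq_add_neg]

lemma IsAdditive.map_sum {A : Polynomial k} (hA : IsAdditive A) {ι : Type*} (s : Finset ι) (x : ι → k) :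
    A.eval (∑ i ∈ s, x i) = ∑ i ∈ s, A.eval (x i) := by
  classical
  induction s using Finset.induction_on with
  | empty => simpa using hA.map_zero
  | insert a s ha ih => rw [Finset.sum_insert ha, Finset.sum_insert ha, hA, ih]

lemma IsAdditive.surj [IsAlgClosed k] {A : Polynomial k} (hA : IsAdditive A) (h0 : A ≠ 0) (c : k) :
    ∃ w : k, A.eval w = c := by
  have h1 : A.natDegree ≠ 0 := by
    intro h
    rw [Polynomial.eq_C_of_natDegree_eq_zero h] at h0 hA
    have h2 := hA.map_zero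
    rw [Polynomial.eval_C] at h2
    rw [h2, Polynomial.C_0] at h0
    exact h0 rfl
  have h2 : (A - Polynomial.C c).degree ≠ 0 := by
    intro h
    have h3 := Polynomial.natDegree_eq_of_degree_eq_some h
    rw [Polynomial.natDegree_sub_C] at h3
    exact h1 h3
  obtain ⟨w, hw⟩ := IsAlgClosed.exists_root _ h2
  refine ⟨w, ?_⟩
  rw [Polynomial.IsRoot, Polynomial.eval_sub, Polynomial.eval_C, sub_eq_zero] at hw
  exact hw

section

variable {A f : Polynomial k} {Φ : (Fin (r + ε + r) → k) → Fin r ⊕ Fin r ⊕ Fin ε → k} {κ c : k}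

theorem sumMap_mem (hA : IsAdditive A) (hc : A.eval c = κ)
    (hΦ : ∀ t : Fin (r + ε + r) → k, ∑ j, f.eval (t j) = κ + quad (Φ (NT.cf t)))
    {u : Fin (r + ε + r) → k × k} (hu : ∀ j, u j ∈ curve A f) : sumMap Φ c u ∈ quadric A r ε := by
  show A.eval (∑ j, (u j).2 - c) = quad (Φ (NT.cf fun j => (u j).1))
  rw [hA.map_sub, hA.map_sum, hc, Finset.sum_congr rfl fun j _ => hu j, hΦ]
  ring

theorem sumMap_surj [IsAlgClosed k] (hA : IsAdditive A) (h0 : A ≠ 0) (hd : 1 ≤ r + ε) (hc : A.eval c = κ)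
    (hΦ : ∀ t : Fin (r + ε + r) → k, ∑ j, f.eval (t j) = κ + quad (Φ (NT.cf t)))
    (hΦs : ∀ y, ∃ a, Φ a = y) {w : (Fin r ⊕ Fin r ⊕ Fin ε → k) × k} (hw : w ∈ quadric A r ε) :
    ∃ u : Fin (r + ε + r) → k × k, (∀ j, u j ∈ curve A f) ∧ sumMap Φ c u = w := by
  classical
  obtain ⟨x, z⟩ := w
  obtain ⟨a, rfl⟩ := hΦs x
  obtain ⟨t, rfl⟩ := NT.exists_cf a
  choose y hy using fun j : Fin (r + ε + r) => hA.surj h0 (f.eval (t j))
  have hδ : A.eval (z + c - ∑ j, y j) = 0 := by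
    rw [hA.map_sub, hA, hA.map_sum, Finset.sum_congr rfl fun j _ => hy j, hΦ, hc]
    have : A.eval z = quad (Φ (NT.cf t)) := hw
    rw [this]
    ring
  let j0 : Fin (r + ε + r) := ⟨0, by omega⟩
  refine ⟨fun j => (t j, y j + if j = j0 then (z + c - ∑ j, y j) else 0), fun j => ?_, ?_⟩
  · show A.eval (y j + if j = j0 then (z + c - ∑ j, y j) else 0) = f.eval (t j)
    rw [hA, hy]
    split_ifs
    · rw [hδ, add_zero]
    · rw [hA.map_zero, add_zero]
  · refine Prod.ext rfl ?_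
    show ∑ j, (y j + if j = j0 then (z + c - ∑ j, y j) else 0) - c = z
    rw [Finset.sum_add_distrib, Finset.sum_ite_eq' univ j0, if_pos (mem_univ _)]
    ring

theorem sumMap_eq_iff (hA : IsAdditive A) (hΦi : Function.Injective Φ)
    {u u' : Fin (r + ε + r) → k × k} (hu : ∀ j, u j ∈ curve A f) (hu' : ∀ j, u' j ∈ curve A f) :
    sumMap Φ c u = sumMap Φ c u' ↔
      ∃ (σ : Equiv.Perm (Fin (r + ε + r))) (α : Fin (r + ε + r) → k), (∀ j, A.eval (α j) = 0) ∧
        ∑ j, α j = 0 ∧ ∀ j, u' j = ((u (σ j)).1, (u (σ j)).2 + α j) := by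
  constructor
  · intro h
    have h1 : NT.cf (fun j => (u j).1) = NT.cf (fun j => (u' j).1) := hΦi (congrArg Prod.fst h)
    have h2 : ∑ j, (u j).2 = ∑ j, (u' j).2 := sub_left_inj.mp (congrArg Prod.snd h)
    obtain ⟨σ, hσ⟩ := NT.cf_eq_iff.mp h1
    refine ⟨σ, fun j => (u' j).2 - (u (σ j)).2, fun j => ?_, ?_, fun j => Prod.ext (hσ j) ?_⟩
    · have e1 : A.eval (u' j).2 = f.eval (u' j).1 := hu' j
      have e2 : A.eval (u (σ j)).2 = f.eval (u (σ j)).1 := hu (σ j)
      rw [hA.map_sub, e1, e2, hσ, sub_self]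
    · rw [Finset.sum_sub_distrib, Equiv.sum_comp σ (fun j => (u j).2), h2, sub_self]
    · show (u' j).2 = (u (σ j)).2 + ((u' j).2 - (u (σ j)).2)
      ring
  · rintro ⟨σ, α, _, hα0, h⟩
    refine Prod.ext ?_ ?_
    · show Φ _ = Φ _
      congr 1
      exact NT.cf_eq_iff.mpr ⟨σ, fun j => by rw [h j]⟩
    · show ∑ j, (u j).2 - c = ∑ j, (u' j).2 - c
      have e1 : ∀ j ∈ univ, (u' j).2 = (u (σ j)).2 + α j := fun j _ => by rw [h j]
      rw [Finset.sum_congr rfl e1, Finset.sum_add_distrib, hα0, add_zero,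
        Equiv.sum_comp σ (fun j => (u j).2)]

end

end Pool.Agent.U436.AS
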