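import Pool.Agent.U436.AS.Gen

/-!
# The general theorem for the coverings `A (y) = F (x)`, `w ^ n = ∏ (x - P i) ^ a i` of the line
-/

set_option autoImplicit false

namespace Pool.Agent.U436.AS

open Finset

variable {k : Type*} [Field k] {N M : ℕ} {r0 ε0 : ℕ} {r ε : Fin N → ℕ}

/-- The curve `A (y) = f0 (x) + ∑ f i (1 / (x - P i))`, `w ^ n = ∏ (x - P i) ^ a i`, without the points with
`x = P i`. -/
def gcurve (A : Polynomial k) (n : ℕ) (f0 : Polynomial k) (f : Fin N → Polynomial k) (P : Fin N ⊕ Fin M → k)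
    (a : Fin N ⊕ Fin M → ℕ) : Set (k × k × k) :=
  {u | (∀ i, u.1 ≠ P i) ∧
    A.eval u.2.1 = f0.eval u.1 + ∑ i, (f i).eval ((u.1 - P (Sum.inl i))⁻¹) ∧
    u.2.2 ^ n = ∏ i, (u.1 - P i) ^ a i}

/-- The variety `A (z) = Q + ∑ (Q i + t i (1 - u i)) + ∑ u j`, `w ^ n = ∏ u i ^ a i`, `u i ≠ 0`. -/
def gtarget (A : Polynomial k) (n : ℕ) (r0 ε0 : ℕ) (r ε : Fin N → ℕ) (a : Fin N ⊕ Fin M → ℕ) :
    Set ((TT r0 ε0 r ε M → k) × k × k) :=
  {x | (∀ i, cu i x.1 ≠ 0) ∧ A.eval x.2.1 = gform x.1 ∧ x.2.2 ^ n = ∏ i, cu i x.1 ^ a i}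

/-- The map `(x l, y l, w l) ↦ (Φ (coefficients of ∏ (X - x l)), ∑ y l - c, λ ∏ w l)`. -/
noncomputable def gmap {d : ℕ} (Φ : (Fin d → k) → TT r0 ε0 r ε M → k) (c lam : k)
    (u : Fin d → k × k × k) : (TT r0 ε0 r ε M → k) × k × k :=
  (Φ (NT.cf fun l => (u l).1), ∑ l, (u l).2.1 - c, lam * ∏ l, (u l).2.2)

/-- `Φ` is a normal form for the data. -/
def IsNormal {d : ℕ} (f0 : Polynomial k) (f : Fin N → Polynomial k) (P : Fin N ⊕ Fin M → k) (κ : k)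
    (lamA : Fin N ⊕ Fin M → k) (Φ : (Fin d → k) → TT r0 ε0 r ε M → k) : Prop :=
  (∀ i, lamA i ≠ 0) ∧ IsRegEquiv (dval P) cu Φ ∧ (∀ a i, cu i (Φ a) = lamA i * dval P i a) ∧
    ∀ t : Fin d → k, (∀ l i, t l ≠ P i) →
      ∑ l, (f0.eval (t l) + ∑ i, (f i).eval ((t l - P (Sum.inl i))⁻¹)) = κ + gform (Φ (NT.cf t))

section

variable {d : ℕ} {A : Polynomial k} {n : ℕ} {f0 : Polynomial k} {f : Fin N → Polynomial k}
  {P : Fin N ⊕ Fin M → k} {a : Fin N ⊕ Fin M → ℕ} {κ c lam : k} {lamA : Fin N ⊕ Fin M → k}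
  {Φ : (Fin d → k) → TT r0 ε0 r ε M → k}

lemma prod_units (hN : IsNormal f0 f P κ lamA Φ) (t : Fin d → k) :
    ∏ l, ∏ i, (t l - P i) ^ a i =
      (∏ i, ((-1) ^ d * (lamA i)⁻¹) ^ a i) * ∏ i, cu i (Φ (NT.cf t)) ^ a i := by
  rw [Finset.prod_comm, ← Finset.prod_mul_distrib]
  refine Finset.prod_congr rfl fun i _ => ?_
  rw [Finset.prod_pow, ← mul_pow]
  congr 1
  rw [hN.2.2.1, dval, eval_mpoly_cf]
  have h1 : ∏ l, (t l - P i) = (-1) ^ d * ∏ l, (P i - t l) := by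
    have h2 : ∀ l ∈ (univ : Finset (Fin d)), t l - P i = (-1) * (P i - t l) := fun l _ => by ring
    rw [Finset.prod_congr rfl h2, Finset.prod_mul_distrib, Finset.prod_const, Finset.card_univ,
      Fintype.card_fin]
  rw [h1]
  have h3 := mul_inv_cancel₀ (hN.1 i)
  linear_combination -((-1 : k) ^ d * ∏ l, (P i - t l)) * h3

/-- The constant `λ`. -/
lemma exists_lam [IsAlgClosed k] (hn : n ≠ 0) (hN : IsNormal f0 f P κ lamA Φ) :
    ∃ lam : k, lam ≠ 0 ∧ lam ^ n * ∏ i, ((-1) ^ d * (lamA i)⁻¹) ^ a i = 1 := by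
  have h0 : ∏ i, ((-1 : k) ^ d * (lamA i)⁻¹) ^ a i ≠ 0 :=
    Finset.prod_ne_zero_iff.mpr fun i _ => pow_ne_zero _ (mul_ne_zero (pow_ne_zero _ (by simp))
      (inv_ne_zero (hN.1 i)))
  obtain ⟨lam, hlam⟩ := IsAlgClosed.exists_pow_nat_eq (∏ i, ((-1 : k) ^ d * (lamA i)⁻¹) ^ a i)⁻¹
    (Nat.pos_of_ne_zero hn)
  refine ⟨lam, ?_, by rw [hlam, inv_mul_cancel₀ h0]⟩
  rintro rfl
  rw [zero_pow hn] at hlam
  exact inv_ne_zero h0 hlam.symm

theorem gmap_mem (hA : IsAdditive A) (hN : IsNormal f0 f P κ lamA Φ) (hc : A.eval c = κ)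
    (hlam : lam ^ n * ∏ i, ((-1) ^ d * (lamA i)⁻¹) ^ a i = 1)
    {u : Fin d → k × k × k} (hu : ∀ l, u l ∈ gcurve A n f0 f P a) :
    gmap Φ c lam u ∈ gtarget A n r0 ε0 r ε a := by
  refine ⟨fun i => ?_, ?_, ?_⟩
  · show cu i (Φ _) ≠ 0
    rw [hN.2.2.1]
    refine mul_ne_zero (hN.1 i) ?_
    rw [dval, eval_mpoly_cf]
    exact Finset.prod_ne_zero_iff.mpr fun l _ => sub_ne_zero.mpr ((hu l).1 i).symm
  · show A.eval (∑ l, (u l).2.1 - c) = gform (Φ (NT.cf fun l => (u l).1))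
    rw [hA.map_sub, hA.map_sum, hc, Finset.sum_congr rfl fun l _ => (hu l).2.1,
      hN.2.2.2 (fun l => (u l).1) fun l i => (hu l).1 i]
    ring
  · show (lam * ∏ l, (u l).2.2) ^ n = ∏ i, cu i (Φ (NT.cf fun l => (u l).1)) ^ a i
    rw [mul_pow, ← Finset.prod_pow, Finset.prod_congr rfl fun l _ => (hu l).2.2,
      prod_units hN (fun l => (u l).1), ← mul_assoc, hlam, one_mul]

theorem gmap_surj [IsAlgClosed k] (hA : IsAdditive A) (hA0 : A ≠ 0) (hn : n ≠ 0) (hd : 1 ≤ d)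
    (hN : IsNormal f0 f P κ lamA Φ) (hc : A.eval c = κ) (hlam0 : lam ≠ 0)
    (hlam : lam ^ n * ∏ i, ((-1) ^ d * (lamA i)⁻¹) ^ a i = 1)
    {x : (TT r0 ε0 r ε M → k) × k × k} (hx : x ∈ gtarget A n r0 ε0 r ε a) :
    ∃ u : Fin d → k × k × k, (∀ l, u l ∈ gcurve A n f0 f P a) ∧ gmap Φ c lam u = x := by
  classical
  obtain ⟨y, z, w⟩ := x
  obtain ⟨hy, hz, hw⟩ := hx
  simp only at hy hz hw
  obtain ⟨-, hD, Ψ, -, hD', -, hΨ'⟩ := hN.2.1
  obtain ⟨t, ht⟩ := NT.exists_cf (Ψ y)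
  have hyt : Φ (NT.cf t) = y := by rw [ht, hΨ' y hy]
  have hval : ∀ i, ∏ l, (P i - t l) ≠ 0 := by
    intro i
    rw [← eval_mpoly_cf, ht]
    exact hD' y hy i
  have htP : ∀ l i, t l ≠ P i := by
    intro l i h
    exact hval i (Finset.prod_eq_zero (mem_univ l) (by rw [h, sub_self]))
  choose y' hy' using fun l : Fin d => hA.surj hA0 (f0.eval (t l) + ∑ i, (f i).eval ((t l - P (Sum.inl i))⁻¹))
  choose w' hw' using fun l : Fin d => IsAlgClosed.exists_pow_nat_eq (∏ i, (t l - P i) ^ a i)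
    (Nat.pos_of_ne_zero hn)
  have hδ : A.eval (z + c - ∑ l, y' l) = 0 := by
    rw [hA.map_sub, hA, hA.map_sum, Finset.sum_congr rfl fun l _ => hy' l, hN.2.2.2 t htP, hc, hyt, hz]
    ring
  have hw0 : ∀ l, w' l ≠ 0 := by
    intro l h0
    have h1 := hw' l
    rw [h0, zero_pow hn] at h1
    exact Finset.prod_ne_zero_iff.mpr (fun i _ => pow_ne_zero _ (sub_ne_zero.mpr (htP l i))) h1.symm
  have hprod0 : lam * ∏ l, w' l ≠ 0 := mul_ne_zero hlam0 (Finset.prod_ne_zero_iff.mpr fun l _ => hw0 l)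
  have hζ : (w / (lam * ∏ l, w' l)) ^ n = 1 := by
    rw [div_pow, hw, mul_pow, ← Finset.prod_pow, Finset.prod_congr rfl fun l _ => hw' l, prod_units hN t,
      ← mul_assoc, hlam, one_mul, hyt, div_self]
    exact Finset.prod_ne_zero_iff.mpr fun i _ => pow_ne_zero _ (hy i)
  let l0 : Fin d := ⟨0, hd⟩
  refine ⟨fun l => (t l, y' l + (if l = l0 then (z + c - ∑ l, y' l) else 0),
    (if l = l0 then w / (lam * ∏ l, w' l) else 1) * w' l), fun l => ⟨htP l, ?_, ?_⟩, ?_⟩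
  · show A.eval (y' l + if l = l0 then (z + c - ∑ l, y' l) else 0) = _
    rw [hA, hy']
    split_ifs
    · rw [hδ, add_zero]
    · rw [hA.map_zero, add_zero]
  · show ((if l = l0 then w / (lam * ∏ l, w' l) else 1) * w' l) ^ n = _
    rw [mul_pow, hw']
    split_ifs
    · rw [hζ, one_mul]
    · rw [one_pow, one_mul]
  · refine Prod.ext hyt (Prod.ext ?_ ?_)
    · show ∑ l, (y' l + if l = l0 then (z + c - ∑ l, y' l) else 0) - c = z
      rw [Finset.sum_add_distrib, Finset.sum_ite_eq' univ l0, if_pos (mem_univ _)]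
      ring
    · show lam * ∏ l, ((if l = l0 then w / (lam * ∏ l, w' l) else 1) * w' l) = w
      rw [Finset.prod_mul_distrib, Finset.prod_ite_eq' univ l0, if_pos (mem_univ _)]
      rw [mul_left_comm, div_mul_cancel₀ _ hprod0]

theorem gmap_eq_iff (hA : IsAdditive A) (hn : n ≠ 0) (hN : IsNormal f0 f P κ lamA Φ) (hlam0 : lam ≠ 0)
    {u u' : Fin d → k × k × k} (hu : ∀ l, u l ∈ gcurve A n f0 f P a)
    (hu' : ∀ l, u' l ∈ gcurve A n f0 f P a) :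
    gmap Φ c lam u = gmap Φ c lam u' ↔
      ∃ (σ : Equiv.Perm (Fin d)) (α β : Fin d → k), (∀ l, A.eval (α l) = 0) ∧ ∑ l, α l = 0 ∧
        (∀ l, β l ^ n = 1) ∧ ∏ l, β l = 1 ∧
          ∀ l, u' l = ((u (σ l)).1, (u (σ l)).2.1 + α l, β l * (u (σ l)).2.2) := by
  have hne : ∀ {v : Fin d → k × k × k}, (∀ l, v l ∈ gcurve A n f0 f P a) → ∀ l, (v l).2.2 ≠ 0 := by
    intro v hv l h0
    have h1 := (hv l).2.2
    rw [h0, zero_pow hn] at h1
    exact Finset.prod_ne_zero_iff.mpr (fun i _ => pow_ne_zero _ (sub_ne_zero.mpr ((hv l).1 i))) h1.symm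
  have hval : ∀ {v : Fin d → k × k × k}, (∀ l, v l ∈ gcurve A n f0 f P a) →
      ∀ i, dval P i (NT.cf fun l => (v l).1) ≠ 0 := by
    intro v hv i
    rw [dval, eval_mpoly_cf]
    exact Finset.prod_ne_zero_iff.mpr fun l _ => sub_ne_zero.mpr ((hv l).1 i).symm
  constructor
  · intro h
    obtain ⟨-, -, Ψ, -, -, hΨ, -⟩ := hN.2.1
    have h0 : Φ (NT.cf fun l => (u l).1) = Φ (NT.cf fun l => (u' l).1) := congrArg Prod.fst h
    have h1 : NT.cf (fun l => (u l).1) = NT.cf (fun l => (u' l).1) := by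
      rw [← hΨ _ (hval hu), ← hΨ _ (hval hu'), h0]
    have h2 : ∑ l, (u l).2.1 = ∑ l, (u' l).2.1 := sub_left_inj.mp (congrArg (fun x => x.2.1) h)
    have h3 : ∏ l, (u l).2.2 = ∏ l, (u' l).2.2 :=
      mul_left_cancel₀ hlam0 (congrArg (fun x => x.2.2) h)
    obtain ⟨σ, hσ⟩ := NT.cf_eq_iff.mp h1
    refine ⟨σ, fun l => (u' l).2.1 - (u (σ l)).2.1, fun l => (u' l).2.2 / (u (σ l)).2.2, fun l => ?_, ?_,
      fun l => ?_, ?_, fun l => Prod.ext (hσ l) (Prod.ext ?_ ?_)⟩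
    · rw [hA.map_sub, (hu' l).2.1, (hu (σ l)).2.1, hσ, sub_self]
    · rw [Finset.sum_sub_distrib, Equiv.sum_comp σ (fun l => (u l).2.1), h2, sub_self]
    · rw [div_pow, (hu' l).2.2, (hu (σ l)).2.2, hσ, div_self]
      exact Finset.prod_ne_zero_iff.mpr fun i _ => pow_ne_zero _ (sub_ne_zero.mpr ((hu (σ l)).1 i))
    · rw [Finset.prod_div_distrib, Equiv.prod_comp σ (fun l => (u l).2.2), h3, div_self]
      exact Finset.prod_ne_zero_iff.mpr fun l _ => hne hu' l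
    · show (u' l).2.1 = (u (σ l)).2.1 + ((u' l).2.1 - (u (σ l)).2.1)
      ring
    · show (u' l).2.2 = (u' l).2.2 / (u (σ l)).2.2 * (u (σ l)).2.2
      rw [div_mul_cancel₀ _ (hne hu _)]
  · rintro ⟨σ, α, β, _, hα0, _, hβ1, h⟩
    refine Prod.ext ?_ (Prod.ext ?_ ?_)
    · show Φ _ = Φ _
      congr 1
      exact NT.cf_eq_iff.mpr ⟨σ, fun l => by rw [h l]⟩
    · show ∑ l, (u l).2.1 - c = ∑ l, (u' l).2.1 - c
      have e1 : ∀ l ∈ univ, (u' l).2.1 = (u (σ l)).2.1 + α l := fun l _ => by rw [h l]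
      rw [Finset.sum_congr rfl e1, Finset.sum_add_distrib, hα0, add_zero,
        Equiv.sum_comp σ (fun l => (u l).2.1)]
    · show lam * ∏ l, (u l).2.2 = lam * ∏ l, (u' l).2.2
      have e1 : ∀ l ∈ univ, (u' l).2.2 = β l * (u (σ l)).2.2 := fun l _ => by rw [h l]
      rw [Finset.prod_congr rfl e1, Finset.prod_mul_distrib, hβ1, one_mul,
        Equiv.prod_comp σ (fun l => (u l).2.2)]

end

end Pool.Agent.U436.AS
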