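import Pool.Agent.U436.AS.Loc
import Pool.Agent.U436.AS.Curve

/-!
# The general normal form
-/

set_option autoImplicit false

namespace Pool.Agent.U436.AS

open Finset

variable {k : Type*} [Field k]

/-! ### Stage 1: quotient and jets -/

section stage1

set_option linter.unusedSectionVars false

variable {ι : Type*} [Fintype ι] [DecidableEq ι] (p : ι → k) (e : ι → ℕ) (d0 : ℕ)

/-- The coefficients of the quotient. -/
noncomputable def alf (a : Fin (d0 + ∑ i, e i) → k) (j : Fin d0) : k :=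
  PowerSeries.coeff (d0 - (j : ℕ)) (rev a * (rmod p e)⁻¹)

lemma alf_eq {a : Fin (d0 + ∑ i, e i) → k} {α : Fin d0 → k} {w : Fin (∑ i, e i) → k}
    (h : mpoly a = modulus p e * mpoly α + lpoly w) : alf p e d0 a = α := by
  obtain ⟨R, hR, -⟩ := rev_div p e h
  have h1 : rmod p e * (rmod p e)⁻¹ = 1 := PowerSeries.mul_inv_cancel _ (by
    rw [constantCoeff_rmod]; exact one_ne_zero)
  funext j
  unfold alf
  have h2 : rev a * (rmod p e)⁻¹ = rev α + PowerSeries.X ^ (d0 + 1) * (R * (rmod p e)⁻¹) := by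
    rw [hR]
    linear_combination rev α * h1
  rw [h2, map_add, coeff_rev, PowerSeries.coeff_X_pow_mul', if_neg (by omega), add_zero]

/-- Quotient and jets. -/
noncomputable def stage (a : Fin (d0 + ∑ i, e i) → k) : Fin d0 ⊕ (Σ i, Fin (e i)) → k :=
  Sum.elim (alf p e d0 a) (jet p e (mpoly a))

/-- The inverse. -/
noncomputable def unstage (hp : Function.Injective p) (y : Fin d0 ⊕ (Σ i, Fin (e i)) → k)
    (i : Fin (d0 + ∑ i, e i)) : k :=
  (modulus p e * mpoly (fun j => y (Sum.inl j)) +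
    lpoly ((jetEquiv p e hp).symm fun x => y (Sum.inr x))).coeff i

lemma isPolS_rev {d : ℕ} : IsPolS fun a : Fin d → k => rev a :=
  (IsPolS.const 1).add (IsPolS.sum _ fun j _ => IsPolS.C_mul (IsPol.coord j) (IsPolS.const _))

lemma coeff_mul_mpoly {d : ℕ} (Q : Polynomial k) (a : Fin d → k) (n : ℕ) :
    (Q * mpoly a).coeff n = (Q * Polynomial.X ^ d).coeff n + ∑ i, a i * (Q * Polynomial.X ^ (i : ℕ)).coeff n := by
  unfold mpoly
  rw [mul_add, Polynomial.coeff_add, Finset.mul_sum, Polynomial.finsetSum_coeff]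
  congr 1
  refine Finset.sum_congr rfl fun i _ => ?_
  rw [mul_left_comm, Polynomial.coeff_C_mul]

lemma isPol_jet {d : ℕ} (x : Σ i, Fin (e i)) : IsPol fun a : Fin d → k => jet p e (mpoly a) x := by
  have h1 : ∀ a : Fin d → k, jet p e (mpoly a) x =
      (Polynomial.taylor (p x.1) (Polynomial.X ^ d)).coeff x.2 +
        ∑ i : Fin d, a i * (Polynomial.taylor (p x.1) (Polynomial.X ^ (i : ℕ))).coeff x.2 := by
    intro a
    unfold jet mpoly
    rw [map_add, Polynomial.coeff_add, map_sum, Polynomial.finsetSum_coeff]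
    congr 1
    refine Finset.sum_congr rfl fun i _ => ?_
    rw [Polynomial.taylor_mul, Polynomial.taylor_C, Polynomial.coeff_C_mul]
  have h2 : (fun a : Fin d → k => jet p e (mpoly a) x) = fun a =>
      (Polynomial.taylor (p x.1) (Polynomial.X ^ d)).coeff x.2 +
        ∑ i : Fin d, a i * (Polynomial.taylor (p x.1) (Polynomial.X ^ (i : ℕ))).coeff x.2 := funext h1
  rw [h2]
  exact (IsPol.const _).add (IsPol.sum _ fun i _ => (IsPol.coord i).mul (IsPol.const _))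

lemma mpoly_unstage (hp : Function.Injective p) (y : Fin d0 ⊕ (Σ i, Fin (e i)) → k) :
    mpoly (unstage p e d0 hp y) = modulus p e * mpoly (fun j => y (Sum.inl j)) +
      lpoly ((jetEquiv p e hp).symm fun x => y (Sum.inr x)) := by
  have hM := monic_modulus p e
  have hm := monic_mpoly fun j => y (Sum.inl j)
  have h1 : (modulus p e * mpoly fun j => y (Sum.inl j)).Monic := hM.mul hm
  have h2 : (modulus p e * mpoly fun j => y (Sum.inl j)).natDegree = d0 + ∑ i, e i := by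
    rw [hM.natDegree_mul hm, natDegree_modulus, natDegree_mpoly, add_comm]
  have h3 : (lpoly ((jetEquiv p e hp).symm fun x => y (Sum.inr x))).degree <
      (modulus p e * mpoly fun j => y (Sum.inl j)).degree := by
    rw [Polynomial.degree_eq_natDegree h1.ne_zero, h2]
    exact lt_of_lt_of_le (degree_lpoly _) (by exact_mod_cast Nat.le_add_left _ _)
  refine (eq_mpoly (h1.add_of_left h3) ?_).symm
  rw [Polynomial.natDegree_add_eq_left_of_degree_lt h3, h2]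

theorem stage_equiv (hp : Function.Injective p) : IsPolyEquiv (stage p e d0) := by
  refine ⟨?_, unstage p e d0 hp, ?_, ?_, ?_⟩
  · rintro (j | x)
    · exact (isPolS_rev.mul (IsPolS.const _)) _
    · exact isPol_jet p e x
  · intro i
    have h1 : (fun y : Fin d0 ⊕ (Σ i, Fin (e i)) → k => unstage p e d0 hp y i) = fun y =>
        ((modulus p e * Polynomial.X ^ d0).coeff i +
          ∑ j : Fin d0, y (Sum.inl j) * (modulus p e * Polynomial.X ^ (j : ℕ)).coeff i) +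
        ∑ x, y (Sum.inr x) * (lpoly ((jetEquiv p e hp).symm (Pi.single x 1))).coeff i := by
      funext y
      unfold unstage
      rw [Polynomial.coeff_add, coeff_mul_mpoly, coeff_lpoly_jet]
    rw [h1]
    exact ((IsPol.const _).add (IsPol.sum _ fun j _ => (IsPol.coord _).mul (IsPol.const _))).add
      (IsPol.sum _ fun x _ => (IsPol.coord _).mul (IsPol.const _))
  · intro a
    obtain ⟨α, hα⟩ := exists_div p e hp (monic_mpoly a) (natDegree_mpoly a)
    have h1 := alf_eq p e d0 hα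
    funext i
    unfold unstage stage
    simp only [Sum.elim_inl, Sum.elim_inr]
    rw [h1]
    show (modulus p e * mpoly α + lpoly ((jetEquiv p e hp).symm (jet p e (mpoly a)))).coeff i = a i
    rw [← hα, coeff_mpoly]
  · intro y
    have h1 := mpoly_unstage p e d0 hp y
    funext x
    rcases x with j | x
    · show alf p e d0 (unstage p e d0 hp y) j = _
      rw [alf_eq p e d0 h1]
    · show jet p e (mpoly (unstage p e d0 hp y)) x = _
      rw [h1, jet_add, jet_modulus_mul, zero_add, jet_lpoly]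

end stage1

/-! ### The expansion at a finite point -/

lemma taylor_prod {d : ℕ} (q : k) (t : Fin d → k) (ht : ∀ l, t l ≠ q) :
    ((Polynomial.taylor q (mpoly (NT.cf t)) : Polynomial k) : PowerSeries k) =
      PowerSeries.C (∏ l, (q - t l)) * ∏ l, (1 - PowerSeries.C ((t l - q)⁻¹) * PowerSeries.X) := by
  rw [mpoly_cf, Polynomial.taylor_apply, Polynomial.prod_comp, map_prod, ← Finset.prod_mul_distrib,
    ← Polynomial.coeToPowerSeries.ringHom_apply, map_prod]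
  refine Finset.prod_congr rfl fun l _ => ?_
  have h1 : (t l - q) ≠ 0 := sub_ne_zero.mpr (ht l)
  have h2 : (Polynomial.X - Polynomial.C (t l)).comp (Polynomial.X + Polynomial.C q) =
      Polynomial.C (q - t l) * (1 - Polynomial.C ((t l - q)⁻¹) * Polynomial.X) := by
    rw [Polynomial.sub_comp, Polynomial.X_comp, Polynomial.C_comp, mul_sub, mul_one, ← mul_assoc,
      ← Polynomial.C_mul]
    have h3 : (q - t l) * (t l - q)⁻¹ = -1 := by
      field_simp
      ring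
    rw [h3, Polynomial.C_neg, Polynomial.C_1, Polynomial.C_sub]
    ring
  rw [h2]
  simp only [map_mul, map_sub, map_one, Polynomial.coeToPowerSeries.ringHom_apply, Polynomial.coe_C,
    Polynomial.coe_X]

lemma eval_mpoly_cf {d : ℕ} (q : k) (t : Fin d → k) : (mpoly (NT.cf t)).eval q = ∏ l, (q - t l) := by
  rw [mpoly_cf, Polynomial.eval_prod]
  simp

/-! ### Stage 2 and the general theorem -/

section general

variable {N M : ℕ}

/-- The lengths of the jets. -/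
def ee (r ε : Fin N → ℕ) : Fin N ⊕ Fin M → ℕ
  | Sum.inl i => r i + ε i + r i + 1 + 1
  | Sum.inr _ => 1

/-- The jet of order zero. -/
def z0 (r ε : Fin N → ℕ) : ∀ i : Fin N ⊕ Fin M, Fin (ee r ε i)
  | Sum.inl i => (0 : Fin (r i + ε i + r i + 1 + 1))
  | Sum.inr _ => (0 : Fin 1)

/-- The indices of the coordinates of the target. -/
abbrev TT (r0 ε0 : ℕ) (r ε : Fin N → ℕ) (M : ℕ) : Type :=
  (Fin r0 ⊕ Fin r0 ⊕ Fin ε0) ⊕ ((Σ i : Fin N, Fin (r i) ⊕ Fin (r i) ⊕ Fin (ε i)) ⊕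
    (Fin N ⊕ (Fin N ⊕ Fin M)))

variable {r0 ε0 : ℕ} {r ε : Fin N → ℕ}

/-- The coordinates `x i` of the quadratic form at the pole `i`. -/
def cx (y : TT r0 ε0 r ε M → k) (i : Fin N) : Fin (r i) ⊕ Fin (r i) ⊕ Fin (ε i) → k := fun s =>
  y (Sum.inr (Sum.inl ⟨i, s⟩))

/-- The coordinates `t i`. -/
def ct (y : TT r0 ε0 r ε M → k) (i : Fin N) : k := y (Sum.inr (Sum.inr (Sum.inl i)))

/-- The coordinates `u i` (invertible). -/
def cu (i : Fin N ⊕ Fin M) (y : TT r0 ε0 r ε M → k) : k := y (Sum.inr (Sum.inr (Sum.inr i)))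

/-- The normal form `Q + ∑ (Q i + t i (1 - u i)) + ∑ u j`. -/
def gform (y : TT r0 ε0 r ε M → k) : k :=
  quad (fun s => y (Sum.inl s)) + ∑ i : Fin N, (quad (cx y i) + ct y i * (1 - cu (Sum.inl i) y)) +
    ∑ j : Fin M, cu (Sum.inr j) y

/-- Mutually inverse bijections of the complements of zeros, given by regular functions. -/
def IsRegEquiv {σ τ ι : Type*} (D : ι → (σ → k) → k) (D' : ι → (τ → k) → k) (Φ : (σ → k) → τ → k) : Prop :=
  (∀ i, IsReg D fun x => Φ x i) ∧ (∀ x, (∀ i, D i x ≠ 0) → ∀ i, D' i (Φ x) ≠ 0) ∧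
    ∃ Ψ : (τ → k) → σ → k, (∀ i, IsReg D' fun y => Ψ y i) ∧
      (∀ y, (∀ i, D' i y ≠ 0) → ∀ i, D i (Ψ y) ≠ 0) ∧ (∀ x, (∀ i, D i x ≠ 0) → Ψ (Φ x) = x) ∧
        ∀ y, (∀ i, D' i y ≠ 0) → Φ (Ψ y) = y

/-- The values at the points. -/
noncomputable def dval {d : ℕ} (P : Fin N ⊕ Fin M → k) (i : Fin N ⊕ Fin M) (a : Fin d → k) : k :=
  (mpoly a).eval (P i)

lemma jet_z0 {d : ℕ} (P : Fin N ⊕ Fin M → k) (a : Fin d → k) (i : Fin N ⊕ Fin M) :
    jet P (ee r ε) (mpoly a) ⟨i, z0 r ε i⟩ = dval P i a := by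
  unfold jet dval
  have h : ((z0 r ε i : Fin (ee r ε i)) : ℕ) = 0 := by
    rcases i with i | i <;> rfl
  rw [h, Polynomial.taylor_coeff_zero]

/-- The degree. -/
abbrev dd (r0 ε0 : ℕ) (r ε : Fin N → ℕ) (M : ℕ) : ℕ := r0 + ε0 + r0 + ∑ i : Fin N ⊕ Fin M, ee r ε i

set_option maxHeartbeats 1000000 in
/-- **The normal form.** -/
theorem exists_normal [IsAlgClosed k] (hε0 : ε0 ≤ 1) (hε : ∀ i, ε i ≤ 1) {f0 : Polynomial k}
    {f : Fin N → Polynomial k} (hf0 : f0.natDegree = r0 + ε0 + r0 + 1) (hm0 : ((r0 + ε0 + r0 + 1 : ℕ) : k) ≠ 0)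
    (hf : ∀ i, (f i).natDegree = r i + ε i + r i + 1) (hm : ∀ i, ((r i + ε i + r i + 1 : ℕ) : k) ≠ 0)
    {P : Fin N ⊕ Fin M → k} (hP : Function.Injective P) :
    ∃ (κ : k) (lamA : Fin N ⊕ Fin M → k) (Φ : (Fin (dd r0 ε0 r ε M) → k) → TT r0 ε0 r ε M → k),
      (∀ i, lamA i ≠ 0) ∧ IsRegEquiv (dval P) cu Φ ∧ (∀ a i, cu i (Φ a) = lamA i * dval P i a) ∧
      ∀ t : Fin (dd r0 ε0 r ε M) → k, (∀ l i, t l ≠ P i) →
        ∑ l, (f0.eval (t l) + ∑ i, (f i).eval ((t l - P (Sum.inl i))⁻¹)) = κ + gform (Φ (NT.cf t)) := by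
  classical
  have lead : ∀ {g : Polynomial k} {n : ℕ}, g.natDegree = n + 1 → g.coeff (n + 1) ≠ 0 := by
    intro g n hg h0
    have h1 : g.leadingCoeff = 0 := by
      unfold Polynomial.leadingCoeff
      rw [hg]; exact h0
    rw [Polynomial.leadingCoeff_eq_zero.mp h1, Polynomial.natDegree_zero] at hg
    omega
  have hlc0 := lead hf0
  have hlc : ∀ i, (f i).coeff (r i + ε i + r i + 1) ≠ 0 := fun i => lead (hf i)
  set μ : k := ((r0 + ε0 + r0 + 1 : ℕ) : k) * f0.coeff (r0 + ε0 + r0 + 1) with hμ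
  have hμ0 : μ ≠ 0 := mul_ne_zero hm0 hlc0
  set K : (Σ i : Fin N ⊕ Fin M, Fin (ee r ε i)) → k := kap P (ee r ε) hP with hK
  obtain ⟨κ0, Φ0, hΦ0, hform0⟩ := exists_equiv_lin hε0 hlc0 hm0 (fun _ => 0)
  have hKi : ∀ i : Fin N, K ⟨Sum.inl i, Fin.last (r i + ε i + r i + 1)⟩ ≠ 0 := fun i =>
    kap_ne_zero P (ee r ε) hP (Sum.inl i) (Fin.last (r i + ε i + r i + 1)) rfl
  have hKj : ∀ j : Fin M, K ⟨Sum.inr j, (0 : Fin 1)⟩ ≠ 0 := fun j =>
    kap_ne_zero P (ee r ε) hP (Sum.inr j) (0 : Fin 1) rfl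
  choose lam ν l0 c0 l Φ1 hlam hν hΦ1 hloc using fun i : Fin N =>
    local_form (hε i) (hlc i) (hm i) hμ0 (K := fun j => K ⟨Sum.inl i, j⟩) (hKi i)
  obtain ⟨pΦ0, Ψ0, pΨ0, hΨ0, hΨ0'⟩ := hΦ0
  have pΦ1 := fun i => (hΦ1 i).1
  choose Ψ1 pΨ1 hΨ1 hΨ1' using fun i => (hΦ1 i).2
  set lamA : Fin N ⊕ Fin M → k := Sum.elim lam fun j => -(μ * K ⟨Sum.inr j, (0 : Fin 1)⟩) with hlamA
  have hlamA0 : ∀ i, lamA i ≠ 0 := by
    rintro (i | j)
    · exact hlam i
    · exact neg_ne_zero.mpr (mul_ne_zero hμ0 (hKj j))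
  -- stage 2
  set jv : (Fin (r0 + ε0 + r0) ⊕ (Σ i : Fin N ⊕ Fin M, Fin (ee r ε i)) → k) → ∀ i : Fin N,
      Fin (r i + ε i + r i + 1 + 1) → k := fun y i j => y (Sum.inr ⟨Sum.inl i, j⟩) with hjv
  set Φ2 : (Fin (r0 + ε0 + r0) ⊕ (Σ i : Fin N ⊕ Fin M, Fin (ee r ε i)) → k) → TT r0 ε0 r ε M → k :=
    fun y x => match x with
    | Sum.inl s => Φ0 (fun j => y (Sum.inl j)) s
    | Sum.inr (Sum.inl ⟨i, s⟩) => Φ1 i (hh (jv y i)) s
    | Sum.inr (Sum.inr (Sum.inl i)) => tt (ν i) (l0 i) (l i) (jv y i)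
    | Sum.inr (Sum.inr (Sum.inr i)) => lamA i * y (Sum.inr ⟨i, z0 r ε i⟩) with hΦ2
  set Ψ2 : (TT r0 ε0 r ε M → k) → Fin (r0 + ε0 + r0) ⊕ (Σ i : Fin N ⊕ Fin M, Fin (ee r ε i)) → k :=
    fun y x => match x with
    | Sum.inl j => Ψ0 (fun s => y (Sum.inl s)) j
    | Sum.inr ⟨Sum.inl i, j⟩ => vv (lam i) (ν i) (l0 i) (l i) (Ψ1 i (cx y i)) (ct y i) (cu (Sum.inl i) y) j
    | Sum.inr ⟨Sum.inr j, _⟩ => cu (Sum.inr j) y * (lamA (Sum.inr j))⁻¹ with hΨ2
  set D2 : Fin N ⊕ Fin M → (Fin (r0 + ε0 + r0) ⊕ (Σ i : Fin N ⊕ Fin M, Fin (ee r ε i)) → k) → k :=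
    fun i y => y (Sum.inr ⟨i, z0 r ε i⟩) with hD2
  have hst := stage_equiv P (ee r ε) (r0 + ε0 + r0) hP
  obtain ⟨pst, Ψs, pΨs, hΨs, hΨs'⟩ := hst
  have hDst : ∀ i (a : Fin (dd r0 ε0 r ε M) → k), D2 i (stage P (ee r ε) (r0 + ε0 + r0) a) = dval P i a :=
    fun i a => jet_z0 P a i
  -- regularity of stage 2
  have rjv : ∀ i j, IsReg D2 fun y => jv y i j := fun i j => IsReg.coord _
  have rhh : ∀ i j, IsReg D2 fun y => hh (jv y i) j := by
    intro i j
    exact (rjv i _).mul (IsReg.inv (D := D2) (Sum.inl i))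
  have rΦ2 : ∀ x, IsReg D2 fun y => Φ2 y x := by
    rintro (s | ⟨i, s⟩ | i | i)
    · exact IsReg.comp_pol (pΦ0 s) fun j => IsReg.coord _
    · exact IsReg.comp_pol (pΦ1 i s) (rhh i)
    · exact ((IsReg.const _).mul ((rjv i _).mul (IsReg.inv (D := D2) (Sum.inl i)))).sub
        ((IsReg.const _).add (IsReg.sum _ fun j _ => (IsReg.const _).mul (rhh i j)))
    · exact (IsReg.const _).mul (IsReg.coord _)
  have pΨ2 : ∀ x, IsPol fun y => Ψ2 y x := by
    have pcx : ∀ i s, IsPol fun y : TT r0 ε0 r ε M → k => cx y i s := fun i s => IsPol.coord _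
    have pct : ∀ i, IsPol fun y : TT r0 ε0 r ε M → k => ct y i := fun i => IsPol.coord _
    have pcu : ∀ i, IsPol fun y : TT r0 ε0 r ε M → k => cu i y := fun i => IsPol.coord _
    rintro (j | ⟨i | j, x⟩)
    · exact (pΨ0 j).comp fun s => IsPol.coord _
    · have pΨ1' : ∀ j, IsPol fun y : TT r0 ε0 r ε M → k => Ψ1 i (cx y i) j := fun j =>
        (pΨ1 i j).comp (pcx i)
      refine fin_cases_jet (P := fun x => IsPol fun y : TT r0 ε0 r ε M → k =>
        vv (lam i) (ν i) (l0 i) (l i) (Ψ1 i (cx y i)) (ct y i) (cu (Sum.inl i) y) x) ?_ ?_ ?_ x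
      · simp only [vv_zero]
        exact (pcu _).mul (IsPol.const _)
      · intro n
        simp only [vv_mid]
        exact ((pcu _).mul (IsPol.const _)).mul (pΨ1' _)
      · simp only [vv_last]
        exact ((pcu _).mul (IsPol.const _)).mul ((((pct i).add ((IsPol.const _).add
          (IsPol.sum _ fun j _ => (IsPol.const _).mul (pΨ1' j)))).neg).mul (IsPol.const _))
    · exact (pcu _).mul (IsPol.const _)
  -- stage 2 is bijective
  have hDΦ2 : ∀ i y, cu i (Φ2 y) = lamA i * D2 i y := fun i y => rfl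
  have hΨΦ2 : ∀ y, (∀ i, D2 i y ≠ 0) → Ψ2 (Φ2 y) = y := by
    intro y hy
    funext x
    rcases x with j | ⟨i | j, x⟩
    · show Ψ0 (Φ0 fun j => y (Sum.inl j)) j = _
      rw [hΨ0]
    · show vv (lam i) (ν i) (l0 i) (l i) (Ψ1 i (Φ1 i (hh (jv y i)))) (tt (ν i) (l0 i) (l i) (jv y i))
        (lam i * jv y i 0) x = _
      rw [hΨ1, vv_hh_tt (hlam i) (hν i) (hy (Sum.inl i))]
    · show lamA (Sum.inr j) * y (Sum.inr ⟨Sum.inr j, z0 r ε (Sum.inr j)⟩) * (lamA (Sum.inr j))⁻¹ = _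
      rw [mul_comm (lamA (Sum.inr j)), mul_assoc, mul_inv_cancel₀ (hlamA0 _), mul_one]
      congr 1
      have : (z0 r ε (Sum.inr j) : Fin (ee r ε (Sum.inr j : Fin N ⊕ Fin M))) = x := Subsingleton.elim
        (α := Fin 1) _ _
      rw [this]
  have hΦΨ2 : ∀ y, (∀ i, cu i y ≠ 0) → Φ2 (Ψ2 y) = y := by
    intro y hy
    have hj : ∀ i, jv (Ψ2 y) i = vv (lam i) (ν i) (l0 i) (l i) (Ψ1 i (cx y i)) (ct y i)
        (cu (Sum.inl i) y) := fun i => rfl
    funext x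
    rcases x with s | ⟨i, s⟩ | i | (i | j)
    · show Φ0 (Ψ0 fun s => y (Sum.inl s)) s = _
      rw [hΨ0']
    · show Φ1 i (hh (jv (Ψ2 y) i)) s = _
      rw [hj, hh_vv (hlam i) (hy (Sum.inl i)), hΨ1']
      rfl
    · show tt (ν i) (l0 i) (l i) (jv (Ψ2 y) i) = _
      rw [hj, tt_vv (hlam i) (hν i) (hy (Sum.inl i))]
      rfl
    · show lam i * (cu (Sum.inl i) y * (lam i)⁻¹) = _
      rw [mul_comm (cu (Sum.inl i) y), ← mul_assoc, mul_inv_cancel₀ (hlam i), one_mul]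
      rfl
    · show lamA (Sum.inr j) * (cu (Sum.inr j) y * (lamA (Sum.inr j))⁻¹) = _
      rw [mul_comm (cu (Sum.inr j) y), ← mul_assoc, mul_inv_cancel₀ (hlamA0 _), one_mul]
      rfl
  have hDΨ2 : ∀ y, (∀ i, cu i y ≠ 0) → ∀ i, D2 i (Ψ2 y) ≠ 0 := by
    intro y hy i
    have h1 := hDΦ2 i (Ψ2 y)
    rw [hΦΨ2 y hy] at h1
    intro h0
    rw [h0, mul_zero] at h1
    exact hy i h1
  refine ⟨κ0 + S1 f0 (r0 + ε0 + r0 + 1) (rmod P (ee r ε)) + (dd r0 ε0 r ε M : k) * f0.coeff 0 +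
      ∑ i, ((dd r0 ε0 r ε M : k) * (f i).coeff 0 + c0 i), lamA,
    fun a => Φ2 (stage P (ee r ε) (r0 + ε0 + r0) a), hlamA0, ⟨?_, ?_, fun y => Ψs (Ψ2 y), ?_, ?_, ?_, ?_⟩,
    ?_, ?_⟩
  · intro x
    have h1 := IsReg.comp_reg (rΦ2 x) (Θ := stage P (ee r ε) (r0 + ε0 + r0)) pst
    have h2 : (fun i (a : Fin (r0 + ε0 + r0 + ∑ i : Fin N ⊕ Fin M, ee r ε i) → k) =>
        D2 i (stage P (ee r ε) (r0 + ε0 + r0) a)) = dval P := by
      funext i a
      exact hDst i a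
    rw [h2] at h1
    exact h1
  · intro a ha i
    rw [hDΦ2, hDst]
    exact mul_ne_zero (hlamA0 i) (ha i)
  · intro x
    exact IsReg.of_isPol ((pΨs x).comp pΨ2)
  · intro y hy i
    have h1 := hDst i (Ψs (Ψ2 y))
    rw [hΨs'] at h1
    show dval P i (Ψs (Ψ2 y)) ≠ 0
    rw [← h1]
    exact hDΨ2 y hy i
  · intro a ha
    show Ψs (Ψ2 (Φ2 (stage P (ee r ε) (r0 + ε0 + r0) a))) = a
    rw [hΨΦ2 _ fun i => by rw [hDst]; exact ha i, hΨs]
  · intro y hy
    show Φ2 (stage P (ee r ε) (r0 + ε0 + r0) (Ψs (Ψ2 y))) = y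
    rw [hΨs', hΦΨ2 y hy]
  · intro a i
    show cu i (Φ2 _) = _
    rw [hDΦ2, hDst]
  · -- the formula
    intro t ht
    set a : Fin (r0 + ε0 + r0 + ∑ i : Fin N ⊕ Fin M, ee r ε i) → k := NT.cf t with ha
    obtain ⟨α, hα, hS⟩ := S1_rev P (ee r ε) hP f0 a
    have half := alf_eq P (ee r ε) (r0 + ε0 + r0) hα
    have hval : ∀ i, dval P i a = ∏ l, (P i - t l) := fun i => eval_mpoly_cf (P i) t
    have hval0 : ∀ i, dval P i a ≠ 0 := by
      intro i
      rw [hval]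
      exact Finset.prod_ne_zero_iff.mpr fun l _ => sub_ne_zero.mpr (ht l i).symm
    -- the pole at infinity
    have hA : ∑ l, f0.eval (t l) = (dd r0 ε0 r ε M : k) * f0.coeff 0 + S1 f0 (r0 + ε0 + r0 + 1) (rev a) := by
      rw [← Sf_prod f0 hf0.le t, ← rev_cf, Sf_eq_S1, ha]
    have h0 := hform0 α
    simp only [zero_mul, Finset.sum_const_zero, add_zero] at h0
    -- the finite poles
    have hB : ∀ i : Fin N, ∑ l, (f i).eval ((t l - P (Sum.inl i))⁻¹) - μ *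
        ∑ j : Fin (r i + ε i + r i + 1 + 1), jet P (ee r ε) (mpoly a) ⟨Sum.inl i, j⟩ * K ⟨Sum.inl i, j⟩ =
        (dd r0 ε0 r ε M : k) * (f i).coeff 0 + c0 i +
          quad (Φ1 i (hh (jv (stage P (ee r ε) (r0 + ε0 + r0) a) i))) +
          tt (ν i) (l0 i) (l i) (jv (stage P (ee r ε) (r0 + ε0 + r0) a) i) *
            (1 - lam i * jv (stage P (ee r ε) (r0 + ε0 + r0) a) i 0) := by
      intro i
      have hv0 : jv (stage P (ee r ε) (r0 + ε0 + r0) a) i 0 ≠ 0 := by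
        have h2 := hval0 (Sum.inl i)
        have h3 : D2 (Sum.inl i) (stage P (ee r ε) (r0 + ε0 + r0) a) = dval P (Sum.inl i) a :=
          hDst (Sum.inl i) a
        have h4 : jv (stage P (ee r ε) (r0 + ε0 + r0) a) i 0 = dval P (Sum.inl i) a := h3
        rw [h4]
        exact h2
      have hv0' : jv (stage P (ee r ε) (r0 + ε0 + r0) a) i 0 = ∏ l, (P (Sum.inl i) - t l) := by
        rw [← hval (Sum.inl i)]
        exact hDst (Sum.inl i) a
      have hE : ∀ j : Fin (r i + ε i + r i + 1 + 1), PowerSeries.coeff (j : ℕ)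
          (∏ l, (1 - PowerSeries.C ((t l - P (Sum.inl i))⁻¹) * PowerSeries.X)) =
          jv (stage P (ee r ε) (r0 + ε0 + r0) a) i j *
            (jv (stage P (ee r ε) (r0 + ε0 + r0) a) i 0)⁻¹ := by
        intro j
        have h3 := congrArg (PowerSeries.coeff (j : ℕ)) (taylor_prod (P (Sum.inl i)) t fun l => ht l _)
        rw [PowerSeries.coeff_C_mul, Polynomial.coeff_coe, ← hv0'] at h3
        have h4 : jv (stage P (ee r ε) (r0 + ε0 + r0) a) i j =
            (Polynomial.taylor (P (Sum.inl i)) (mpoly (NT.cf t))).coeff j := rfl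
        rw [h4, h3, mul_comm (jv (stage P (ee r ε) (r0 + ε0 + r0) a) i 0), mul_assoc,
          mul_inv_cancel₀ hv0, mul_one]
      have h5 := hloc i _ _ hv0 hE
      have h6 : S1 (f i) (r i + ε i + r i + 1)
          (∏ l, (1 - PowerSeries.C ((t l - P (Sum.inl i))⁻¹) * PowerSeries.X)) =
          ∑ l, (f i).eval ((t l - P (Sum.inl i))⁻¹) - (dd r0 ε0 r ε M : k) * (f i).coeff 0 := by
        rw [← Sf_prod (f i) (hf i).le, Sf_eq_S1]
        unfold dd
        ring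
      rw [h6] at h5
      have h7 : ∑ j : Fin (r i + ε i + r i + 1 + 1), jet P (ee r ε) (mpoly a) ⟨Sum.inl i, j⟩ *
          K ⟨Sum.inl i, j⟩ = ∑ j, jv (stage P (ee r ε) (r0 + ε0 + r0) a) i j * K ⟨Sum.inl i, j⟩ := rfl
      rw [h7]
      linear_combination h5
    have hsum : ∑ x, jet P (ee r ε) (mpoly a) x * K x =
        ∑ i : Fin N, ∑ j : Fin (r i + ε i + r i + 1 + 1),
          jet P (ee r ε) (mpoly a) ⟨Sum.inl i, j⟩ * K ⟨Sum.inl i, j⟩ +
        ∑ j : Fin M, jet P (ee r ε) (mpoly a) ⟨Sum.inr j, (0 : Fin 1)⟩ * K ⟨Sum.inr j, (0 : Fin 1)⟩ := by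
      rw [Fintype.sum_sigma, Fintype.sum_sum_type]
      congr 1
      refine Finset.sum_congr rfl fun j _ => ?_
      exact Fin.sum_univ_one fun x : Fin 1 => jet P (ee r ε) (mpoly a) ⟨Sum.inr j, x⟩ * K ⟨Sum.inr j, x⟩
    have hG : gform (Φ2 (stage P (ee r ε) (r0 + ε0 + r0) a)) = quad (Φ0 α) +
        ∑ i : Fin N, (quad (Φ1 i (hh (jv (stage P (ee r ε) (r0 + ε0 + r0) a) i))) +
          tt (ν i) (l0 i) (l i) (jv (stage P (ee r ε) (r0 + ε0 + r0) a) i) *
            (1 - lam i * jv (stage P (ee r ε) (r0 + ε0 + r0) a) i 0)) +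
        ∑ j : Fin M, -(μ * K ⟨Sum.inr j, (0 : Fin 1)⟩) * jet P (ee r ε) (mpoly a) ⟨Sum.inr j, (0 : Fin 1)⟩ := by
      rw [← half]
      rfl
    show ∑ l, (f0.eval (t l) + ∑ i, (f i).eval ((t l - P (Sum.inl i))⁻¹)) =
      _ + gform (Φ2 (stage P (ee r ε) (r0 + ε0 + r0) a))
    rw [hG, Finset.sum_add_distrib, Finset.sum_comm, hA, hS, h0]
    have hB' : ∀ i : Fin N, ∑ l, (f i).eval ((t l - P (Sum.inl i))⁻¹) =
        ((dd r0 ε0 r ε M : k) * (f i).coeff 0 + c0 i) +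
          (quad (Φ1 i (hh (jv (stage P (ee r ε) (r0 + ε0 + r0) a) i))) +
          tt (ν i) (l0 i) (l i) (jv (stage P (ee r ε) (r0 + ε0 + r0) a) i) *
            (1 - lam i * jv (stage P (ee r ε) (r0 + ε0 + r0) a) i 0)) + μ *
        ∑ j : Fin (r i + ε i + r i + 1 + 1), jet P (ee r ε) (mpoly a) ⟨Sum.inl i, j⟩ * K ⟨Sum.inl i, j⟩ := by
      intro i
      linear_combination hB i
    rw [Finset.sum_congr rfl fun i _ => hB' i, Finset.sum_add_distrib, Finset.sum_add_distrib,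
      ← Finset.mul_sum]
    have hK' : ∑ x, jet P (ee r ε) (mpoly a) x * kap P (ee r ε) hP x = ∑ x, jet P (ee r ε) (mpoly a) x * K x :=
      rfl
    rw [hK', hsum, ← hμ]
    have hneg : ∑ j : Fin M, -(μ * K ⟨Sum.inr j, (0 : Fin 1)⟩) *
        jet P (ee r ε) (mpoly a) ⟨Sum.inr j, (0 : Fin 1)⟩ =
        -(μ * ∑ j : Fin M, jet P (ee r ε) (mpoly a) ⟨Sum.inr j, (0 : Fin 1)⟩ * K ⟨Sum.inr j, (0 : Fin 1)⟩) := by
      rw [Finset.mul_sum, ← Finset.sum_neg_distrib]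
      refine Finset.sum_congr rfl fun j _ => ?_
      ring
    rw [hneg]
    ring

end general

end Pool.Agent.U436.AS
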