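import Pool.Agent.U436.AS.Lin

/-!
# Hermite interpolation and local expansions
-/

set_option autoImplicit false

namespace Pool.Agent.U436.AS

open Finset

variable {k : Type*} [Field k]

/-! ### The functional `S1` -/

section S1

open PowerSeries

lemma S1_mul (f : Polynomial k) (m : ℕ) {E F : k⟦X⟧} (hE : constantCoeff E ≠ 0) (hF : constantCoeff F ≠ 0) :
    S1 f m (E * F) = S1 f m E + S1 f m F := by
  unfold S1
  rw [ld_mul hE hF, ← neg_add, ← Finset.sum_add_distrib]
  congr 1
  refine Finset.sum_congr rfl fun i _ => ?_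
  rw [map_add, mul_add]

lemma S1_add (f : Polynomial k) {m : ℕ} (hm : 1 ≤ m) {E Δ : k⟦X⟧} (hE : constantCoeff E = 1)
    (hΔ : X ^ m ∣ Δ) : S1 f m (E + Δ) = S1 f m E - (m : k) * f.coeff m * coeff m Δ := by
  obtain ⟨r, rfl⟩ : ∃ r, m = r + 1 := ⟨m - 1, by omega⟩
  have h1 : ∀ i ∈ range (r + 1), f.coeff (i + 1) * coeff i (ld (E + Δ)) =
      f.coeff (i + 1) * coeff i (ld E) + (if i = r then f.coeff (r + 1) * (((r : k) + 1) * coeff (r + 1) Δ) else 0) := by
    intro i hi
    have hir := mem_range.mp hi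
    rw [coeff_ld_add hE hΔ (by omega), if_neg (by omega), sub_zero, mul_add]
    congr 1
    obtain ⟨D, rfl⟩ := hΔ
    have e1 : X ^ (r + 1) * D * E⁻¹ = X ^ (r + 1) * (D * E⁻¹) := by ring
    rw [e1, coeff_X_pow_mul']
    by_cases h : i = r
    · subst h
      rw [if_pos le_rfl, if_pos rfl, Nat.sub_self, coeff_X_pow_mul', if_pos le_rfl, Nat.sub_self,
        coeff_zero_eq_constantCoeff_apply, map_mul, constantCoeff_inv, hE, inv_one, mul_one,
        ← coeff_zero_eq_constantCoeff_apply]
    · rw [if_neg (by omega), if_neg h]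
      ring
  unfold S1
  rw [Finset.sum_congr rfl h1, Finset.sum_add_distrib, Finset.sum_ite_eq' (range (r + 1)) r,
    if_pos (mem_range.mpr (Nat.lt_succ_self r))]
  push_cast
  ring

lemma constantCoeff_rev {d : ℕ} (a : Fin d → k) : constantCoeff (rev a) = 1 := by
  unfold rev
  rw [map_add, map_one, map_sum, Finset.sum_eq_zero, add_zero]
  intro i _
  rw [map_mul, map_pow, constantCoeff_X, zero_pow (by have := i.2; omega), mul_zero]

end S1

/-! ### Monic polynomials and remainders -/

open Polynomial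

/-- The monic polynomial with the coefficients `a`. -/
noncomputable def mpoly {d : ℕ} (a : Fin d → k) : k[X] := X ^ d + ∑ i, C (a i) * X ^ (i : ℕ)

/-- The polynomial with the coefficients `w`. -/
noncomputable def lpoly {d : ℕ} (w : Fin d → k) : k[X] := ∑ i, C (w i) * X ^ (i : ℕ)

lemma coeff_lpoly {d : ℕ} (w : Fin d → k) (n : ℕ) : (lpoly w).coeff n = if h : n < d then w ⟨n, h⟩ else 0 := by
  unfold lpoly
  rw [finsetSum_coeff]
  simp only [coeff_C_mul, coeff_X_pow]
  split_ifs with h
  · rw [Finset.sum_eq_single (⟨n, h⟩ : Fin d)]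
    · simp
    · intro i _ hi
      rw [if_neg, mul_zero]
      intro h'
      exact hi (Fin.ext h'.symm)
    · intro h'
      exact absurd (mem_univ _) h'
  · refine Finset.sum_eq_zero fun i _ => ?_
    rw [if_neg (by have := i.2; omega), mul_zero]

lemma degree_lpoly {d : ℕ} (w : Fin d → k) : (lpoly w).degree < d := degree_sum_fin_lt w

lemma eq_lpoly {d : ℕ} {P : k[X]} (hP : P.degree < d) : P = lpoly fun i : Fin d => P.coeff i := by
  ext n
  rw [coeff_lpoly]
  split_ifs with h
  · rfl
  · exact coeff_eq_zero_of_degree_lt (lt_of_lt_of_le hP (by exact_mod_cast Nat.le_of_not_lt h))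

lemma monic_mpoly {d : ℕ} (a : Fin d → k) : (mpoly a).Monic := monic_X_pow_add (degree_lpoly a)

lemma natDegree_mpoly {d : ℕ} (a : Fin d → k) : (mpoly a).natDegree = d := by
  have h1 : (mpoly a).degree = d := by
    unfold mpoly
    rw [degree_add_eq_left_of_degree_lt]
    · exact degree_X_pow d
    · rw [degree_X_pow]; exact degree_lpoly a
  exact natDegree_eq_of_degree_eq_some h1

lemma coeff_mpoly {d : ℕ} (a : Fin d → k) (i : Fin d) : (mpoly a).coeff i = a i := by
  unfold mpoly
  rw [coeff_add, coeff_X_pow, if_neg (by have := i.2; omega), zero_add]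
  show (lpoly a).coeff i = a i
  rw [coeff_lpoly, dif_pos i.2]

lemma eq_mpoly {d : ℕ} {P : k[X]} (hP : P.Monic) (hd : P.natDegree = d) : P = mpoly fun i : Fin d => P.coeff i := by
  have h := hP.as_sum
  rw [hd, Finset.sum_range] at h
  exact h

lemma mpoly_injective {d : ℕ} {a b : Fin d → k} (h : mpoly a = mpoly b) : a = b := by
  funext i
  rw [← coeff_mpoly a i, h, coeff_mpoly]

lemma mpoly_cf {d : ℕ} (t : Fin d → k) : mpoly (NT.cf t) = ∏ j, (X - C (t j)) :=
  (eq_mpoly (NT.monic_root t) (NT.natDegree_root t)).symm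

lemma reflect_lpoly {D : ℕ} (N : ℕ) (hN : D ≤ N) (w : Fin D → k) :
    reflect N (lpoly w) = ∑ i, C (w i) * X ^ (N - (i : ℕ)) := by
  have hs : ∀ s : Finset (Fin D), reflect N (∑ i ∈ s, C (w i) * X ^ (i : ℕ)) =
      ∑ i ∈ s, C (w i) * X ^ (N - (i : ℕ)) := by
    classical
    intro s
    induction s using Finset.induction_on with
    | empty => simp
    | insert a s ha ih =>
      rw [Finset.sum_insert ha, Finset.sum_insert ha, reflect_add, ih,
        reflect_C_mul_X_pow, revAt_le (by have := a.2; omega)]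
  exact hs _

lemma reflect_mpoly {d : ℕ} (a : Fin d → k) : reflect d (mpoly a) = 1 + ∑ i, C (a i) * X ^ (d - (i : ℕ)) := by
  have h4 : reflect d (X ^ d : k[X]) = 1 := by
    have : (X ^ d : k[X]) = C 1 * X ^ d := by simp
    rw [this, reflect_C_mul_X_pow, revAt_le le_rfl]
    simp
  have h5 := reflect_lpoly d le_rfl a
  unfold mpoly
  rw [reflect_add, h4]
  congr 1

lemma rev_eq {d : ℕ} (a : Fin d → k) : rev a = ((reflect d (mpoly a) : k[X]) : PowerSeries k) := by
  rw [reflect_mpoly]
  unfold rev
  rw [← coeToPowerSeries.ringHom_apply]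
  simp only [map_add, map_one, map_sum, map_mul, map_pow,
    coeToPowerSeries.ringHom_apply, coe_C, coe_X]

/-- The expansion at infinity, general form. -/
lemma rev_div_aux {d0 D : ℕ} {Q : k[X]} (hQ : Q.natDegree ≤ D) {a : Fin (d0 + D) → k} {α : Fin d0 → k}
    {w : Fin D → k} (h : mpoly a = Q * mpoly α + lpoly w) :
    ∃ R : PowerSeries k, rev a = ((reflect D Q : k[X]) : PowerSeries k) * rev α + PowerSeries.X ^ (d0 + 1) * R ∧
      PowerSeries.coeff 0 R = (lpoly w).coeff (D - 1) := by
  have h1 : rev a = ((reflect (d0 + D) (mpoly a) : k[X]) : PowerSeries k) := rev_eq a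
  have h2 : reflect (d0 + D) (Q * mpoly α) = reflect D Q * reflect d0 (mpoly α) := by
    rw [add_comm d0 D]
    exact reflect_mul _ _ hQ (natDegree_mpoly α).le
  have h3 : reflect (d0 + D) (lpoly w) = X ^ (d0 + 1) * ∑ i : Fin D, C (w i) * X ^ (D - 1 - (i : ℕ)) := by
    rw [reflect_lpoly _ (Nat.le_add_left _ _), Finset.mul_sum]
    refine Finset.sum_congr rfl fun i _ => ?_
    rw [mul_left_comm, ← pow_add]
    congr 2
    have := i.2
    omega
  refine ⟨((∑ i : Fin D, C (w i) * X ^ (D - 1 - (i : ℕ)) : k[X]) : PowerSeries k), ?_, ?_⟩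
  · rw [h1, h, reflect_add, h2, h3, rev_eq α, Polynomial.coe_add, Polynomial.coe_mul, Polynomial.coe_mul,
      Polynomial.coe_pow, Polynomial.coe_X]
  · rw [coeff_coe, finsetSum_coeff, coeff_lpoly]
    split_ifs with h'
    · rw [Finset.sum_eq_single (⟨D - 1, h'⟩ : Fin D)]
      · rw [coeff_C_mul, coeff_X_pow, if_pos, mul_one]
        show 0 = D - 1 - (D - 1)
        omega
      · intro i _ hi
        rw [coeff_C_mul, coeff_X_pow, if_neg, mul_zero]
        intro h''
        exact hi (Fin.ext (by have := i.2; show (i : ℕ) = D - 1; omega))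
      · intro h''
        exact absurd (mem_univ _) h''
    · refine Finset.sum_eq_zero fun i _ => ?_
      have := i.2
      omega

/-! ### Jets -/

section Jets

set_option linter.unusedSectionVars false

variable {ι : Type*} [Fintype ι] [DecidableEq ι] (p : ι → k) (e : ι → ℕ)

/-- The modulus. -/
noncomputable def modulus : k[X] := ∏ i, (X - C (p i)) ^ e i

lemma monic_modulus : (modulus p e).Monic := monic_prod_of_monic _ _ fun _ _ => (monic_X_sub_C _).pow _

lemma natDegree_modulus : (modulus p e).natDegree = ∑ i, e i := by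
  unfold modulus
  rw [natDegree_prod_of_monic _ _ fun i _ => (monic_X_sub_C (p i)).pow (e i)]
  refine Finset.sum_congr rfl fun i _ => ?_
  rw [natDegree_pow, natDegree_X_sub_C, mul_one]

/-- The jets at the points `p i` of orders less than `e i`. -/
noncomputable def jet (g : k[X]) (x : Σ i, Fin (e i)) : k := (taylor (p x.1) g).coeff x.2

lemma jet_add (g h : k[X]) : jet p e (g + h) = jet p e g + jet p e h := by
  funext x
  simp only [jet, map_add, coeff_add, Pi.add_apply]

lemma pow_dvd_iff_jet (g : k[X]) (i : ι) :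
    (X - C (p i)) ^ e i ∣ g ↔ ∀ j : Fin (e i), jet p e g ⟨i, j⟩ = 0 := by
  rw [X_sub_C_pow_dvd_iff, X_pow_dvd_iff]
  constructor
  · intro h j
    exact h j j.2
  · intro h j hj
    exact h ⟨j, hj⟩

lemma jet_modulus_mul (g : k[X]) : jet p e (modulus p e * g) = 0 := by
  funext x
  obtain ⟨i, j⟩ := x
  have h1 : (X - C (p i)) ^ e i ∣ modulus p e :=
    Finset.dvd_prod_of_mem (fun i => (X - C (p i)) ^ e i) (mem_univ i)
  exact (pow_dvd_iff_jet p e _ i).mp (Dvd.dvd.mul_right h1 g) j

lemma modulus_dvd (hp : Function.Injective p) {g : k[X]} (h : ∀ x, jet p e g x = 0) : modulus p e ∣ g := by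
  unfold modulus
  refine Finset.prod_dvd_of_coprime ?_ fun i _ => (pow_dvd_iff_jet p e g i).mpr fun j => h _
  intro i _ j _ hij
  have h1 : IsCoprime (X - C (p i)) (X - C (p j)) :=
    isCoprime_X_sub_C_of_isUnit_sub (sub_ne_zero.mpr (fun h' => hij (hp h'))).isUnit
  show IsCoprime ((X - C (p i)) ^ e i) ((X - C (p j)) ^ e j)
  exact IsCoprime.pow h1

/-- The linear map of the jets of the polynomials of degree less than `∑ e i`. -/
noncomputable def jetMap : (Fin (∑ i, e i) → k) →ₗ[k] ((Σ i, Fin (e i)) → k) where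
  toFun w := jet p e (lpoly w)
  map_add' w w' := by
    rw [← jet_add]
    congr 1
    unfold lpoly
    rw [← Finset.sum_add_distrib]
    refine Finset.sum_congr rfl fun i _ => ?_
    rw [Pi.add_apply, C_add, add_mul]
  map_smul' c w := by
    have h1 : lpoly (c • w) = C c * lpoly w := by
      unfold lpoly
      rw [Finset.mul_sum]
      refine Finset.sum_congr rfl fun i _ => ?_
      rw [Pi.smul_apply, smul_eq_mul, C_mul, mul_assoc]
    funext x
    rw [h1]
    simp only [jet, RingHom.id_apply, Pi.smul_apply, smul_eq_mul, taylor_mul, taylor_C, coeff_C_mul]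

lemma jetMap_injective (hp : Function.Injective p) : Function.Injective (jetMap p e) := by
  rw [← LinearMap.ker_eq_bot, LinearMap.ker_eq_bot']
  intro w hw
  have h1 : modulus p e ∣ lpoly w := modulus_dvd p e hp fun x => congrFun hw x
  have h2 : lpoly w = 0 := by
    refine eq_zero_of_dvd_of_degree_lt h1 ?_
    rw [degree_eq_natDegree (monic_modulus p e).ne_zero, natDegree_modulus]
    exact degree_lpoly w
  funext i
  have h3 := coeff_lpoly w i
  rw [h2, dif_pos i.2] at h3
  exact h3.symm

/-- The jets determine the polynomials. -/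
noncomputable def jetEquiv (hp : Function.Injective p) : (Fin (∑ i, e i) → k) ≃ₗ[k] ((Σ i, Fin (e i)) → k) :=
  LinearEquiv.ofBijective (jetMap p e) ⟨jetMap_injective p e hp,
    (LinearMap.injective_iff_surjective_of_finrank_eq_finrank (by
      rw [Module.finrank_fintype_fun_eq_card, Module.finrank_fintype_fun_eq_card, Fintype.card_sigma,
        Fintype.card_fin]
      simp)).mp (jetMap_injective p e hp)⟩

lemma jet_lpoly (hp : Function.Injective p) (v : (Σ i, Fin (e i)) → k) :
    jet p e (lpoly ((jetEquiv p e hp).symm v)) = v :=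
  (jetEquiv p e hp).apply_symm_apply v

/-- Division with remainder, the remainder is given by the jets. -/
lemma exists_div (hp : Function.Injective p) {d0 : ℕ} {g : k[X]} (hg : g.Monic)
    (hd : g.natDegree = d0 + ∑ i, e i) :
    ∃ α : Fin d0 → k, g = modulus p e * mpoly α + lpoly ((jetEquiv p e hp).symm (jet p e g)) := by
  have hM := monic_modulus p e
  have h1 := modByMonic_add_div g (q := modulus p e)
  have hr : (g %ₘ modulus p e).degree < ((∑ i, e i : ℕ) : WithBot ℕ) := by
    have := degree_modByMonic_lt g hM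
    rw [degree_eq_natDegree hM.ne_zero, natDegree_modulus] at this
    exact this
  have h2 : g %ₘ modulus p e = lpoly ((jetEquiv p e hp).symm (jet p e g)) := by
    rw [eq_lpoly hr]
    congr 1
    rw [LinearEquiv.eq_symm_apply]
    show jet p e (lpoly _) = _
    rw [← eq_lpoly hr]
    conv_rhs => rw [← h1, jet_add, jet_modulus_mul, add_zero]
  have hdeg : (modulus p e).degree ≤ g.degree := by
    rw [degree_eq_natDegree hM.ne_zero, degree_eq_natDegree hg.ne_zero, natDegree_modulus, hd]
    exact_mod_cast Nat.le_add_left _ _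
  have h3 : (g /ₘ modulus p e).Monic := by
    unfold Monic
    rw [leadingCoeff_divByMonic_of_monic hM hdeg]
    exact hg
  have h4 : (g /ₘ modulus p e).natDegree = d0 := by
    rw [natDegree_divByMonic g hM, hd, natDegree_modulus, Nat.add_sub_cancel]
  refine ⟨fun i => (g /ₘ modulus p e).coeff i, ?_⟩
  rw [← h2, ← eq_mpoly h3 h4, add_comm]
  exact h1.symm

/-- The reversed modulus. -/
noncomputable def rmod : PowerSeries k := ((reflect (∑ i, e i) (modulus p e) : k[X]) : PowerSeries k)

lemma constantCoeff_rmod : PowerSeries.constantCoeff (rmod p e) = 1 := by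
  unfold rmod
  have h := eq_mpoly (monic_modulus p e) (natDegree_modulus p e)
  rw [h, ← rev_eq, constantCoeff_rev]

/-- The expansion at infinity. -/
lemma rev_div {d0 : ℕ} {a : Fin (d0 + ∑ i, e i) → k} {α : Fin d0 → k} {w : Fin (∑ i, e i) → k}
    (h : mpoly a = modulus p e * mpoly α + lpoly w) :
    ∃ R : PowerSeries k, rev a = rmod p e * rev α + PowerSeries.X ^ (d0 + 1) * R ∧
      PowerSeries.coeff 0 R = (lpoly w).coeff (∑ i, e i - 1) :=
  rev_div_aux (natDegree_modulus p e).le h

/-- The coefficients of the linear form. -/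
noncomputable def kap (hp : Function.Injective p) (x : Σ i, Fin (e i)) : k :=
  (lpoly ((jetEquiv p e hp).symm (Pi.single x 1))).coeff (∑ i, e i - 1)

lemma coeff_lpoly_jet (hp : Function.Injective p) (v : (Σ i, Fin (e i)) → k) (n : ℕ) :
    (lpoly ((jetEquiv p e hp).symm v)).coeff n =
      ∑ x, v x * (lpoly ((jetEquiv p e hp).symm (Pi.single x 1))).coeff n := by
  have h1 : v = ∑ x, v x • (Pi.single x 1 : (Σ i, Fin (e i)) → k) := by
    funext y
    simp [Finset.sum_apply, Pi.single_apply]
  have h2 : (jetEquiv p e hp).symm v = ∑ x, v x • (jetEquiv p e hp).symm (Pi.single x 1) := by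
    conv_lhs => rw [h1]
    rw [map_sum]
    refine Finset.sum_congr rfl fun x _ => ?_
    rw [map_smul]
  rw [coeff_lpoly]
  split_ifs with h
  · rw [h2, Finset.sum_apply]
    refine Finset.sum_congr rfl fun x _ => ?_
    rw [coeff_lpoly, dif_pos h, Pi.smul_apply, smul_eq_mul]
  · symm
    refine Finset.sum_eq_zero fun x _ => ?_
    rw [coeff_lpoly, dif_neg h, mul_zero]

/-- The coefficients of the highest jets are not zero. -/
lemma kap_ne_zero (hp : Function.Injective p) (i : ι) (j : Fin (e i)) (hj : (j : ℕ) + 1 = e i) :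
    kap p e hp ⟨i, j⟩ ≠ 0 := by
  classical
  set P : k[X] := (∏ i' ∈ univ.erase i, (X - C (p i')) ^ e i') * (X - C (p i)) ^ (j : ℕ) with hP
  have hPm : P.Monic := (monic_prod_of_monic _ _ fun _ _ => (monic_X_sub_C _).pow _).mul
    ((monic_X_sub_C _).pow _)
  have hMP : modulus p e = P * (X - C (p i)) := by
    unfold modulus
    rw [hP, mul_assoc, ← pow_succ, hj, mul_comm,
      Finset.mul_prod_erase univ (fun i' => (X - C (p i')) ^ e i') (mem_univ i)]
  have hPd : P.natDegree + 1 = ∑ i, e i := by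
    have := natDegree_modulus p e
    rw [hMP, hPm.natDegree_mul (monic_X_sub_C _), natDegree_X_sub_C] at this
    exact this
  have hPdeg : P.degree < ((∑ i, e i : ℕ) : WithBot ℕ) := by
    rw [degree_eq_natDegree hPm.ne_zero]
    exact_mod_cast (by omega)
  -- the jets of P
  have hjet : jet p e P = Pi.single ⟨i, j⟩ (jet p e P ⟨i, j⟩) := by
    funext x
    obtain ⟨i', j'⟩ := x
    by_cases hx : (⟨i', j'⟩ : Σ i, Fin (e i)) = ⟨i, j⟩
    · rw [hx, Pi.single_eq_same]
    · rw [Pi.single_eq_of_ne hx]
      by_cases hi : i' = i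
      · subst hi
        have hj' : (j' : ℕ) < j := by
          have h1 : (j' : ℕ) ≠ j := by
            intro h2
            exact hx (by rw [Fin.ext h2])
          have := j'.2
          omega
        have h3 : (X - C (p i')) ^ (j : ℕ) ∣ P := dvd_mul_left _ _
        rw [X_sub_C_pow_dvd_iff, X_pow_dvd_iff] at h3
        exact h3 _ hj'
      · have h3 : (X - C (p i')) ^ e i' ∣ P :=
          Dvd.dvd.mul_right (Finset.dvd_prod_of_mem (fun i' => (X - C (p i')) ^ e i')
            (Finset.mem_erase.mpr ⟨hi, mem_univ _⟩)) _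
        exact (pow_dvd_iff_jet p e P i').mp h3 j'
  have h1 : jet p e P ⟨i, j⟩ * kap p e hp ⟨i, j⟩ = 1 := by
    have h2 : P = lpoly ((jetEquiv p e hp).symm (jet p e P)) := by
      rw [eq_lpoly hPdeg]
      congr 1
      rw [LinearEquiv.eq_symm_apply]
      show jet p e (lpoly _) = _
      rw [← eq_lpoly hPdeg]
    have h3 : P.coeff (∑ i, e i - 1) = 1 := by
      rw [← hPd, Nat.add_sub_cancel]
      exact hPm
    rw [h2, coeff_lpoly_jet, Finset.sum_eq_single (⟨i, j⟩ : Σ i, Fin (e i))] at h3
    · exact h3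
    · intro x _ hx
      rw [hjet, Pi.single_eq_of_ne hx, zero_mul]
    · intro h
      exact absurd (mem_univ _) h
  intro h
  rw [h, mul_zero] at h1
  exact zero_ne_one h1

/-- **The expansion at infinity.** -/
theorem S1_rev (hp : Function.Injective p) {d0 : ℕ} (f : k[X]) (a : Fin (d0 + ∑ i, e i) → k) :
    ∃ α : Fin d0 → k, mpoly a = modulus p e * mpoly α +
        lpoly ((jetEquiv p e hp).symm (jet p e (mpoly a))) ∧
      S1 f (d0 + 1) (rev a) = S1 f (d0 + 1) (rmod p e) + S1 f (d0 + 1) (rev α) -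
        ((d0 + 1 : ℕ) : k) * f.coeff (d0 + 1) * ∑ x, jet p e (mpoly a) x * kap p e hp x := by
  obtain ⟨α, hα⟩ := exists_div p e hp (monic_mpoly a) (natDegree_mpoly a)
  refine ⟨α, hα, ?_⟩
  obtain ⟨R, hR, hR0⟩ := rev_div p e hα
  have hc : PowerSeries.constantCoeff (rmod p e * rev α) = 1 := by
    rw [map_mul, constantCoeff_rmod, constantCoeff_rev, one_mul]
  rw [hR, S1_add f (Nat.le_add_left 1 d0) hc (dvd_mul_right _ _), S1_mul f _
    (by rw [constantCoeff_rmod]; exact one_ne_zero) (by rw [constantCoeff_rev]; exact one_ne_zero),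
    PowerSeries.coeff_X_pow_mul', if_pos le_rfl, Nat.sub_self, hR0, coeff_lpoly_jet]
  rfl

end Jets

end Pool.Agent.U436.AS
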