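import Pool.Agent.U436.AS.Auto

/-!
# The normal form with an additional linear term
-/

set_option autoImplicit false

namespace Pool.Agent.U436.AS

open PowerSeries Finset

variable {k : Type*} [Field k] {r ε : ℕ}

/-- The sum of the values of `f - f (0)` at the inverses of the zeros of `E`. -/
noncomputable def S1 (f : Polynomial k) (m : ℕ) (E : k⟦X⟧) : k :=
  -∑ i ∈ range m, f.coeff (i + 1) * coeff i (ld E)

lemma Sf_eq_S1 (f : Polynomial k) (d m : ℕ) (E : k⟦X⟧) : Sf f d m E = d * f.coeff 0 + S1 f m E := by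
  unfold Sf S1
  ring

lemma isPol_S1 {f : Polynomial k} {m : ℕ} : IsPol fun τ : Fin r → k => S1 f m (top τ) :=
  (IsPol.sum _ fun i _ => (IsPol.const _).mul
    ((isPolS_top.deriv.mul (isPolS_top.inv fun τ => constantCoeff_top τ)) i)).neg

/-- The normal form with a linear term. -/
theorem exists_equiv_lin [IsAlgClosed k] (hε : ε ≤ 1) {f : Polynomial k}
    (hlc : f.coeff (r + ε + r + 1) ≠ 0)
    (hm : ((r + ε + r + 1 : ℕ) : k) ≠ 0) (l : Fin (r + ε + r) → k) :
    ∃ (κ : k) (Φ : (Fin (r + ε + r) → k) → Fin r ⊕ Fin r ⊕ Fin ε → k), IsPolyEquiv Φ ∧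
      ∀ a : Fin (r + ε + r) → k, S1 f (r + ε + r + 1) (rev a) + ∑ i, l i * a i = κ + quad (Φ a) := by
  classical
  set m := r + ε + r + 1 with hmdef
  have h0 : coeff 0 (phi f m) ≠ 0 := by
    rw [coeff_zero_phi]
    exact mul_ne_zero hm hlc
  set lam : k := f.coeff m * ((r : k) + 1) with hlam
  obtain ⟨s, hs⟩ := IsAlgClosed.exists_pow_nat_eq lam (n := 2) (by norm_num)
  have hne : ∀ _ : Fin ε, (2 : k) ≠ 0 ∧ lam ≠ 0 ∧ s ≠ 0 := by
    intro i
    have hε1 : ε = 1 := by have := i.2; omega
    have h2 : ((r + ε + r + 1 : ℕ) : k) = 2 * ((r : k) + 1) := by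
      rw [hε1]; push_cast; ring
    rw [hmdef] at hm
    rw [h2] at hm
    have h3 := left_ne_zero_of_mul hm
    have h4 := right_ne_zero_of_mul hm
    have h5 : lam ≠ 0 := mul_ne_zero hlc h4
    refine ⟨h3, h5, ?_⟩
    rintro rfl
    exact h5 (by rw [← hs]; ring)
  set ll : Fin r → k := lo l with hll
  set lm : Fin ε → k := mi l with hlm
  set lh : Fin r → k := hi l with hlh
  -- the shifted coordinates
  set UU : (Fin r → k) → Fin r → k := fun τ j => U f m τ j + ll j with hUU
  set WW : (Fin r → k) → Fin r → k := fun υ => W f m fun j => υ j - ll j with hWW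
  have hWU : ∀ τ, WW (UU τ) = τ := by
    intro τ
    have : (fun j => UU τ j - ll j) = U f m τ := by
      funext j
      simp only [hUU]
      ring
    show W f m (fun j => UU τ j - ll j) = τ
    rw [this, W_U h0]
  have hUW : ∀ υ, UU (WW υ) = υ := by
    intro υ
    funext j
    show U f m (W f m fun j => υ j - ll j) j + ll j = υ j
    rw [U_W h0]
    ring
  have pUU : ∀ j, IsPol fun τ : Fin r → k => UU τ j := fun j => (isPol_U j).add (IsPol.const _)
  have pWW : ∀ j, IsPol fun υ : Fin r → k => WW υ j := fun j =>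
    (isPol_W (f := f) (m := m) j).comp (Φ := fun (υ : Fin r → k) j => υ j - ll j)
      fun j' => (IsPol.coord j').sub (IsPol.const _)
  set GG : Fin ε → (Fin r → k) → k := fun i τ => G f m τ (r + 1) - lm i with hGG
  have pGG : ∀ i, IsPol fun τ : Fin r → k => GG i τ := fun i => (isPol_G (r + 1)).sub (IsPol.const _)
  have hB : IsPol fun υ : Fin r → k => S1 f m (top (WW υ)) + ∑ j, lh j * WW υ j -
      ∑ i : Fin ε, GG i (WW υ) ^ 2 * (4 * lam)⁻¹ :=
    ((isPol_S1.comp pWW).add (IsPol.sum _ fun j _ => (IsPol.const _).mul (pWW j))).sub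
      (IsPol.sum _ fun i _ => (((pGG i).comp pWW).pow 2).mul (IsPol.const _))
  obtain ⟨κ, β, hβ, hBβ⟩ := exists_decomp _ hB
  set Φ : (Fin (r + ε + r) → k) → Fin r ⊕ Fin r ⊕ Fin ε → k := fun a x =>
    match x with
    | Sum.inl j => UU (hi a) j
    | Sum.inr (Sum.inl j) => lo a j + β j (UU (hi a))
    | Sum.inr (Sum.inr i) => s * (mi a i - GG i (hi a) * (2 * lam)⁻¹) with hΦ
  set Ψ : (Fin r ⊕ Fin r ⊕ Fin ε → k) → Fin (r + ε + r) → k := fun y =>
    Fin.append (Fin.append (fun j => y (Sum.inr (Sum.inl j)) - β j fun j => y (Sum.inl j))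
      (fun i => y (Sum.inr (Sum.inr i)) * s⁻¹ + GG i (WW fun j => y (Sum.inl j)) * (2 * lam)⁻¹))
      (WW fun j => y (Sum.inl j)) with hΨ
  have pol_hi : ∀ j : Fin r, IsPol fun a : Fin (r + ε + r) → k => hi (r := r) (ε := ε) a j := fun j =>
    IsPol.coord _
  have pol_lo : ∀ j : Fin r, IsPol fun a : Fin (r + ε + r) → k => lo (r := r) (ε := ε) a j := fun j =>
    IsPol.coord _
  have pol_mi : ∀ i : Fin ε, IsPol fun a : Fin (r + ε + r) → k => mi (r := r) (ε := ε) a i := fun i =>
    IsPol.coord _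
  refine ⟨κ, Φ, ⟨?_, Ψ, ?_, ?_, ?_⟩, ?_⟩
  · -- Φ is polynomial
    rintro (j | j | i)
    · exact (pUU j).comp pol_hi
    · exact (pol_lo j).add ((hβ j).comp fun j' => (pUU j').comp pol_hi)
    · exact (IsPol.const s).mul ((pol_mi i).sub (((pGG i).comp pol_hi).mul (IsPol.const _)))
  · -- Ψ is polynomial
    intro x
    have pu : ∀ j : Fin r, IsPol fun y : (Fin r ⊕ Fin r ⊕ Fin ε → k) => y (Sum.inl j) := fun j =>
      IsPol.coord _
    have pW : ∀ j : Fin r, IsPol fun y : (Fin r ⊕ Fin r ⊕ Fin ε → k) =>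
        WW (fun j => y (Sum.inl j)) j := fun j => (pWW j).comp pu
    induction x using Fin.addCases with
    | left x =>
      induction x using Fin.addCases with
      | left j =>
        simp only [hΨ, Fin.append_left]
        exact (IsPol.coord _).sub ((hβ j).comp pu)
      | right i =>
        simp only [hΨ, Fin.append_left, Fin.append_right]
        exact ((IsPol.coord _).mul (IsPol.const _)).add
          (((pGG i).comp pW).mul (IsPol.const _))
    | right j =>
      simp only [hΨ, Fin.append_right]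
      exact pW j
  · -- Ψ (Φ a) = a
    intro a
    have hU : (fun j => Φ a (Sum.inl j)) = UU (hi a) := rfl
    funext x
    induction x using Fin.addCases with
    | left x =>
      induction x using Fin.addCases with
      | left j =>
        simp only [hΨ, Fin.append_left]
        rw [hU]
        show lo a j + β j (UU (hi a)) - β j (UU (hi a)) = _
        rw [add_sub_cancel_right]
        rfl
      | right i =>
        simp only [hΨ, Fin.append_left, Fin.append_right]
        rw [hU, hWU]
        show s * (mi a i - GG i (hi a) * (2 * lam)⁻¹) * s⁻¹ + GG i (hi a) * (2 * lam)⁻¹ = _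
        have hsne := (hne i).2.2
        have e1 : s * (mi a i - GG i (hi a) * (2 * lam)⁻¹) * s⁻¹ = mi a i - GG i (hi a) * (2 * lam)⁻¹ := by
          field_simp
        rw [e1, sub_add_cancel]
        rfl
    | right j =>
      simp only [hΨ, Fin.append_right]
      rw [hU, hWU]
      rfl
  · -- Φ (Ψ y) = y
    intro y
    have h1 : hi (r := r) (ε := ε) (Ψ y) = WW fun j => y (Sum.inl j) := by
      funext j
      simp only [hi, hΨ, Fin.append_right]
    have h2 : UU (hi (r := r) (ε := ε) (Ψ y)) = fun j => y (Sum.inl j) := by rw [h1, hUW]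
    funext x
    rcases x with j | j | i
    · show UU (hi (Ψ y)) j = _
      rw [h2]
    · show lo (Ψ y) j + β j (UU (hi (Ψ y))) = _
      rw [h2]
      simp only [lo, hΨ, Fin.append_left]
      ring
    · show s * (mi (Ψ y) i - GG i (hi (Ψ y)) * (2 * lam)⁻¹) = _
      rw [h1]
      simp only [mi, hΨ, Fin.append_left, Fin.append_right]
      have hsne := (hne i).2.2
      field_simp
      ring
  · -- the formula
    intro a
    have hsplit := Sf_split hε f a
    rw [Sf_eq_S1, Sf_eq_S1] at hsplit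
    have hsplit' : S1 f m (rev a) = S1 f m (top (hi a)) -
        ∑ j : Fin r, lo a j * G f m (hi a) ((j : ℕ) + 1) - ∑ i : Fin ε, mi a i * G f m (hi a) (r + 1) +
        lam * ∑ i : Fin ε, mi a i ^ 2 := by
      rw [hlam]
      linear_combination hsplit
    have hl : ∑ i, l i * a i = ∑ j, ll j * lo a j + ∑ i, lm i * mi a i + ∑ j, lh j * hi a j := by
      rw [Fin.sum_univ_add, Fin.sum_univ_add]
      rfl
    rw [hsplit', hl]
    have h1 := hBβ (UU (hi a))
    rw [hWU] at h1
    have h2 : S1 f m (top (hi a)) = κ + ∑ j, UU (hi a) j * β j (UU (hi a)) - ∑ j, lh j * hi a j +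
        ∑ i : Fin ε, GG i (hi a) ^ 2 * (4 * lam)⁻¹ := by
      rw [← h1]; ring
    rw [h2]
    unfold quad
    have h3 : ∑ j, Φ a (Sum.inl j) * Φ a (Sum.inr (Sum.inl j)) =
        -∑ j : Fin r, lo a j * G f m (hi a) ((j : ℕ) + 1) + ∑ j, ll j * lo a j +
          ∑ j, UU (hi a) j * β j (UU (hi a)) := by
      rw [← Finset.sum_neg_distrib, ← Finset.sum_add_distrib, ← Finset.sum_add_distrib]
      refine Finset.sum_congr rfl fun j _ => ?_
      show UU (hi a) j * (lo a j + β j (UU (hi a))) = _
      have : UU (hi a) j = -G f m (hi a) ((j : ℕ) + 1) + ll j := rfl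
      rw [mul_add]
      congr 1
      rw [this]
      ring
    have h4 : ∑ i, Φ a (Sum.inr (Sum.inr i)) ^ 2 = lam * ∑ i : Fin ε, mi a i ^ 2 -
        ∑ i : Fin ε, mi a i * G f m (hi a) (r + 1) + ∑ i, lm i * mi a i +
          ∑ i : Fin ε, GG i (hi a) ^ 2 * (4 * lam)⁻¹ := by
      rw [Finset.mul_sum, ← Finset.sum_sub_distrib, ← Finset.sum_add_distrib, ← Finset.sum_add_distrib]
      refine Finset.sum_congr rfl fun i _ => ?_
      show (s * (mi a i - GG i (hi a) * (2 * lam)⁻¹)) ^ 2 = _
      obtain ⟨hn2, hnl, -⟩ := hne i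
      have h44 : (4 : k) ≠ 0 := by
        have : (4 : k) = 2 * 2 := by norm_num
        rw [this]; exact mul_ne_zero hn2 hn2
      rw [mul_pow, hs]
      have hG' : G f m (hi a) (r + 1) = GG i (hi a) + lm i := by
        simp only [hGG]
        ring
      rw [hG']
      field_simp
      ring
    rw [h3, h4]
    ring

end Pool.Agent.U436.AS
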