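import Pool.Agent.U436.AS.Herm

/-!
# The local normal form at a finite pole
-/

set_option autoImplicit false

namespace Pool.Agent.U436.AS

open Finset

variable {k : Type*} [Field k]

/-! ### Regular functions on the complement of the zeros of the functions `D i` -/

/-- A polynomial in the coordinates and the inverses of the functions `D i`, where these are not zero. -/
def IsReg {σ ι : Type*} (D : ι → (σ → k) → k) (F : (σ → k) → k) : Prop :=
  ∃ P : MvPolynomial (σ ⊕ ι) k, ∀ x, (∀ i, D i x ≠ 0) →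
    F x = MvPolynomial.eval (Sum.elim x fun i => (D i x)⁻¹) P

namespace IsReg

variable {σ τ ι : Type*} {D : ι → (σ → k) → k} {F G : (σ → k) → k}

lemma of_isPol (hF : IsPol F) : IsReg D F := by
  obtain ⟨P, hP⟩ := hF
  refine ⟨MvPolynomial.rename Sum.inl P, fun x _ => ?_⟩
  rw [MvPolynomial.eval_rename, hP]
  rfl

lemma const (c : k) : IsReg D fun _ : σ → k => c := of_isPol (IsPol.const c)

lemma coord (i : σ) : IsReg D fun x : σ → k => x i := of_isPol (IsPol.coord i)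

lemma inv (i : ι) : IsReg D fun x : σ → k => (D i x)⁻¹ :=
  ⟨MvPolynomial.X (Sum.inr i), fun x _ => by simp⟩

lemma comp_pol {F : (τ → k) → k} (hF : IsPol F) {Φ : (σ → k) → τ → k} (hΦ : ∀ i, IsReg D fun x => Φ x i) :
    IsReg D fun x => F (Φ x) := by
  obtain ⟨P, hP⟩ := hF
  choose Q hQ using hΦ
  refine ⟨MvPolynomial.bind₁ Q P, fun x hx => ?_⟩
  show F (Φ x) = _
  rw [hP, ← MvPolynomial.coe_aeval_eq_eval, ← MvPolynomial.coe_aeval_eq_eval]
  show MvPolynomial.aeval (Φ x) P = MvPolynomial.aeval _ _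
  rw [MvPolynomial.aeval_bind₁]
  congr 1
  congr 1
  funext i
  have := hQ i x hx
  simp only at this
  rw [this]
  rfl

lemma add (hF : IsReg D F) (hG : IsReg D G) : IsReg D fun x => F x + G x := by
  obtain ⟨P, hP⟩ := hF
  obtain ⟨Q, hQ⟩ := hG
  exact ⟨P + Q, fun x hx => by simp only [map_add, hP x hx, hQ x hx]⟩

lemma mul (hF : IsReg D F) (hG : IsReg D G) : IsReg D fun x => F x * G x := by
  obtain ⟨P, hP⟩ := hF
  obtain ⟨Q, hQ⟩ := hG
  exact ⟨P * Q, fun x hx => by simp only [map_mul, hP x hx, hQ x hx]⟩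

lemma sub (hF : IsReg D F) (hG : IsReg D G) : IsReg D fun x => F x - G x := by
  obtain ⟨P, hP⟩ := hF
  obtain ⟨Q, hQ⟩ := hG
  exact ⟨P - Q, fun x hx => by simp only [map_sub, hP x hx, hQ x hx]⟩

lemma neg (hF : IsReg D F) : IsReg D fun x => -F x := by
  obtain ⟨P, hP⟩ := hF
  exact ⟨-P, fun x hx => by simp only [map_neg, hP x hx]⟩

lemma sum {κ : Type*} (s : Finset κ) {F : κ → (σ → k) → k} (hF : ∀ i ∈ s, IsReg D (F i)) :
    IsReg D fun x => ∑ i ∈ s, F i x := by
  classical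
  induction s using Finset.induction_on with
  | empty => simpa using const (D := D) (0 : k)
  | insert a s ha ih =>
    have h1 := (hF a (mem_insert_self a s)).add (ih fun i hi => hF i (mem_insert_of_mem hi))
    refine Exists.imp (fun P hP x hx => ?_) h1
    simp only [Finset.sum_insert ha]
    exact hP x hx

lemma comp_reg {D : ι → (τ → k) → k} {F : (τ → k) → k} (hF : IsReg D F) {Θ : (σ → k) → τ → k}
    (hΘ : ∀ i, IsPol fun x => Θ x i) : IsReg (fun i x => D i (Θ x)) fun x => F (Θ x) := by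
  obtain ⟨P, hP⟩ := hF
  choose Q hQ using hΘ
  refine ⟨MvPolynomial.bind₁ (Sum.elim (fun s => MvPolynomial.rename Sum.inl (Q s))
    fun i => MvPolynomial.X (Sum.inr i)) P, fun x hx => ?_⟩
  show F (Θ x) = _
  rw [hP (Θ x) hx, ← MvPolynomial.coe_aeval_eq_eval, ← MvPolynomial.coe_aeval_eq_eval]
  show MvPolynomial.aeval _ P = MvPolynomial.aeval _ _
  rw [MvPolynomial.aeval_bind₁]
  congr 1
  congr 1
  funext i
  rcases i with s | i
  · have h1 := hQ s x
    simp only at h1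
    rw [Sum.elim_inl, Sum.elim_inl, h1, MvPolynomial.aeval_rename, Sum.elim_comp_inl,
      ← MvPolynomial.coe_aeval_eq_eval]
    rfl
  · simp

end IsReg

/-! ### The local coordinates -/

section local_

variable {d : ℕ}

/-- The normalized jets. -/
def hh (v : Fin (d + 1 + 1) → k) (j : Fin d) : k := v (Fin.succ (Fin.castSucc (Fin.rev j))) * (v 0)⁻¹

/-- The coordinate `t`. -/
def tt (ν l0 : k) (l : Fin d → k) (v : Fin (d + 1 + 1) → k) : k :=
  -ν * (v (Fin.last (d + 1)) * (v 0)⁻¹) - (l0 + ∑ j, l j * hh v j)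

/-- The inverse. -/
def vv (lam ν l0 : k) (l : Fin d → k) (h : Fin d → k) (t u : k) : Fin (d + 1 + 1) → k :=
  Fin.cons (u * lam⁻¹) (Fin.snoc (α := fun _ => k) (fun n => u * lam⁻¹ * h (Fin.rev n))
    (u * lam⁻¹ * (-(t + (l0 + ∑ j, l j * h j)) * ν⁻¹)))

lemma vv_zero (lam ν l0 : k) (l : Fin d → k) (h : Fin d → k) (t u : k) :
    vv lam ν l0 l h t u 0 = u * lam⁻¹ := rfl

lemma vv_mid (lam ν l0 : k) (l : Fin d → k) (h : Fin d → k) (t u : k) (n : Fin d) :
    vv lam ν l0 l h t u (Fin.succ (Fin.castSucc n)) = u * lam⁻¹ * h (Fin.rev n) := by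
  unfold vv
  rw [Fin.cons_succ, Fin.snoc_castSucc]

lemma vv_last (lam ν l0 : k) (l : Fin d → k) (h : Fin d → k) (t u : k) :
    vv lam ν l0 l h t u (Fin.last (d + 1)) = u * lam⁻¹ * (-(t + (l0 + ∑ j, l j * h j)) * ν⁻¹) := by
  unfold vv
  rw [← Fin.succ_last, Fin.cons_succ, Fin.snoc_last]

lemma hh_vv {lam ν l0 : k} (hlam : lam ≠ 0) {l : Fin d → k} {h : Fin d → k} {t u : k} (hu : u ≠ 0) :
    hh (vv lam ν l0 l h t u) = h := by
  funext j
  unfold hh
  rw [vv_mid, vv_zero, Fin.rev_rev]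
  field_simp

lemma tt_vv {lam ν l0 : k} (hlam : lam ≠ 0) (hν : ν ≠ 0) {l : Fin d → k} {h : Fin d → k} {t u : k}
    (hu : u ≠ 0) : tt ν l0 l (vv lam ν l0 l h t u) = t := by
  unfold tt
  rw [hh_vv hlam hu, vv_last, vv_zero]
  have h1 : u * lam⁻¹ ≠ 0 := mul_ne_zero hu (inv_ne_zero hlam)
  have h2 : -ν * (u * lam⁻¹ * (-(t + (l0 + ∑ j, l j * h j)) * ν⁻¹) * (u * lam⁻¹)⁻¹) =
      t + (l0 + ∑ j, l j * h j) := by
    rw [mul_comm (u * lam⁻¹), mul_assoc _ (u * lam⁻¹), mul_inv_cancel₀ h1, mul_one]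
    field_simp
  rw [h2]
  ring

lemma fin_cases_jet {P : Fin (d + 1 + 1) → Prop} (h0 : P 0) (h1 : ∀ n : Fin d, P (Fin.succ (Fin.castSucc n)))
    (h2 : P (Fin.last (d + 1))) (x : Fin (d + 1 + 1)) : P x := by
  refine Fin.cases h0 (fun y => ?_) x
  refine Fin.lastCases ?_ (fun n => h1 n) y
  rw [Fin.succ_last]
  exact h2

lemma vv_hh_tt {lam ν l0 : k} (hlam : lam ≠ 0) (hν : ν ≠ 0) {l : Fin d → k} {v : Fin (d + 1 + 1) → k}
    (hv : v 0 ≠ 0) : vv lam ν l0 l (hh v) (tt ν l0 l v) (lam * v 0) = v := by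
  funext x
  refine fin_cases_jet (P := fun x => vv lam ν l0 l (hh v) (tt ν l0 l v) (lam * v 0) x = v x) ?_ ?_ ?_ x
  · rw [vv_zero]
    field_simp
  · intro n
    rw [vv_mid]
    unfold hh
    rw [Fin.rev_rev]
    field_simp
  · rw [vv_last]
    unfold tt
    have h1 : -(-ν * (v (Fin.last (d + 1)) * (v 0)⁻¹) - (l0 + ∑ j, l j * hh v j) +
        (l0 + ∑ j, l j * hh v j)) = ν * (v (Fin.last (d + 1)) * (v 0)⁻¹) := by ring
    rw [h1]
    field_simp

end local_

/-! ### The local formula -/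

section formula

open PowerSeries

lemma coeff_rev {d : ℕ} (a : Fin d → k) (i : Fin d) : coeff (d - (i : ℕ)) (rev a) = a i := by
  unfold rev
  rw [map_add, coeff_one, if_neg (by have := i.2; omega), zero_add, map_sum, Finset.sum_eq_single i]
  · rw [coeff_C_mul, coeff_X_pow, if_pos rfl, mul_one]
  · intro j _ hij
    rw [coeff_C_mul, coeff_X_pow, if_neg, mul_zero]
    intro h
    exact hij (Fin.ext (by have := i.2; have := j.2; omega))
  · intro h
    exact absurd (mem_univ i) h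

lemma coeff_rev_of_lt {d : ℕ} (a : Fin d → k) {n : ℕ} (hn : d < n) : coeff n (rev a) = 0 := by
  unfold rev
  rw [map_add, coeff_one, if_neg (by omega), zero_add, map_sum]
  refine Finset.sum_eq_zero fun i _ => ?_
  rw [coeff_C_mul, coeff_X_pow, if_neg (by omega), mul_zero]

variable {r ε : ℕ}

/-- The local formula. -/
theorem local_form [IsAlgClosed k] (hε : ε ≤ 1) {f : Polynomial k} (hlc : f.coeff (r + ε + r + 1) ≠ 0)
    (hm : ((r + ε + r + 1 : ℕ) : k) ≠ 0) {μ : k} (hμ : μ ≠ 0) {K : Fin (r + ε + r + 1 + 1) → k}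
    (hK : K (Fin.last (r + ε + r + 1)) ≠ 0) :
    ∃ (lam ν l0 c0 : k) (l : Fin (r + ε + r) → k)
      (Φ : (Fin (r + ε + r) → k) → Fin r ⊕ Fin r ⊕ Fin ε → k), lam ≠ 0 ∧ ν ≠ 0 ∧ IsPolyEquiv Φ ∧
      ∀ (v : Fin (r + ε + r + 1 + 1) → k) (E : k⟦X⟧), v 0 ≠ 0 →
        (∀ j : Fin (r + ε + r + 1 + 1), coeff (j : ℕ) E = v j * (v 0)⁻¹) →
        S1 f (r + ε + r + 1) E - μ * ∑ j, v j * K j =
          c0 + quad (Φ (hh v)) + tt ν l0 l v * (1 - lam * v 0) := by
  set ν : k := ((r + ε + r + 1 : ℕ) : k) * f.coeff (r + ε + r + 1) with hν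
  have hν0 : ν ≠ 0 := mul_ne_zero hm hlc
  set Km := K (Fin.last (r + ε + r + 1)) with hKm
  set lam : k := -(μ * Km / ν) with hlam
  have hlam0 : lam ≠ 0 := neg_ne_zero.mpr (div_ne_zero (mul_ne_zero hμ hK) hν0)
  set l0 : k := ν / Km * K 0 with hl0
  set l : Fin (r + ε + r) → k := fun j => ν / Km * K (Fin.succ (Fin.castSucc (Fin.rev j))) with hl
  obtain ⟨κ, Φ, hΦ, hform⟩ := exists_equiv_lin hε hlc hm l
  refine ⟨lam, ν, l0, κ + l0, l, Φ, hlam0, hν0, hΦ, fun v E hv hE => ?_⟩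
  -- the expansion
  have hE0 : constantCoeff E = 1 := by
    rw [← coeff_zero_eq_constantCoeff_apply]
    have := hE 0
    rw [mul_inv_cancel₀ hv] at this
    exact this
  have hdvd : X ^ (r + ε + r + 1) ∣ E - rev (hh v) := by
    rw [X_pow_dvd_iff]
    intro n hn
    rw [map_sub]
    rcases Nat.eq_zero_or_pos n with rfl | hn0
    · rw [coeff_zero_eq_constantCoeff_apply, coeff_zero_eq_constantCoeff_apply, hE0, constantCoeff_rev,
        sub_self]
    · have h1 := coeff_rev (hh v) ⟨r + ε + r - n, by omega⟩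
      have h2 : r + ε + r - ((⟨r + ε + r - n, by omega⟩ : Fin (r + ε + r)) : ℕ) = n := by
        show r + ε + r - (r + ε + r - n) = n
        omega
      rw [h2] at h1
      have h3 := hE ⟨n, by omega⟩
      simp only at h3
      rw [h1, h3]
      unfold hh
      have h4 : (Fin.succ (Fin.castSucc (Fin.rev (⟨r + ε + r - n, by omega⟩ : Fin (r + ε + r)))) :
          Fin (r + ε + r + 1 + 1)) = ⟨n, by omega⟩ := by
        apply Fin.ext
        simp only [Fin.val_succ, Fin.val_castSucc, Fin.val_rev]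
        omega
      rw [h4, sub_self]
  have hS : S1 f (r + ε + r + 1) E = S1 f (r + ε + r + 1) (rev (hh v)) - ν * (v (Fin.last (r + ε + r + 1)) * (v 0)⁻¹) := by
    have h1 : E = rev (hh v) + (E - rev (hh v)) := by ring
    rw [h1, S1_add f (by omega) (constantCoeff_rev _) hdvd, map_sub, coeff_rev_of_lt _ (by omega), sub_zero]
    have h2 := hE (Fin.last (r + ε + r + 1))
    rw [Fin.val_last] at h2
    rw [h2]
  have hsum : ∑ j, v j * K j = v 0 * (K 0 + ∑ j, K (Fin.succ (Fin.castSucc (Fin.rev j))) * hh v j +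
      Km * (v (Fin.last (r + ε + r + 1)) * (v 0)⁻¹)) := by
    rw [Fin.sum_univ_succ, Fin.sum_univ_castSucc]
    have h1 : ∑ j, K (Fin.succ (Fin.castSucc (Fin.rev j))) * hh v j =
        (∑ n : Fin (r + ε + r), v (Fin.succ (Fin.castSucc n)) * K (Fin.succ (Fin.castSucc n))) * (v 0)⁻¹ := by
      rw [Finset.sum_mul, ← Equiv.sum_comp Fin.revPerm]
      refine Finset.sum_congr rfl fun j _ => ?_
      unfold hh
      rw [Fin.revPerm_apply]
      simp only [Fin.rev_rev]
      ring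
    rw [h1, Fin.succ_last]
    show v 0 * K 0 + (_ + v (Fin.last (r + ε + r + 1)) * K (Fin.last (r + ε + r + 1))) = _
    field_simp
    ring
  have hll : ∑ j, l j * hh v j = ν / Km * ∑ j, K (Fin.succ (Fin.castSucc (Fin.rev j))) * hh v j := by
    rw [Finset.mul_sum]
    refine Finset.sum_congr rfl fun j _ => ?_
    rw [hl]
    ring
  have hf := hform (hh v)
  rw [hS, hsum]
  unfold tt
  have hμν : μ * Km = -(lam * ν) := by
    rw [hlam]
    field_simp
  have hKm0 : Km ≠ 0 := hK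
  have hf' : S1 f (r + ε + r + 1) (rev (hh v)) = κ + quad (Φ (hh v)) - ∑ j, l j * hh v j := by
    rw [← hf]; ring
  rw [hf', hll, hl0]
  set sg := ∑ j, K (Fin.succ (Fin.castSucc (Fin.rev j))) * hh v j
  set hmm := v (Fin.last (r + ε + r + 1)) * (v 0)⁻¹
  have e1 : μ * (v 0 * (K 0 + sg + Km * hmm)) = (μ * Km) * v 0 * ((K 0 + sg) / Km + hmm) := by
    field_simp
  rw [e1, hμν]
  field_simp
  ring

end formula

end Pool.Agent.U436.AS
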