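import Pool.Agent.U436.AS.PS
import Pool.Agent.U436.NT.Main

/-!
# The sum of the values of a polynomial of degree `m` at the roots of the general monic polynomial of
degree `m - 1` is a nondegenerate quadratic form up to an automorphism of affine space
-/

set_option autoImplicit false

namespace Pool.Agent.U436.AS

open PowerSeries Finset

variable {k : Type*} [Field k] {r ε : ℕ}

/-! ### Reversed polynomials -/

lemma reflect_prod : ∀ (d : ℕ) (t : Fin d → k),
    Polynomial.reflect d (∏ j, (Polynomial.X - Polynomial.C (t j))) =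
      ∏ j, (1 - Polynomial.C (t j) * Polynomial.X) := by
  intro d
  induction d with
  | zero => intro t; simp
  | succ n ih =>
    intro t
    rw [Fin.prod_univ_castSucc, Fin.prod_univ_castSucc, Polynomial.reflect_mul _ _ _ _, ih]
    · congr 1
      have h1 : (Polynomial.X - Polynomial.C (t (Fin.last n)) : Polynomial k) =
          Polynomial.C 1 * Polynomial.X ^ 1 - Polynomial.C (t (Fin.last n)) * Polynomial.X ^ 0 := by simp
      rw [h1, Polynomial.reflect_sub, Polynomial.reflect_C_mul_X_pow, Polynomial.reflect_C_mul_X_pow,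
        Polynomial.revAt_le le_rfl, Polynomial.revAt_le (Nat.zero_le 1)]
      simp
    · rw [NT.natDegree_root]
    · exact Polynomial.natDegree_X_sub_C_le _

/-- The power series `1 + ∑ a i X ^ (d - i)`. -/
noncomputable def rev {d : ℕ} (a : Fin d → k) : k⟦X⟧ := 1 + ∑ i, C (a i) * X ^ (d - (i : ℕ))

lemma rev_cf {d : ℕ} (t : Fin d → k) : rev (NT.cf t) = ∏ j, (1 - C (t j) * X) := by
  have h1 : (∏ j, (Polynomial.X - Polynomial.C (t j))) =
      Polynomial.X ^ d + ∑ i : Fin d, Polynomial.C (NT.cf t i) * Polynomial.X ^ (i : ℕ) := by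
    have h2 := (NT.monic_root t).as_sum
    rw [NT.natDegree_root] at h2
    rw [Finset.sum_range] at h2
    exact h2
  have h3 := reflect_prod d t
  rw [h1, Polynomial.reflect_add] at h3
  have h4 : Polynomial.reflect d (Polynomial.X ^ d : Polynomial k) = 1 := by
    have : (Polynomial.X ^ d : Polynomial k) = Polynomial.C 1 * Polynomial.X ^ d := by simp
    rw [this, Polynomial.reflect_C_mul_X_pow, Polynomial.revAt_le le_rfl]
    simp
  have h5 : Polynomial.reflect d (∑ i : Fin d, Polynomial.C (NT.cf t i) * Polynomial.X ^ (i : ℕ)) =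
      ∑ i : Fin d, Polynomial.C (NT.cf t i) * Polynomial.X ^ (d - (i : ℕ)) := by
    have hs : ∀ s : Finset (Fin d), Polynomial.reflect d (∑ i ∈ s, Polynomial.C (NT.cf t i) * Polynomial.X ^ (i : ℕ)) =
        ∑ i ∈ s, Polynomial.C (NT.cf t i) * Polynomial.X ^ (d - (i : ℕ)) := by
      classical
      intro s
      induction s using Finset.induction_on with
      | empty => simp
      | insert a s ha ih =>
        rw [Finset.sum_insert ha, Finset.sum_insert ha, Polynomial.reflect_add, ih,
          Polynomial.reflect_C_mul_X_pow, Polynomial.revAt_le a.2.le]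
    exact hs _
  rw [h4, h5] at h3
  have h6 := congrArg (Polynomial.coeToPowerSeries.ringHom (R := k)) h3
  unfold rev
  simpa only [map_add, map_one, map_sum, map_mul, map_pow, map_prod, map_sub,
    Polynomial.coeToPowerSeries.ringHom_apply, Polynomial.coe_C, Polynomial.coe_X] using h6

/-! ### The functional -/

/-- The reversed derivative of `f`, with respect to the degree `m`. -/
noncomputable def phi (f : Polynomial k) (m : ℕ) : k⟦X⟧ :=
  PowerSeries.mk fun i => ((m - i : ℕ) : k) * f.coeff (m - i)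

/-- The sum of the values of `f` at the roots of the polynomial of degree `d` with reversed polynomial `E`. -/
noncomputable def Sf (f : Polynomial k) (d m : ℕ) (E : k⟦X⟧) : k :=
  d * f.coeff 0 - ∑ i ∈ range m, f.coeff (i + 1) * coeff i (ld E)

lemma Sf_prod (f : Polynomial k) {d m : ℕ} (hf : f.natDegree ≤ m) (t : Fin d → k) :
    Sf f d m (∏ j, (1 - C (t j) * X)) = ∑ j, f.eval (t j) := by
  unfold Sf
  have h1 : ∀ j, f.eval (t j) = (∑ i ∈ range m, f.coeff (i + 1) * t j ^ (i + 1)) + f.coeff 0 := by
    intro j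
    rw [Polynomial.eval_eq_sum_range' (lt_of_le_of_lt hf (Nat.lt_succ_self m)), Finset.sum_range_succ']
    simp
  simp only [h1, coeff_ld_prod]
  rw [Finset.sum_add_distrib, Finset.sum_const, Finset.card_univ, Fintype.card_fin, nsmul_eq_mul,
    Finset.sum_comm, sub_eq_add_neg, ← Finset.sum_neg_distrib, add_comm]
  congr 1
  refine Finset.sum_congr rfl fun i _ => ?_
  rw [mul_neg, neg_neg, Finset.mul_sum]

lemma sum_phi (f : Polynomial k) (m : ℕ) (δ : k⟦X⟧) :
    ∑ i ∈ range m, f.coeff (i + 1) * (((i : k) + 1) * coeff (i + 1) δ) = coeff m (phi f m * δ) := by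
  rw [PowerSeries.coeff_mul, Finset.Nat.sum_antidiagonal_eq_sum_range_succ_mk]
  have h1 : ∑ i ∈ range (m + 1), coeff (i, m - i).1 (phi f m) * coeff (i, m - i).2 δ =
      ∑ i ∈ range (m + 1), (fun b => ((b : ℕ) : k) * f.coeff b * coeff b δ) (m - i) := by
    refine Finset.sum_congr rfl fun i _ => ?_
    show coeff i (phi f m) * coeff (m - i) δ = _
    unfold phi
    rw [coeff_mk]
  rw [Nat.succ_eq_add_one, h1, Finset.sum_flip (fun b : ℕ => ((b : ℕ) : k) * f.coeff b * coeff b δ),
    Finset.sum_range_succ']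
  simp only [Nat.cast_zero, zero_mul, add_zero]
  refine Finset.sum_congr rfl fun i _ => ?_
  push_cast
  ring

/-- The part of the general polynomial with the `r` highest coefficients. -/
noncomputable def top (τ : Fin r → k) : k⟦X⟧ := 1 + ∑ j, C (τ j) * X ^ (r - (j : ℕ))

lemma constantCoeff_top (τ : Fin r → k) : constantCoeff (top τ) = 1 := by
  unfold top
  rw [map_add, map_one, map_sum, Finset.sum_eq_zero, add_zero]
  intro j _
  rw [map_mul, map_pow, constantCoeff_X, zero_pow (by have := j.2; omega), mul_zero]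

lemma coeff_top (τ : Fin r → k) (j : Fin r) : coeff (r - (j : ℕ)) (top τ) = τ j := by
  unfold top
  rw [map_add, coeff_one, if_neg (by have := j.2; omega), zero_add, map_sum,
    Finset.sum_eq_single j]
  · rw [coeff_C_mul, coeff_X_pow, if_pos rfl, mul_one]
  · intro i _ hij
    rw [coeff_C_mul, coeff_X_pow, if_neg, mul_zero]
    intro h
    exact hij (Fin.ext (by have := i.2; have := j.2; omega))
  · intro h
    exact absurd (mem_univ j) h

/-- The rest of the general polynomial. -/
noncomputable def rest (b : Fin r → k) (e : Fin ε → k) : k⟦X⟧ :=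
  ∑ j, C (b j) * X ^ (r + ε + r - (j : ℕ)) + ∑ i, C (e i) * X ^ (r + 1)

/-- The lowest coefficients. -/
def lo (a : Fin (r + ε + r) → k) (j : Fin r) : k := a (Fin.castAdd r (Fin.castAdd ε j))

/-- The middle coefficient (if `ε = 1`). -/
def mi (a : Fin (r + ε + r) → k) (i : Fin ε) : k := a (Fin.castAdd r (Fin.natAdd r i))

/-- The highest coefficients. -/
def hi (a : Fin (r + ε + r) → k) (j : Fin r) : k := a (Fin.natAdd (r + ε) j)

lemma rev_split (hε : ε ≤ 1) (a : Fin (r + ε + r) → k) : rev a = top (hi a) + rest (lo a) (mi a) := by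
  unfold rev top rest lo mi hi
  rw [Fin.sum_univ_add, Fin.sum_univ_add]
  have h1 : ∀ i : Fin ε, C (a (Fin.castAdd r (Fin.natAdd r i))) *
      (X : k⟦X⟧) ^ (r + ε + r - ((Fin.castAdd r (Fin.natAdd r i) : Fin (r + ε + r)) : ℕ)) =
      C (a (Fin.castAdd r (Fin.natAdd r i))) * X ^ (r + 1) := by
    intro i
    congr 2
    have := i.2
    simp only [Fin.val_castAdd, Fin.val_natAdd]
    omega
  have h2 : ∀ j : Fin r, C (a (Fin.natAdd (r + ε) j)) *
      (X : k⟦X⟧) ^ (r + ε + r - ((Fin.natAdd (r + ε) j : Fin (r + ε + r)) : ℕ)) =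
      C (a (Fin.natAdd (r + ε) j)) * X ^ (r - (j : ℕ)) := by
    intro j
    congr 2
    simp only [Fin.val_natAdd]
    omega
  rw [Finset.sum_congr rfl fun i _ => h1 i, Finset.sum_congr rfl fun j _ => h2 j]
  simp only [Fin.val_castAdd]
  ring

lemma dvd_rest (b : Fin r → k) (e : Fin ε → k) : X ^ (r + 1) ∣ rest b e := by
  unfold rest
  refine dvd_add (Finset.dvd_sum fun j _ => ?_) (Finset.dvd_sum fun i _ => dvd_mul_left _ _)
  exact Dvd.dvd.mul_left (pow_dvd_pow X (by have := j.2; omega)) _

/-- The coefficients of the reversed derivative divided by the highest part. -/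
noncomputable def G (f : Polynomial k) (m : ℕ) (τ : Fin r → k) (n : ℕ) : k :=
  coeff n (phi f m * (top τ)⁻¹)

/-- The main formula. -/
theorem Sf_split (hε : ε ≤ 1) (f : Polynomial k) (a : Fin (r + ε + r) → k) :
    Sf f (r + ε + r) (r + ε + r + 1) (rev a) = Sf f (r + ε + r) (r + ε + r + 1) (top (hi a)) -
      ∑ j : Fin r, lo a j * G f (r + ε + r + 1) (hi a) ((j : ℕ) + 1) -
      ∑ i : Fin ε, mi a i * G f (r + ε + r + 1) (hi a) (r + 1) +
      f.coeff (r + ε + r + 1) * ((r : k) + 1) * ∑ i : Fin ε, mi a i ^ 2 := by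
  set m := r + ε + r + 1 with hm
  rw [rev_split hε]
  have h1 : ∀ i ∈ range m, f.coeff (i + 1) * coeff i (ld (top (hi a) + rest (lo a) (mi a))) =
      f.coeff (i + 1) * coeff i (ld (top (hi a))) +
        f.coeff (i + 1) * (((i : k) + 1) * coeff (i + 1) (rest (lo a) (mi a) * (top (hi a))⁻¹)) -
        (if i = 2 * r + 1 then f.coeff (i + 1) * (((r : k) + 1) * coeff (r + 1) (rest (lo a) (mi a)) ^ 2)
          else 0) := by
    intro i hi'
    rw [coeff_ld_add (constantCoeff_top _) (dvd_rest _ _) (by have := mem_range.mp hi'; omega)]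
    split_ifs <;> ring
  unfold Sf
  rw [Finset.sum_congr rfl h1, Finset.sum_sub_distrib, Finset.sum_add_distrib, sum_phi]
  have h2 : coeff m (phi f m * (rest (lo a) (mi a) * (top (hi a))⁻¹)) =
      ∑ j : Fin r, lo a j * G f m (hi a) ((j : ℕ) + 1) + ∑ i : Fin ε, mi a i * G f m (hi a) (r + 1) := by
    have e1 : phi f m * (rest (lo a) (mi a) * (top (hi a))⁻¹) =
        (phi f m * (top (hi a))⁻¹) * rest (lo a) (mi a) := by ring
    rw [e1]
    unfold rest
    rw [mul_add, map_add, Finset.mul_sum, Finset.mul_sum, map_sum, map_sum]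
    congr 1
    · refine Finset.sum_congr rfl fun j _ => ?_
      have e2 : phi f m * (top (hi a))⁻¹ * (C (lo a j) * X ^ (r + ε + r - (j : ℕ))) =
          C (lo a j) * (phi f m * (top (hi a))⁻¹ * X ^ (r + ε + r - (j : ℕ))) := by ring
      rw [e2, coeff_C_mul, coeff_mul_X_pow', if_pos (by omega)]
      unfold G
      have := j.2
      rw [show m - (r + ε + r - (j : ℕ)) = (j : ℕ) + 1 by omega]
    · refine Finset.sum_congr rfl fun i _ => ?_
      have e2 : phi f m * (top (hi a))⁻¹ * (C (mi a i) * X ^ (r + 1)) =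
          C (mi a i) * (phi f m * (top (hi a))⁻¹ * X ^ (r + 1)) := by ring
      rw [e2, coeff_C_mul, coeff_mul_X_pow', if_pos (by omega)]
      unfold G
      have := i.2
      rw [show m - (r + 1) = r + 1 by omega]
  have h3 : ∑ i ∈ range m, (if i = 2 * r + 1 then f.coeff (i + 1) * (((r : k) + 1) *
      coeff (r + 1) (rest (lo a) (mi a)) ^ 2) else 0) =
      f.coeff m * ((r : k) + 1) * ∑ i : Fin ε, mi a i ^ 2 := by
    rcases Nat.le_one_iff_eq_zero_or_eq_one.mp hε with rfl | rfl
    · rw [Finset.sum_eq_zero]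
      · simp
      · intro i hi'
        rw [if_neg (by have := mem_range.mp hi'; omega)]
    · rw [Finset.sum_ite_eq' (range m) (2 * r + 1), if_pos (mem_range.mpr (by omega))]
      have e3 : coeff (r + 1) (rest (lo a) (mi a)) = mi a 0 := by
        unfold rest
        rw [map_add, map_sum, Finset.sum_eq_zero, zero_add, map_sum]
        · simp [coeff_X_pow]
        · intro j _
          rw [coeff_C_mul, coeff_X_pow, if_neg (by have := j.2; omega), mul_zero]
      rw [e3, show 2 * r + 1 + 1 = m by omega]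
      simp
      ring
  rw [h2, h3]
  ring

end Pool.Agent.U436.AS
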