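import Mathlib

/-!
# Logarithmic derivatives of power series and power sums
-/

set_option autoImplicit false

namespace Pool.Agent.U436.AS

open PowerSeries Finset

variable {k : Type*} [Field k]

/-- A polynomial function on `k ^ σ`. -/
def IsPol {σ : Type*} (F : (σ → k) → k) : Prop :=
  ∃ P : MvPolynomial σ k, ∀ x, F x = MvPolynomial.eval x P

namespace IsPol

variable {σ τ : Type*} {F G : (σ → k) → k}

lemma const (c : k) : IsPol fun _ : σ → k => c := ⟨MvPolynomial.C c, fun x => by simp⟩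

lemma coord (i : σ) : IsPol fun x : σ → k => x i := ⟨MvPolynomial.X i, fun x => by simp⟩

lemma add (hF : IsPol F) (hG : IsPol G) : IsPol fun x => F x + G x := by
  obtain ⟨P, hP⟩ := hF
  obtain ⟨Q, hQ⟩ := hG
  exact ⟨P + Q, fun x => by simp only [map_add, hP, hQ]⟩

lemma mul (hF : IsPol F) (hG : IsPol G) : IsPol fun x => F x * G x := by
  obtain ⟨P, hP⟩ := hF
  obtain ⟨Q, hQ⟩ := hG
  exact ⟨P * Q, fun x => by simp only [map_mul, hP, hQ]⟩

lemma sub (hF : IsPol F) (hG : IsPol G) : IsPol fun x => F x - G x := by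
  obtain ⟨P, hP⟩ := hF
  obtain ⟨Q, hQ⟩ := hG
  exact ⟨P - Q, fun x => by simp only [map_sub, hP, hQ]⟩

lemma neg (hF : IsPol F) : IsPol fun x => -F x := by
  obtain ⟨P, hP⟩ := hF
  exact ⟨-P, fun x => by simp only [map_neg, hP]⟩

lemma pow (hF : IsPol F) (n : ℕ) : IsPol fun x => F x ^ n := by
  obtain ⟨P, hP⟩ := hF
  exact ⟨P ^ n, fun x => by simp only [map_pow, hP]⟩

lemma sum {ι : Type*} (s : Finset ι) {F : ι → (σ → k) → k} (hF : ∀ i ∈ s, IsPol (F i)) :
    IsPol fun x => ∑ i ∈ s, F i x := by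
  classical
  induction s using Finset.induction_on with
  | empty => simpa using const (σ := σ) (0 : k)
  | insert a s ha ih =>
    have h1 := (hF a (mem_insert_self a s)).add (ih fun i hi => hF i (mem_insert_of_mem hi))
    refine Exists.imp (fun P hP x => ?_) h1
    simp only [Finset.sum_insert ha]
    exact hP x

lemma comp {F : (σ → k) → k} (hF : IsPol F) {Φ : (τ → k) → σ → k} (hΦ : ∀ i, IsPol fun x => Φ x i) :
    IsPol fun x => F (Φ x) := by
  obtain ⟨P, hP⟩ := hF
  choose Q hQ using hΦ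
  refine ⟨MvPolynomial.bind₁ Q P, fun x => ?_⟩
  show F (Φ x) = _
  rw [hP, ← MvPolynomial.coe_aeval_eq_eval, ← MvPolynomial.coe_aeval_eq_eval]
  show MvPolynomial.aeval (Φ x) P = MvPolynomial.aeval x _
  rw [MvPolynomial.aeval_bind₁]
  congr 1
  congr 1
  funext i
  have := hQ i x
  simp only at this
  rw [this]
  rfl

end IsPol

/-- A polynomial family of power series. -/
def IsPolS {σ : Type*} (F : (σ → k) → k⟦X⟧) : Prop := ∀ n, IsPol fun x => coeff n (F x)

namespace IsPolS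

variable {σ : Type*} {F G : (σ → k) → k⟦X⟧}

lemma const (c : k⟦X⟧) : IsPolS fun _ : σ → k => c := fun _ => IsPol.const _

lemma add (hF : IsPolS F) (hG : IsPolS G) : IsPolS fun x => F x + G x := by
  intro n
  simpa only [map_add] using (hF n).add (hG n)

lemma neg (hF : IsPolS F) : IsPolS fun x => -F x := by
  intro n
  simpa only [map_neg] using (hF n).neg

lemma sub (hF : IsPolS F) (hG : IsPolS G) : IsPolS fun x => F x - G x := by
  intro n
  simpa only [map_sub] using (hF n).sub (hG n)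

lemma mul (hF : IsPolS F) (hG : IsPolS G) : IsPolS fun x => F x * G x := by
  intro n
  simp only [coeff_mul]
  exact IsPol.sum _ fun i _ => (hF _).mul (hG _)

lemma sum {ι : Type*} (s : Finset ι) {F : ι → (σ → k) → k⟦X⟧} (hF : ∀ i ∈ s, IsPolS (F i)) :
    IsPolS fun x => ∑ i ∈ s, F i x := by
  intro n
  simp only [map_sum]
  exact IsPol.sum _ fun i hi => hF i hi n

lemma C_mul {f : (σ → k) → k} (hf : IsPol f) (hF : IsPolS F) : IsPolS fun x => C (f x) * F x := by
  intro n
  simp only [coeff_C_mul]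
  exact hf.mul (hF n)

lemma deriv (hF : IsPolS F) : IsPolS fun x => d⁄dX k (F x) := by
  intro n
  simp only [coeff_derivative]
  exact (hF _).mul (IsPol.const _)

lemma inv (hF : IsPolS F) {c : k} (hc : ∀ x, constantCoeff (F x) = c) : IsPolS fun x => (F x)⁻¹ := by
  intro n
  induction n using Nat.strong_induction_on with
  | _ n ih =>
    rcases Nat.eq_zero_or_pos n with rfl | hn
    · refine Exists.imp (fun P hP x => ?_) (IsPol.const (σ := σ) c⁻¹)
      show coeff 0 (F x)⁻¹ = _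
      rw [coeff_inv, if_pos rfl, hc]
      exact hP x
    · have h1 : IsPol fun x => -c⁻¹ * ∑ p ∈ (antidiagonal n).filter (fun p => p.2 < n),
          coeff p.1 (F x) * coeff p.2 (F x)⁻¹ := by
        refine (IsPol.const _).mul (IsPol.sum _ fun p hp => (hF _).mul (ih _ ?_))
        exact (Finset.mem_filter.mp hp).2
      refine Exists.imp (fun P hP x => ?_) h1
      show coeff n (F x)⁻¹ = _
      rw [coeff_inv, if_neg hn.ne', hc, ← hP x]
      simp only [Finset.sum_filter]

end IsPolS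

/-- The logarithmic derivative. -/
noncomputable def ld (E : k⟦X⟧) : k⟦X⟧ := d⁄dX k E * E⁻¹

lemma ld_mul {E F : k⟦X⟧} (hE : constantCoeff E ≠ 0) (hF : constantCoeff F ≠ 0) :
    ld (E * F) = ld E + ld F := by
  have h1 : E * E⁻¹ = 1 := PowerSeries.mul_inv_cancel E hE
  have h2 : F * F⁻¹ = 1 := PowerSeries.mul_inv_cancel F hF
  unfold ld
  rw [Derivation.leibniz, PowerSeries.mul_inv_rev, smul_eq_mul, smul_eq_mul]
  linear_combination (d⁄dX k F) * F⁻¹ * h1 + (d⁄dX k E) * E⁻¹ * h2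

lemma ld_one : ld (1 : k⟦X⟧) = 0 := by
  unfold ld
  rw [Derivation.map_one_eq_zero, zero_mul]

lemma constantCoeff_lin (t : k) : constantCoeff (1 - C t * X : k⟦X⟧) = 1 := by simp

lemma coeff_ld_lin (t : k) (n : ℕ) : coeff n (ld (1 - C t * X : k⟦X⟧)) = -t ^ (n + 1) := by
  have h1 : (1 - C t * X : k⟦X⟧) * (1 - C t * X)⁻¹ = 1 :=
    PowerSeries.mul_inv_cancel _ (by rw [constantCoeff_lin]; exact one_ne_zero)
  have h2 : d⁄dX k (1 - C t * X : k⟦X⟧) = (PowerSeries.mk fun n => -t ^ (n + 1)) * (1 - C t * X) := by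
    ext m
    rw [coeff_derivative, mul_sub, mul_one, map_sub, map_sub, coeff_mk]
    rcases m with _ | m
    · simp
    · have e1 : (PowerSeries.mk fun n => -t ^ (n + 1)) * (C t * X) =
          C t * ((PowerSeries.mk fun n => -t ^ (n + 1)) * X) := by ring
      rw [e1, coeff_C_mul, coeff_C_mul, coeff_succ_mul_X, coeff_mk, coeff_one, if_neg (by omega),
        coeff_X, if_neg (by omega)]
      ring
  unfold ld
  rw [h2, mul_assoc, h1, mul_one, coeff_mk]

/-- Power sums are the coefficients of the logarithmic derivative. -/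
lemma coeff_ld_prod {ι : Type*} (s : Finset ι) (t : ι → k) (n : ℕ) :
    coeff n (ld (∏ j ∈ s, (1 - C (t j) * X : k⟦X⟧))) = -∑ j ∈ s, t j ^ (n + 1) := by
  classical
  induction s using Finset.induction_on with
  | empty => simp [ld_one]
  | insert a s ha ih =>
    rw [Finset.prod_insert ha, ld_mul, map_add, ih, coeff_ld_lin, Finset.sum_insert ha]
    · ring
    · rw [constantCoeff_lin]; exact one_ne_zero
    · rw [map_prod]
      simp only [constantCoeff_lin, Finset.prod_const_one]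
      exact one_ne_zero

/-- The perturbation lemma. -/
lemma coeff_ld_add {E Δ : k⟦X⟧} {r : ℕ} (hE : constantCoeff E = 1) (hΔ : X ^ (r + 1) ∣ Δ) {i : ℕ}
    (hi : i ≤ 2 * r + 1) :
    coeff i (ld (E + Δ)) = coeff i (ld E) + ((i : k) + 1) * coeff (i + 1) (Δ * E⁻¹) -
      (if i = 2 * r + 1 then ((r : k) + 1) * coeff (r + 1) Δ ^ 2 else 0) := by
  have hE0 : constantCoeff E ≠ 0 := by rw [hE]; exact one_ne_zero
  have h1 : E * E⁻¹ = 1 := PowerSeries.mul_inv_cancel E hE0
  obtain ⟨Δ', rfl⟩ := hΔ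
  set η : k⟦X⟧ := Δ' * E⁻¹ with hη
  have hδ : X ^ (r + 1) * Δ' * E⁻¹ = X ^ (r + 1) * η := by rw [hη]; ring
  have hsplit : E + X ^ (r + 1) * Δ' = E * (1 + X ^ (r + 1) * η) := by
    rw [hη]
    linear_combination -(X ^ (r + 1) * Δ') * h1
  have hc : constantCoeff (1 + X ^ (r + 1) * η) = 1 := by simp
  have hc0 : constantCoeff (1 + X ^ (r + 1) * η) ≠ 0 := by rw [hc]; exact one_ne_zero
  have h2 : (1 + X ^ (r + 1) * η) * (1 + X ^ (r + 1) * η)⁻¹ = 1 := PowerSeries.mul_inv_cancel _ hc0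
  have hder : d⁄dX k (1 + X ^ (r + 1) * η) = X ^ r * (((r : k⟦X⟧) + 1) * η + X * d⁄dX k η) := by
    rw [map_add, Derivation.map_one_eq_zero, Derivation.leibniz, Derivation.leibniz_pow]
    simp only [smul_eq_mul, PowerSeries.derivative_X, nsmul_eq_mul]
    push_cast
    ring
  have hld : ld (1 + X ^ (r + 1) * η) = d⁄dX k (X ^ (r + 1) * η) -
      X ^ (2 * r + 1) * (((r : k⟦X⟧) + 1) * η ^ 2 + X * (η * d⁄dX k η)) +
      X ^ (2 * r + 2) * (X ^ r * ((((r : k⟦X⟧) + 1) * η + X * d⁄dX k η) * η ^ 2 *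
        (1 + X ^ (r + 1) * η)⁻¹)) := by
    have hder' : d⁄dX k (X ^ (r + 1) * η) = X ^ r * (((r : k⟦X⟧) + 1) * η + X * d⁄dX k η) := by
      rw [← hder, map_add, Derivation.map_one_eq_zero, zero_add]
    unfold ld
    rw [hder, hder']
    linear_combination (X ^ r * (((r : k⟦X⟧) + 1) * η + X * d⁄dX k η) * (1 - X ^ (r + 1) * η)) * h2
  have hη0 : coeff 0 η = coeff (r + 1) (X ^ (r + 1) * Δ') := by
    rw [hη, PowerSeries.coeff_X_pow_mul', if_pos le_rfl, Nat.sub_self, PowerSeries.coeff_mul]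
    rw [Finset.HasAntidiagonal.antidiagonal_zero, Finset.sum_singleton]
    show coeff 0 Δ' * coeff 0 E⁻¹ = _
    rw [coeff_inv, if_pos rfl, hE, inv_one, mul_one]
  rw [hsplit, ld_mul hE0 hc0, map_add, hδ, hld, map_add, map_sub, coeff_derivative,
    PowerSeries.coeff_X_pow_mul' _ (2 * r + 2), if_neg (by omega), PowerSeries.coeff_X_pow_mul' _ (2 * r + 1)]
  by_cases h : i = 2 * r + 1
  · rw [if_pos h.ge, if_pos h, h, Nat.sub_self]
    have e1 : coeff 0 (((r : k⟦X⟧) + 1) * η ^ 2 + X * (η * d⁄dX k η)) =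
        ((r : k) + 1) * coeff (r + 1) (X ^ (r + 1) * Δ') ^ 2 := by
      rw [← hη0]
      simp
    rw [e1]
    ring
  · rw [if_neg (by omega), if_neg h]
    ring

end Pool.Agent.U436.AS
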