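import Pool.Agent.U436.AS.Gen
import Pool.Agent.U436.AS.Curve

/-!
# The normal form `A (z) = ∑ a j * b j` for all pole orders, if their number `d` is even
-/

set_option autoImplicit false

namespace Pool.Agent.U436.AS

open Finset

variable {k : Type*} [Field k] {N : ℕ} {r0 ε0 s : ℕ} {r ε : Fin N → ℕ}

/-- The indices of the hyperbolic planes: `r0` for the pole at infinity, `r i` and one more (the last plane of the pole
`i`) for the pole `i`, and `s` planes which come from the squares. -/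
abbrev JJ (r0 : ℕ) (r : Fin N → ℕ) (s : ℕ) : Type := Fin r0 ⊕ ((Σ i : Fin N, Fin (r i)) ⊕ (Fin N ⊕ Fin s))

/-- The index of the last plane of the pole `i`. -/
def pl (i : Fin N) : JJ r0 r s := Sum.inr (Sum.inr (Sum.inl i))

/-- The index of the planes from the squares. -/
def ps (t : Fin s) : JJ r0 r s := Sum.inr (Sum.inr (Sum.inr t))

/-- The indices of the squares. -/
abbrev WW (ε0 : ℕ) (ε : Fin N → ℕ) : Type := Fin ε0 ⊕ (Σ i : Fin N, Fin (ε i))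

/-- The coordinates which occur as squares. -/
def wv (y : TT r0 ε0 r ε 0 → k) : WW ε0 ε → k
  | Sum.inl j => y (Sum.inl (Sum.inr (Sum.inr j)))
  | Sum.inr ⟨i, j⟩ => y (Sum.inr (Sum.inl ⟨i, Sum.inr (Sum.inr j)⟩))

/-- The coordinates of the normal form as `(a, b)`. -/
def toAB (e : WW ε0 ε ≃ Fin s ⊕ Fin s) (ii : k) (y : TT r0 ε0 r ε 0 → k) : JJ r0 r s ⊕ JJ r0 r s → k
  | Sum.inl (Sum.inl j) => y (Sum.inl (Sum.inl j))
  | Sum.inl (Sum.inr (Sum.inl ⟨i, j⟩)) => y (Sum.inr (Sum.inl ⟨i, Sum.inl j⟩))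
  | Sum.inl (Sum.inr (Sum.inr (Sum.inl i))) => ct y i
  | Sum.inl (Sum.inr (Sum.inr (Sum.inr t))) => wv y (e.symm (Sum.inl t)) + ii * wv y (e.symm (Sum.inr t))
  | Sum.inr (Sum.inl j) => y (Sum.inl (Sum.inr (Sum.inl j)))
  | Sum.inr (Sum.inr (Sum.inl ⟨i, j⟩)) => y (Sum.inr (Sum.inl ⟨i, Sum.inr (Sum.inl j)⟩))
  | Sum.inr (Sum.inr (Sum.inr (Sum.inl i))) => 1 - cu (Sum.inl i) y
  | Sum.inr (Sum.inr (Sum.inr (Sum.inr t))) => wv y (e.symm (Sum.inl t)) - ii * wv y (e.symm (Sum.inr t))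

/-- The square coordinates from the planes. -/
def sqv (e : WW ε0 ε ≃ Fin s ⊕ Fin s) (ii : k) (x : JJ r0 r s ⊕ JJ r0 r s → k) (w : WW ε0 ε) : k :=
  Sum.elim (fun t => (2 : k)⁻¹ * (x (Sum.inl (ps t)) + x (Sum.inr (ps t))))
    (fun t => (2 * ii)⁻¹ * (x (Sum.inl (ps t)) - x (Sum.inr (ps t)))) (e w)

/-- The inverse. -/
def ofAB (e : WW ε0 ε ≃ Fin s ⊕ Fin s) (ii : k) (x : JJ r0 r s ⊕ JJ r0 r s → k) : TT r0 ε0 r ε 0 → k
  | Sum.inl (Sum.inl j) => x (Sum.inl (Sum.inl j))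
  | Sum.inl (Sum.inr (Sum.inl j)) => x (Sum.inr (Sum.inl j))
  | Sum.inl (Sum.inr (Sum.inr j)) => sqv e ii x (Sum.inl j)
  | Sum.inr (Sum.inl ⟨i, Sum.inl j⟩) => x (Sum.inl (Sum.inr (Sum.inl ⟨i, j⟩)))
  | Sum.inr (Sum.inl ⟨i, Sum.inr (Sum.inl j)⟩) => x (Sum.inr (Sum.inr (Sum.inl ⟨i, j⟩)))
  | Sum.inr (Sum.inl ⟨i, Sum.inr (Sum.inr j)⟩) => sqv e ii x (Sum.inr ⟨i, j⟩)
  | Sum.inr (Sum.inr (Sum.inl i)) => x (Sum.inl (pl i))
  | Sum.inr (Sum.inr (Sum.inr (Sum.inl i))) => 1 - x (Sum.inr (pl i))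

lemma sqv_toAB {e : WW ε0 ε ≃ Fin s ⊕ Fin s} {ii : k} (hii : ii ^ 2 = -1) (h2 : WW ε0 ε → (2 : k) ≠ 0)
    (y : TT r0 ε0 r ε 0 → k) (w : WW ε0 ε) : sqv e ii (toAB e ii y) w = wv y w := by
  have h2' := h2 w
  have hii0 : ii ≠ 0 := by
    rintro rfl
    have : (0 : k) = -1 := by rw [← hii]; norm_num
    exact one_ne_zero (neg_eq_zero.mp this.symm)
  obtain ⟨v, rfl⟩ := e.symm.surjective w
  unfold sqv
  rw [e.apply_symm_apply]
  rcases v with t | t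
  · show (2 : k)⁻¹ * ((wv y (e.symm (Sum.inl t)) + ii * wv y (e.symm (Sum.inr t))) +
      (wv y (e.symm (Sum.inl t)) - ii * wv y (e.symm (Sum.inr t)))) = _
    field_simp
    ring
  · show (2 * ii)⁻¹ * ((wv y (e.symm (Sum.inl t)) + ii * wv y (e.symm (Sum.inr t))) -
      (wv y (e.symm (Sum.inl t)) - ii * wv y (e.symm (Sum.inr t)))) = _
    field_simp
    ring

lemma wv_ofAB {e : WW ε0 ε ≃ Fin s ⊕ Fin s} {ii : k} (x : JJ r0 r s ⊕ JJ r0 r s → k) (w : WW ε0 ε) :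
    wv (ofAB e ii x) w = sqv e ii x w := by
  rcases w with j | ⟨i, j⟩ <;> rfl

lemma ofAB_toAB {e : WW ε0 ε ≃ Fin s ⊕ Fin s} {ii : k} (hii : ii ^ 2 = -1) (h2 : WW ε0 ε → (2 : k) ≠ 0)
    (y : TT r0 ε0 r ε 0 → k) : ofAB e ii (toAB e ii y) = y := by
  funext q
  rcases q with (j | j | j) | ⟨i, (j | j | j)⟩ | i | (i | j)
  · rfl
  · rfl
  · exact sqv_toAB hii h2 y (Sum.inl j)
  · rfl
  · rfl
  · exact sqv_toAB hii h2 y (Sum.inr ⟨i, j⟩)
  · rfl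
  · show 1 - (1 - cu (Sum.inl i) y) = _
    rw [sub_sub_cancel]
    rfl
  · exact j.elim0

lemma toAB_ofAB {e : WW ε0 ε ≃ Fin s ⊕ Fin s} {ii : k} (hii : ii ^ 2 = -1) (h2 : WW ε0 ε → (2 : k) ≠ 0)
    (x : JJ r0 r s ⊕ JJ r0 r s → k) : toAB e ii (ofAB e ii x) = x := by
  have hii0 : ii ≠ 0 := by
    rintro rfl
    have : (0 : k) = -1 := by rw [← hii]; norm_num
    exact one_ne_zero (neg_eq_zero.mp this.symm)
  have hw : ∀ t : Fin s, wv (ofAB e ii x) (e.symm (Sum.inl t)) =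
      (2 : k)⁻¹ * (x (Sum.inl (ps t)) + x (Sum.inr (ps t))) := by
    intro t
    rw [wv_ofAB, sqv, e.apply_symm_apply, Sum.elim_inl]
  have hw' : ∀ t : Fin s, wv (ofAB e ii x) (e.symm (Sum.inr t)) =
      (2 * ii)⁻¹ * (x (Sum.inl (ps t)) - x (Sum.inr (ps t))) := by
    intro t
    rw [wv_ofAB, sqv, e.apply_symm_apply, Sum.elim_inr]
  funext q
  rcases q with (j | ⟨i, j⟩ | i | t) | (j | ⟨i, j⟩ | i | t)
  · rfl
  · rfl
  · rfl
  · have h2' := h2 (e.symm (Sum.inl t))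
    show wv (ofAB e ii x) (e.symm (Sum.inl t)) + ii * wv (ofAB e ii x) (e.symm (Sum.inr t)) = x (Sum.inl (ps t))
    rw [hw, hw']
    field_simp
    ring
  · rfl
  · rfl
  · show 1 - (1 - x (Sum.inr (pl i))) = _
    rw [sub_sub_cancel]
    rfl
  · have h2' := h2 (e.symm (Sum.inl t))
    show wv (ofAB e ii x) (e.symm (Sum.inl t)) - ii * wv (ofAB e ii x) (e.symm (Sum.inr t)) = x (Sum.inr (ps t))
    rw [hw, hw']
    field_simp
    ring

lemma isPol_wv (w : WW ε0 ε) : IsPol fun y : TT r0 ε0 r ε 0 → k => wv y w := by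
  rcases w with j | ⟨i, j⟩
  · exact IsPol.coord _
  · exact IsPol.coord _

lemma isPol_toAB (e : WW ε0 ε ≃ Fin s ⊕ Fin s) (ii : k) (q : JJ r0 r s ⊕ JJ r0 r s) :
    IsPol fun y : TT r0 ε0 r ε 0 → k => toAB e ii y q := by
  rcases q with (j | ⟨i, j⟩ | i | t) | (j | ⟨i, j⟩ | i | t)
  · exact IsPol.coord _
  · exact IsPol.coord _
  · exact IsPol.coord _
  · exact (isPol_wv _).add ((IsPol.const _).mul (isPol_wv _))
  · exact IsPol.coord _
  · exact IsPol.coord _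
  · exact (IsPol.const _).sub (IsPol.coord _)
  · exact (isPol_wv _).sub ((IsPol.const _).mul (isPol_wv _))

lemma isPol_sqv (e : WW ε0 ε ≃ Fin s ⊕ Fin s) (ii : k) (w : WW ε0 ε) :
    IsPol fun x : JJ r0 r s ⊕ JJ r0 r s → k => sqv e ii x w := by
  unfold sqv
  rcases e w with t | t
  · exact (IsPol.const _).mul ((IsPol.coord _).add (IsPol.coord _))
  · exact (IsPol.const _).mul ((IsPol.coord _).sub (IsPol.coord _))

lemma isPol_ofAB (e : WW ε0 ε ≃ Fin s ⊕ Fin s) (ii : k) (q : TT r0 ε0 r ε 0) :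
    IsPol fun x : JJ r0 r s ⊕ JJ r0 r s → k => ofAB e ii x q := by
  rcases q with (j | j | j) | ⟨i, (j | j | j)⟩ | i | (i | j)
  · exact IsPol.coord _
  · exact IsPol.coord _
  · exact isPol_sqv e ii _
  · exact IsPol.coord _
  · exact IsPol.coord _
  · exact isPol_sqv e ii _
  · exact IsPol.coord _
  · exact (IsPol.const _).sub (IsPol.coord _)
  · exact j.elim0

lemma gform_eq {e : WW ε0 ε ≃ Fin s ⊕ Fin s} {ii : k} (hii : ii ^ 2 = -1) (y : TT r0 ε0 r ε 0 → k) :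
    gform y = ∑ j, toAB e ii y (Sum.inl j) * toAB e ii y (Sum.inr j) := by
  have h1 : ∑ w : WW ε0 ε, wv y w ^ 2 = ∑ t : Fin s, (wv y (e.symm (Sum.inl t)) + ii * wv y (e.symm (Sum.inr t))) *
      (wv y (e.symm (Sum.inl t)) - ii * wv y (e.symm (Sum.inr t))) := by
    rw [← Equiv.sum_comp e.symm (fun w => wv y w ^ 2), Fintype.sum_sum_type, ← Finset.sum_add_distrib]
    refine Finset.sum_congr rfl fun t _ => ?_
    linear_combination (wv y (e.symm (Sum.inr t)) ^ 2) * hii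
  have h2 : ∑ w : WW ε0 ε, wv y w ^ 2 = ∑ j : Fin ε0, y (Sum.inl (Sum.inr (Sum.inr j))) ^ 2 +
      ∑ i : Fin N, ∑ j : Fin (ε i), y (Sum.inr (Sum.inl ⟨i, Sum.inr (Sum.inr j)⟩)) ^ 2 := by
    rw [Fintype.sum_sum_type, Fintype.sum_sigma]
    rfl
  have h3 : ∑ j : JJ r0 r s, toAB e ii y (Sum.inl j) * toAB e ii y (Sum.inr j) =
      ∑ j : Fin r0, y (Sum.inl (Sum.inl j)) * y (Sum.inl (Sum.inr (Sum.inl j))) +
      (∑ i : Fin N, ∑ j : Fin (r i), y (Sum.inr (Sum.inl ⟨i, Sum.inl j⟩)) *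
        y (Sum.inr (Sum.inl ⟨i, Sum.inr (Sum.inl j)⟩)) +
      (∑ i : Fin N, ct y i * (1 - cu (Sum.inl i) y) +
      ∑ t : Fin s, (wv y (e.symm (Sum.inl t)) + ii * wv y (e.symm (Sum.inr t))) *
      (wv y (e.symm (Sum.inl t)) - ii * wv y (e.symm (Sum.inr t))))) := by
    rw [Fintype.sum_sum_type, Fintype.sum_sum_type, Fintype.sum_sum_type, Fintype.sum_sigma]
    rfl
  rw [h3, ← h1, h2]
  unfold gform quad
  simp only [Finset.univ_eq_empty, Finset.sum_empty, add_zero, Finset.sum_add_distrib]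
  show _ = _
  unfold cx
  ring

/-- The denominators of the target: the `1 - b` of the last planes. -/
def dAB (i : Fin N) (x : JJ r0 r s ⊕ JJ r0 r s → k) : k := 1 - x (Sum.inr (pl i))

/-- The values at the points. -/
noncomputable def dpt {d : ℕ} (P : Fin N → k) (i : Fin N) (a : Fin d → k) : k := (mpoly a).eval (P i)

/-- The degree `d`. -/
abbrev d2 (r0 ε0 : ℕ) (r ε : Fin N → ℕ) : ℕ := dd r0 ε0 r ε 0

lemma IsReg.reindex {σ : Type*} {D : Fin N ⊕ Fin 0 → (σ → k) → k} {F : (σ → k) → k} (hF : IsReg D F) :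
    IsReg (fun i => D (Sum.inl i)) F := by
  obtain ⟨P, hP⟩ := hF
  refine ⟨MvPolynomial.rename (Sum.map id (Sum.elim id Fin.elim0)) P, fun x hx => ?_⟩
  have hx' : ∀ i, D i x ≠ 0 := by
    rintro (i | j)
    · exact hx i
    · exact j.elim0
  rw [MvPolynomial.eval_rename, hP x hx']
  congr 1
  congr 1
  funext q
  rcases q with q | (i | j)
  · rfl
  · rfl
  · exact j.elim0

/-- The normal form for an even number `d`. -/
theorem exists_split [IsAlgClosed k] (hε0 : ε0 ≤ 1) (hε : ∀ i, ε i ≤ 1) (hs : ε0 + ∑ i, ε i = 2 * s)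
    {f0 : Polynomial k} {f : Fin N → Polynomial k}
    (hf0 : f0.natDegree = r0 + ε0 + r0 + 1) (hm0 : ((r0 + ε0 + r0 + 1 : ℕ) : k) ≠ 0)
    (hf : ∀ i, (f i).natDegree = r i + ε i + r i + 1) (hm : ∀ i, ((r i + ε i + r i + 1 : ℕ) : k) ≠ 0)
    {P : Fin N → k} (hP : Function.Injective P) :
    ∃ (κ : k) (Φ : (Fin (d2 r0 ε0 r ε) → k) → JJ r0 r s ⊕ JJ r0 r s → k),
      IsRegEquiv (dpt P) dAB Φ ∧
      ∀ t : Fin (d2 r0 ε0 r ε) → k, (∀ l i, t l ≠ P i) →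
        ∑ l, (f0.eval (t l) + ∑ i, (f i).eval ((t l - P i)⁻¹)) =
          κ + ∑ j, Φ (NT.cf t) (Sum.inl j) * Φ (NT.cf t) (Sum.inr j) := by
  have hP' : Function.Injective (Sum.elim P (Fin.elim0 : Fin 0 → k)) := by
    rintro (i | i) (j | j) h
    · rw [hP h]
    · exact j.elim0
    · exact i.elim0
    · exact j.elim0
  obtain ⟨κ, lamA, Φ, h1, h2, h3, h4⟩ := exists_normal (M := 0) hε0 hε hf0 hm0 hf hm hP'
  obtain ⟨ii, hii⟩ := IsAlgClosed.exists_pow_nat_eq (-1 : k) (n := 2) (by norm_num)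
  have hcard : Fintype.card (WW ε0 ε) = Fintype.card (Fin s ⊕ Fin s) := by
    rw [Fintype.card_sum, Fintype.card_sum, Fintype.card_sigma]
    simp only [Fintype.card_fin]
    omega
  let e : WW ε0 ε ≃ Fin s ⊕ Fin s := Fintype.equivOfCardEq hcard
  have htwo : WW ε0 ε → (2 : k) ≠ 0 := by
    rintro (j | ⟨i, j⟩) h
    · have h0 : ε0 = 1 := by have := j.pos; omega
      refine hm0 ?_
      rw [h0, show r0 + 1 + r0 + 1 = 2 * (r0 + 1) by ring, Nat.cast_mul, Nat.cast_two, h, zero_mul]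
    · have h0 : ε i = 1 := by have := j.pos; have := hε i; omega
      refine hm i ?_
      rw [h0, show r i + 1 + r i + 1 = 2 * (r i + 1) by ring, Nat.cast_mul, Nat.cast_two, h, zero_mul]
  obtain ⟨hr, hD, Ψ, hΨr, hΨD, hΨΦ, hΦΨ⟩ := h2
  have hcu : ∀ (i : Fin N) (x : JJ r0 r s ⊕ JJ r0 r s → k),
      cu (Sum.inl i) (ofAB (ε0 := ε0) (ε := ε) e ii x) = dAB i x := fun i x => rfl
  have hdAB : ∀ (i : Fin N) (y : TT r0 ε0 r ε 0 → k), dAB i (toAB e ii y) = cu (Sum.inl i) y := by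
    intro i y
    rw [← hcu, ofAB_toAB hii htwo]
  have hx' : ∀ {x : JJ r0 r s ⊕ JJ r0 r s → k}, (∀ i, dAB i x ≠ 0) →
      ∀ i, cu i (ofAB (ε0 := ε0) (ε := ε) e ii x) ≠ 0 := by
    rintro x hx (i | j)
    · exact hx i
    · exact j.elim0
  have ha' : ∀ {a : Fin (d2 r0 ε0 r ε) → k}, (∀ i, dpt P i a ≠ 0) →
      ∀ i, dval (Sum.elim P (Fin.elim0 : Fin 0 → k)) i a ≠ 0 := by
    rintro a ha (i | j)
    · exact ha i
    · exact j.elim0
  refine ⟨κ, fun a => toAB e ii (Φ a), ⟨fun q => ?_, fun a ha i => ?_,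
    fun x => Ψ (ofAB e ii x), fun q => ?_, fun x hx i => ?_, fun a ha => ?_, fun x hx => ?_⟩, fun t ht => ?_⟩
  · exact (IsReg.comp_pol (isPol_toAB e ii q) hr).reindex
  · rw [hdAB]; exact hD a (ha' ha) (Sum.inl i)
  · have h5 := IsReg.comp_reg (hΨr q) (Θ := ofAB (r0 := r0) (r := r) (k := k) e ii) (isPol_ofAB e ii)
    exact h5.reindex
  · exact hΨD (ofAB e ii x) (hx' hx) (Sum.inl i)
  · show Ψ (ofAB e ii (toAB e ii (Φ a))) = a
    rw [ofAB_toAB hii htwo, hΨΦ a (ha' ha)]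
  · show toAB e ii (Φ (Ψ (ofAB e ii x))) = x
    rw [hΦΨ (ofAB e ii x) (hx' hx), toAB_ofAB hii htwo]
  · have h5 := h4 t (by
      rintro l (i | j)
      · exact ht l i
      · exact j.elim0)
    rw [← gform_eq hii]
    exact h5

/-! ### The curve -/

/-- The curve `A (y) = f0 (x) + ∑ f i (1 / (x - P i))`, `x ≠ P i`. -/
def rcurve (A f0 : Polynomial k) (f : Fin N → Polynomial k) (P : Fin N → k) : Set (k × k) :=
  {u | (∀ i, u.1 ≠ P i) ∧ A.eval u.2 = f0.eval u.1 + ∑ i, (f i).eval ((u.1 - P i)⁻¹)}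

/-- The family of quadrics `∑ a j b j = A (z) c ^ 2` in the space of the `(a, b, c)`, over the line of the `z`. -/
def bundle (A : Polynomial k) (r0 : ℕ) (r : Fin N → ℕ) (s : ℕ) : Set ((JJ r0 r s ⊕ JJ r0 r s → k) × k × k) :=
  {w | ∑ j, w.1 (Sum.inl j) * w.1 (Sum.inr j) = A.eval w.2.2 * w.2.1 ^ 2}

/-- The variety `A (z) = ∑ a j b j` (that is, `c = 1` in `bundle`), `b ≠ 1` for the last planes of the finite
poles. -/
def rtarget (A : Polynomial k) (r0 : ℕ) (r : Fin N → ℕ) (s : ℕ) : Set ((JJ r0 r s ⊕ JJ r0 r s → k) × k) :=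
  {w | (∀ i : Fin N, w.1 (Sum.inr (pl i)) ≠ 1) ∧ (w.1, 1, w.2) ∈ bundle A r0 r s}

/-- The map. -/
noncomputable def rmap {d : ℕ} (Φ : (Fin d → k) → JJ r0 r s ⊕ JJ r0 r s → k) (c : k)
    (u : Fin d → k × k) : (JJ r0 r s ⊕ JJ r0 r s → k) × k :=
  (Φ (NT.cf fun l => (u l).1), ∑ l, (u l).2 - c)

/-- The linear subspace `a j = 0` for `j ∈ S`, `b j = 0` for `j ∉ S`, `z = ζ`. -/
def lin (S : Finset (JJ r0 r s)) (ζ : k) : Set ((JJ r0 r s ⊕ JJ r0 r s → k) × k × k) :=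
  {w | (∀ j ∈ S, w.1 (Sum.inl j) = 0) ∧ (∀ j ∉ S, w.1 (Sum.inr j) = 0) ∧ w.2.2 = ζ}

/-- The part `a i = 0` for `i ∈ S`, `b i = 0` for `i ∉ S`, `i ≠ j`, of `bundle`. -/
def bridge (A : Polynomial k) (S : Finset (JJ r0 r s)) (j : JJ r0 r s) :
    Set ((JJ r0 r s ⊕ JJ r0 r s → k) × k × k) :=
  {w | w ∈ bundle A r0 r s ∧ (∀ i ∈ S, w.1 (Sum.inl i) = 0) ∧ ∀ i ∉ S, i ≠ j → w.1 (Sum.inr i) = 0}

lemma dAB_ne_iff (x : JJ r0 r s ⊕ JJ r0 r s → k) :
    (∀ i, dAB i x ≠ 0) ↔ ∀ i : Fin N, x (Sum.inr (pl i)) ≠ 1 := by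
  constructor
  · intro h i h1
    exact h i (by show 1 - x (Sum.inr (pl i)) = 0; rw [h1, sub_self])
  · intro h i
    exact sub_ne_zero.mpr (h i).symm

lemma dpt_ne {d : ℕ} {P : Fin N → k} (t : Fin d → k) :
    (∀ i, dpt P i (NT.cf t) ≠ 0) ↔ ∀ l i, t l ≠ P i := by
  constructor
  · intro h l i h1
    refine h i ?_
    rw [dpt, eval_mpoly_cf]
    exact Finset.prod_eq_zero (mem_univ l) (by rw [h1]; exact sub_self _)
  · intro h i
    rw [dpt, eval_mpoly_cf]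
    exact Finset.prod_ne_zero_iff.mpr fun l _ => sub_ne_zero.mpr (h l i).symm

section

variable {d : ℕ} {A : Polynomial k} {f0 : Polynomial k} {f : Fin N → Polynomial k} {P : Fin N → k} {κ c : k}
  {Φ : (Fin d → k) → JJ r0 r s ⊕ JJ r0 r s → k}

theorem rmap_mem (hA : IsAdditive A) (hc : A.eval c = κ) (hΦ : IsRegEquiv (dpt P) dAB Φ)
    (hform : ∀ t : Fin d → k, (∀ l i, t l ≠ P i) →
        ∑ l, (f0.eval (t l) + ∑ i, (f i).eval ((t l - P i)⁻¹)) =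
          κ + ∑ j, Φ (NT.cf t) (Sum.inl j) * Φ (NT.cf t) (Sum.inr j))
    {u : Fin d → k × k} (hu : ∀ l, u l ∈ rcurve A f0 f P) : rmap Φ c u ∈ rtarget A r0 r s := by
  refine ⟨?_, ?_⟩
  · rw [← dAB_ne_iff]
    exact hΦ.2.1 _ ((dpt_ne _).mpr fun l i => (hu l).1 i)
  · show _ = A.eval (∑ l, (u l).2 - c) * 1 ^ 2
    rw [one_pow, mul_one, hA.map_sub, hA.map_sum, hc, Finset.sum_congr rfl fun l _ => (hu l).2,
      hform (fun l => (u l).1) fun l i => (hu l).1 i]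
    rw [add_sub_cancel_left]
    rfl

theorem rmap_surj [IsAlgClosed k] (hA : IsAdditive A) (hA0 : A ≠ 0) (hd : 1 ≤ d) (hc : A.eval c = κ)
    (hΦ : IsRegEquiv (dpt P) dAB Φ)
    (hform : ∀ t : Fin d → k, (∀ l i, t l ≠ P i) →
        ∑ l, (f0.eval (t l) + ∑ i, (f i).eval ((t l - P i)⁻¹)) =
          κ + ∑ j, Φ (NT.cf t) (Sum.inl j) * Φ (NT.cf t) (Sum.inr j))
    {w : (JJ r0 r s ⊕ JJ r0 r s → k) × k} (hw : w ∈ rtarget A r0 r s) :
    ∃ u : Fin d → k × k, (∀ l, u l ∈ rcurve A f0 f P) ∧ rmap Φ c u = w := by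
  classical
  obtain ⟨x, z⟩ := w
  obtain ⟨hx, hz⟩ := hw
  obtain ⟨-, -, Ψ, -, hΨD, -, hΦΨ⟩ := hΦ
  have hx' := (dAB_ne_iff x).mpr hx
  obtain ⟨t, ht⟩ := NT.exists_cf (Ψ x)
  have hxt : Φ (NT.cf t) = x := by rw [ht, hΦΨ x hx']
  have htP : ∀ l i, t l ≠ P i := by
    rw [← dpt_ne, ht]
    exact hΨD x hx'
  choose y hy using fun l : Fin d => hA.surj hA0 (f0.eval (t l) + ∑ i, (f i).eval ((t l - P i)⁻¹))
  have hδ : A.eval (z + c - ∑ l, y l) = 0 := by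
    rw [hA.map_sub, hA, hA.map_sum, Finset.sum_congr rfl fun l _ => hy l, hform t htP, hc, hxt]
    have : ∑ j, x (Sum.inl j) * x (Sum.inr j) = A.eval z * 1 ^ 2 := hz
    rw [this]
    ring
  let l0 : Fin d := ⟨0, hd⟩
  refine ⟨fun l => (t l, y l + if l = l0 then (z + c - ∑ l, y l) else 0), fun l => ⟨htP l, ?_⟩, ?_⟩
  · show A.eval (y l + if l = l0 then (z + c - ∑ l, y l) else 0) = _
    rw [hA, hy]
    split_ifs
    · rw [hδ, add_zero]
    · rw [hA.map_zero, add_zero]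
  · refine Prod.ext hxt ?_
    show ∑ l, (y l + if l = l0 then (z + c - ∑ l, y l) else 0) - c = z
    rw [Finset.sum_add_distrib, Finset.sum_ite_eq' univ l0, if_pos (mem_univ _)]
    ring

theorem rmap_eq_iff (hA : IsAdditive A) (hΦ : IsRegEquiv (dpt P) dAB Φ)
    {u u' : Fin d → k × k} (hu : ∀ l, u l ∈ rcurve A f0 f P) (hu' : ∀ l, u' l ∈ rcurve A f0 f P) :
    rmap Φ c u = rmap Φ c u' ↔
      ∃ (σ : Equiv.Perm (Fin d)) (α : Fin d → k), (∀ l, A.eval (α l) = 0) ∧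
        ∑ l, α l = 0 ∧ ∀ l, u' l = ((u (σ l)).1, (u (σ l)).2 + α l) := by
  constructor
  · intro h
    obtain ⟨-, -, Ψ, -, -, hΨΦ, -⟩ := hΦ
    have h0 : Φ (NT.cf fun l => (u l).1) = Φ (NT.cf fun l => (u' l).1) := congrArg Prod.fst h
    have h1 : NT.cf (fun l => (u l).1) = NT.cf (fun l => (u' l).1) := by
      rw [← hΨΦ _ ((dpt_ne _).mpr fun l i => (hu l).1 i),
        ← hΨΦ _ ((dpt_ne _).mpr fun l i => (hu' l).1 i), h0]
    have h2 : ∑ l, (u l).2 = ∑ l, (u' l).2 := sub_left_inj.mp (congrArg Prod.snd h)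
    obtain ⟨σ, hσ⟩ := NT.cf_eq_iff.mp h1
    refine ⟨σ, fun l => (u' l).2 - (u (σ l)).2, fun l => ?_, ?_, fun l => Prod.ext (hσ l) ?_⟩
    · rw [hA.map_sub, (hu' l).2, (hu (σ l)).2, hσ, sub_self]
    · rw [Finset.sum_sub_distrib, Equiv.sum_comp σ (fun l => (u l).2), h2, sub_self]
    · show (u' l).2 = (u (σ l)).2 + ((u' l).2 - (u (σ l)).2)
      ring
  · rintro ⟨σ, α, _, hα0, h⟩
    refine Prod.ext ?_ ?_
    · show Φ _ = Φ _
      congr 1
      exact NT.cf_eq_iff.mpr ⟨σ, fun l => by rw [h l]⟩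
    · show ∑ l, (u l).2 - c = ∑ l, (u' l).2 - c
      have e1 : ∀ l ∈ univ, (u' l).2 = (u (σ l)).2 + α l := fun l _ => by rw [h l]
      rw [Finset.sum_congr rfl e1, Finset.sum_add_distrib, hα0, add_zero,
        Equiv.sum_comp σ (fun l => (u l).2)]

end

/-! ### The linear subspaces -/

theorem lin_subset {A : Polynomial k} (S : Finset (JJ r0 r s)) {ζ : k} (hζ : A.eval ζ = 0) :
    lin S ζ ⊆ bundle A r0 r s := by
  intro w hw
  obtain ⟨h1, h2, h3⟩ := hw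
  show _ = A.eval w.2.2 * w.2.1 ^ 2
  rw [h3, hζ, zero_mul]
  refine Finset.sum_eq_zero fun j _ => ?_
  by_cases hj : j ∈ S
  · rw [h1 j hj, zero_mul]
  · rw [h2 j hj, mul_zero]

theorem bridge_eq {A : Polynomial k} {S : Finset (JJ r0 r s)} {j : JJ r0 r s}
    {w : (JJ r0 r s ⊕ JJ r0 r s → k) × k × k} (hw : w ∈ bridge A S j) :
    A.eval w.2.2 * w.2.1 ^ 2 = w.1 (Sum.inl j) * w.1 (Sum.inr j) := by
  classical
  have hA : ∑ j, w.1 (Sum.inl j) * w.1 (Sum.inr j) = A.eval w.2.2 * w.2.1 ^ 2 := hw.1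
  rw [← hA]
  refine Finset.sum_eq_single j (fun i _ hi => ?_) fun h => absurd (mem_univ j) h
  by_cases hiS : i ∈ S
  · rw [hw.2.1 i hiS, zero_mul]
  · rw [hw.2.2 i hiS hi, mul_zero]

theorem bridge_zero [DecidableEq (JJ r0 r s)] {A : Polynomial k} {S : Finset (JJ r0 r s)} {j : JJ r0 r s}
    (hj : j ∉ S) {ζ : k} (hζ : A.eval ζ = 0) :
    bridge A S j ∩ {w | w.2.2 = ζ} = lin S ζ ∪ lin (insert j S) ζ := by
  ext w
  constructor
  · rintro ⟨hw, hz⟩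
    have h1 := bridge_eq hw
    rw [show w.2.2 = ζ from hz, hζ, zero_mul] at h1
    rcases mul_eq_zero.mp h1.symm with h | h
    · right
      refine ⟨fun i hi => ?_, fun i hi => ?_, hz⟩
      · rcases Finset.mem_insert.mp hi with rfl | hi
        · exact h
        · exact hw.2.1 i hi
      · rw [Finset.mem_insert, not_or] at hi
        exact hw.2.2 i hi.2 hi.1
    · left
      refine ⟨hw.2.1, fun i hi => ?_, hz⟩
      by_cases hij : i = j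
      · rw [hij]; exact h
      · exact hw.2.2 i hi hij
  · rintro (hw | hw)
    · exact ⟨⟨lin_subset S hζ hw, hw.1, fun i hi _ => hw.2.1 i hi⟩, hw.2.2⟩
    · refine ⟨⟨lin_subset _ hζ hw, fun i hi => hw.1 i (Finset.mem_insert_of_mem hi), fun i hi hij => hw.2.1 i ?_⟩,
        hw.2.2⟩
      rw [Finset.mem_insert, not_or]
      exact ⟨hij, hi⟩

theorem lin_inter {ζ ξ : k} (w : (JJ r0 r s ⊕ JJ r0 r s → k) × k × k) :
    (w ∈ lin Finset.univ ζ ∧ w ∈ lin ∅ ξ) ↔ ζ = ξ ∧ w.1 = (fun _ => 0) ∧ w.2.2 = ζ := by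
  constructor
  · rintro ⟨⟨h1, -, h3⟩, ⟨-, h5, h6⟩⟩
    refine ⟨h3.symm.trans h6, funext fun q => ?_, h3⟩
    rcases q with j | j
    · exact h1 j (mem_univ j)
    · exact h5 j (Finset.notMem_empty j)
  · rintro ⟨rfl, h1, h2⟩
    refine ⟨⟨fun _ _ => ?_, fun _ _ => ?_, h2⟩, ⟨fun _ _ => ?_, fun _ _ => ?_, h2⟩⟩ <;> rw [h1]

lemma d2_eq (hs : ε0 + ∑ i, ε i = 2 * s) : d2 r0 ε0 r ε = 2 * Fintype.card (JJ r0 r s) := by
  have h1 : ∑ i : Fin N ⊕ Fin 0, ee r ε i = ∑ i : Fin N, (r i + ε i + r i + 1 + 1) := by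
    rw [Fintype.sum_sum_type]
    simp only [Finset.univ_eq_empty, Finset.sum_empty, add_zero]
    rfl
  have h2 : ∑ i : Fin N, (r i + ε i + r i + 1 + 1) = ∑ i, ε i + 2 * (∑ i, r i + N) := by
    simp only [Finset.sum_add_distrib, Finset.sum_const, Finset.card_univ, Fintype.card_fin, smul_eq_mul,
      mul_one]
    ring
  show r0 + ε0 + r0 + ∑ i : Fin N ⊕ Fin 0, ee r ε i = _
  rw [h1, h2, Fintype.card_sum, Fintype.card_sum, Fintype.card_sum, Fintype.card_sigma]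
  simp only [Fintype.card_fin]
  omega

/-- A pairing with the relations of the linear subspaces. -/
theorem pairing {Z : Finset k} {I : Finset (JJ r0 r s) → k → Finset (JJ r0 r s) → k → ℚ}
    [DecidableEq (JJ r0 r s)] [DecidableEq k]
    (h1 : ∀ ζ ∈ Z, ∀ ξ ∈ Z, ∀ S T j, j ∉ T → I S ζ T ξ + I S ζ (insert j T) ξ = 0)
    (h2 : ∀ ζ ∈ Z, ∀ ξ ∈ Z, I Finset.univ ζ ∅ ξ = if ζ = ξ then 1 else 0) (a : k → ℚ) :
    (-1) ^ Fintype.card (JJ r0 r s) *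
      ∑ ζ ∈ Z, ∑ ξ ∈ Z, a ζ * a ξ * I Finset.univ ζ Finset.univ ξ = ∑ ζ ∈ Z, a ζ ^ 2 := by
  have h3 : ∀ ζ ∈ Z, ∀ ξ ∈ Z, ∀ T : Finset (JJ r0 r s),
      I Finset.univ ζ T ξ = (-1) ^ T.card * if ζ = ξ then 1 else 0 := by
    intro ζ hζ ξ hξ T
    induction T using Finset.induction_on with
    | empty => rw [h2 ζ hζ ξ hξ, Finset.card_empty, pow_zero, one_mul]
    | insert j T hj ih =>
      have h4 := h1 ζ hζ ξ hξ Finset.univ T j hj
      rw [Finset.card_insert_of_notMem hj, pow_succ]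
      linear_combination h4 - ih
  have h5 : ∀ ζ ∈ Z, ∑ ξ ∈ Z, a ζ * a ξ * I Finset.univ ζ Finset.univ ξ =
      (-1) ^ Fintype.card (JJ r0 r s) * a ζ ^ 2 := by
    intro ζ hζ
    rw [Finset.sum_eq_single ζ]
    · rw [h3 ζ hζ ζ hζ, if_pos rfl, Finset.card_univ]
      ring
    · intro ξ hξ hne
      rw [h3 ζ hζ ξ hξ, if_neg hne.symm, mul_zero, mul_zero]
    · intro h; exact absurd hζ h
  rw [Finset.sum_congr rfl h5, ← Finset.mul_sum, ← mul_assoc, ← mul_pow]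
  norm_num

end Pool.Agent.U436.AS
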